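import Pool.Agent.H65.ME.Main

/-!
# ARI: the arithmetical version
-/

namespace Pool.Agent.H65.ME

/-- The arithmetical sets of natural numbers: the smallest family of sets which contains the
computable sets and is closed under complements, intersections and projections
`{x | ∃ y, pair x y ∈ P}`. -/
inductive Arith : (ℕ → Prop) → Prop
  | base {P : ℕ → Prop} (h : ComputablePred P) : Arith P
  | neg {P : ℕ → Prop} (h : Arith P) : Arith fun x => ¬ P x
  | and {P Q : ℕ → Prop} (h : Arith P) (h' : Arith Q) : Arith fun x => P x ∧ Q x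
  | ex {P : ℕ → Prop} (h : Arith P) : Arith fun x => ∃ y, P (Nat.pair x y)

/-- `A` has an isomorphic copy with universe `ℕ` whose elementary diagram is arithmetical. -/
def ArithModel (A : Str) : Prop := ∃ B, IsoStr A B ∧ Arith (diag B)

theorem Arith.of_iff {P Q : ℕ → Prop} (h : Arith P) (he : ∀ x, P x ↔ Q x) : Arith Q := by
  have : P = Q := funext fun x => propext (he x)
  rwa [← this]

theorem Arith.comp {P : ℕ → Prop} (h : Arith P) :
    ∀ {g : ℕ → ℕ}, Computable g → Arith fun x => P (g x) := by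
  induction h with
  | base h =>
    intro g hg
    obtain ⟨f, hf, rfl⟩ := ComputablePred.computable_iff.1 h
    exact Arith.base (ComputablePred.computable_iff.2 ⟨fun x => f (g x), hf.comp hg, rfl⟩)
  | neg h ih => exact fun hg => (ih hg).neg
  | and h h' ih ih' => exact fun hg => (ih hg).and (ih' hg)
  | ex h ih =>
    intro g hg
    have hg' : Computable fun w : ℕ => Nat.pair (g w.unpair.1) w.unpair.2 :=
      (Primrec₂.natPair.to_comp).comp (hg.comp (Computable.fst.comp Computable.unpair))
        (Computable.snd.comp Computable.unpair)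
    exact (ih hg').ex.of_iff fun x => by simp

theorem Arith.or {P Q : ℕ → Prop} (h : Arith P) (h' : Arith Q) : Arith fun x => P x ∨ Q x :=
  (h.neg.and h'.neg).neg.of_iff fun x => by tauto

theorem Arith.imp {P Q : ℕ → Prop} (h : Arith P) (h' : Arith Q) : Arith fun x => P x → Q x :=
  (h.and h'.neg).neg.of_iff fun x => by tauto

theorem Arith.all {P : ℕ → Prop} (h : Arith P) : Arith fun x => ∀ y, P (Nat.pair x y) :=
  h.neg.ex.neg.of_iff fun x => by simp

theorem Arith.of_prim {p : ℕ → Prop} (h : PrimrecPred p) : Arith p := by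
  obtain ⟨hd, h⟩ := h
  exact Arith.base ⟨hd, h.to_comp⟩

/-- The graph of `f` is arithmetical. -/
def AG (f : ℕ →. ℕ) : Prop := Arith fun z => z.unpair.2 ∈ f z.unpair.1

theorem AG.sub {f : ℕ →. ℕ} (h : AG f) {a b : ℕ → ℕ} (ha : Computable a) (hb : Computable b) :
    Arith fun z => b z ∈ f (a z) :=
  (h.comp ((Primrec₂.natPair.to_comp).comp ha hb)).of_iff fun x => by simp

theorem AG.of_prim {f : ℕ → ℕ} (h : Primrec f) : AG (f : ℕ →. ℕ) := by
  have : PrimrecPred fun z : ℕ => z.unpair.2 = f z.unpair.1 :=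
    Primrec.eq.comp (Primrec.snd.comp Primrec.unpair) (h.comp (Primrec.fst.comp Primrec.unpair))
  exact (Arith.of_prim this).of_iff fun x => by simp

theorem cu1 : Computable fun n : ℕ => n.unpair.1 := Computable.fst.comp Computable.unpair
theorem cu2 : Computable fun n : ℕ => n.unpair.2 := Computable.snd.comp Computable.unpair

theorem c_pair {a b : ℕ → ℕ} (ha : Computable a) (hb : Computable b) :
    Computable fun n => Nat.pair (a n) (b n) := (Primrec₂.natPair.to_comp).comp ha hb

theorem c_get {a b : ℕ → ℕ} (ha : Computable a) (hb : Computable b) :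
    Computable fun n => (Denumerable.ofNat (List ℕ) (a n)).getD (b n) 0 := by
  have h : Primrec₂ fun l n : ℕ => (Denumerable.ofNat (List ℕ) l).getD n 0 :=
    (Primrec.list_getD 0).comp ((Primrec.ofNat (List ℕ)).comp Primrec.fst) Primrec.snd
  exact h.to_comp.comp ha hb

/-- The list of intermediate values of a primitive recursion. -/
theorem mem_prec_iff {f h : ℕ →. ℕ} {a n r : ℕ} :
    (r ∈ (n.rec (f a) fun y IH => do
      let i ← IH
      h (Nat.pair a (Nat.pair y i)) : Part ℕ)) ↔
    ∃ L : List ℕ, L.getD 0 0 ∈ f a ∧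
      (∀ y < n, L.getD (y + 1) 0 ∈ h (Nat.pair a (Nat.pair y (L.getD y 0)))) ∧
      L.getD n 0 = r := by
  constructor
  · intro hr
    suffices H : ∃ L : List ℕ, L.length = n + 1 ∧ L.getD 0 0 ∈ f a ∧
        (∀ y < n, L.getD (y + 1) 0 ∈ h (Nat.pair a (Nat.pair y (L.getD y 0)))) ∧
        L.getD n 0 = r by
      obtain ⟨L, -, h1⟩ := H
      exact ⟨L, h1⟩
    induction n generalizing r with
    | zero => exact ⟨[r], rfl, by simpa using hr, fun y hy => absurd hy (Nat.not_lt_zero _), rfl⟩
    | succ n ih =>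
      simp only [bind, Part.mem_bind_iff] at hr
      obtain ⟨i, hi, hr⟩ := hr
      obtain ⟨L, hl, h0, h1, h2⟩ := ih hi
      refine ⟨L ++ [r], by simp [hl], ?_, ?_, ?_⟩
      · rw [List.getD_append _ _ _ _ (by omega)]
        exact h0
      · intro y hy
        rw [List.getD_append L [r] _ y (by omega)]
        rcases Nat.lt_succ_iff_lt_or_eq.1 hy with hy' | rfl
        · rw [List.getD_append _ _ _ _ (by omega)]
          exact h1 y hy'
        · rw [List.getD_append_right _ _ _ _ (by omega), h2]
          simpa [hl] using hr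
      · rw [List.getD_append_right _ _ _ _ (by omega)]
        simp [hl]
  · rintro ⟨L, h0, h1, rfl⟩
    induction n with
    | zero => exact h0
    | succ n ih =>
      simp only [bind, Part.mem_bind_iff]
      exact ⟨L.getD n 0, ih fun y hy => h1 y (by omega), h1 n (by omega)⟩

theorem ag_of_rec {O : Set (ℕ →. ℕ)} (hO : ∀ g ∈ O, AG g) {f : ℕ →. ℕ}
    (h : Nat.RecursiveIn O f) : AG f := by
  induction h with
  | zero => exact AG.of_prim (Primrec.const 0)
  | succ => exact AG.of_prim Primrec.succ
  | left => exact AG.of_prim (Primrec.fst.comp Primrec.unpair)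
  | right => exact AG.of_prim (Primrec.snd.comp Primrec.unpair)
  | oracle g hg => exact hO g hg
  | @pair f h _ _ ihf ihh =>
    refine ((ihf.sub cu1 (cu1.comp cu2)).and (ihh.sub cu1 (cu2.comp cu2))).of_iff fun z => ?_
    simp only [Seq.seq, Functor.map, Part.mem_bind_iff, Part.mem_map_iff]
    constructor
    · rintro ⟨h1, h2⟩
      exact ⟨_, ⟨_, h1, rfl⟩, _, h2, by simp⟩
    · rintro ⟨_, ⟨a, h1, rfl⟩, b, h2, h3⟩
      rw [← h3]
      simp only [Nat.unpair_pair]
      exact ⟨h1, h2⟩
  | @comp f h _ _ ihf ihh =>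
    have h1 : Arith fun w : ℕ => w.unpair.2 ∈ h w.unpair.1.unpair.1 := ihh.sub (cu1.comp cu1) cu2
    have h2 : Arith fun w : ℕ => w.unpair.1.unpair.2 ∈ f w.unpair.2 := ihf.sub cu2 (cu2.comp cu1)
    refine (h1.and h2).ex.of_iff fun z => ?_
    simp only [Nat.unpair_pair, bind, Part.mem_bind_iff]
  | @prec f h _ _ ihf ihh =>
    -- variables: z = pair (pair a n) r; w = pair z c; v = pair w y
    have h1 : Arith fun w : ℕ => (Denumerable.ofNat (List ℕ) w.unpair.2).getD 0 0 ∈
        f w.unpair.1.unpair.1.unpair.1 :=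
      ihf.sub (cu1.comp (cu1.comp cu1)) (c_get cu2 (Computable.const 0))
    have h2 : Arith fun v : ℕ => v.unpair.2 < v.unpair.1.unpair.1.unpair.1.unpair.2 := by
      refine Arith.of_prim (Primrec.nat_lt.comp (Primrec.snd.comp Primrec.unpair) ?_)
      exact Primrec.snd.comp (Primrec.unpair.comp (Primrec.fst.comp (Primrec.unpair.comp
        (Primrec.fst.comp (Primrec.unpair.comp (Primrec.fst.comp Primrec.unpair))))))
    have h3 : Arith fun v : ℕ =>
        (Denumerable.ofNat (List ℕ) v.unpair.1.unpair.2).getD (v.unpair.2 + 1) 0 ∈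
        h (Nat.pair v.unpair.1.unpair.1.unpair.1.unpair.1 (Nat.pair v.unpair.2
          ((Denumerable.ofNat (List ℕ) v.unpair.1.unpair.2).getD v.unpair.2 0))) :=
      ihh.sub (c_pair (cu1.comp (cu1.comp (cu1.comp cu1)))
        (c_pair cu2 (c_get (cu2.comp cu1) cu2)))
        (c_get (cu2.comp cu1) (Computable.succ.comp cu2))
    have h4 : Arith fun w : ℕ => (Denumerable.ofNat (List ℕ) w.unpair.2).getD
        w.unpair.1.unpair.1.unpair.2 0 = w.unpair.1.unpair.2 := by
      refine Arith.of_prim (Primrec.eq.comp ((Primrec.list_getD 0).comp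
        ((Primrec.ofNat (List ℕ)).comp (Primrec.snd.comp Primrec.unpair))
        (Primrec.snd.comp (Primrec.unpair.comp (Primrec.fst.comp (Primrec.unpair.comp
          (Primrec.fst.comp Primrec.unpair)))))) ?_)
      exact Primrec.snd.comp (Primrec.unpair.comp (Primrec.fst.comp Primrec.unpair))
    refine (h1.and ((h2.imp h3).all.and h4)).ex.of_iff fun z => ?_
    simp only [Nat.unpair_pair]
    refine Iff.trans ?_ mem_prec_iff.symm
    constructor
    · rintro ⟨c, hc⟩
      exact ⟨_, hc⟩
    · rintro ⟨L, hL⟩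
      refine ⟨Encodable.encode L, ?_⟩
      rw [Denumerable.ofNat_encode]
      exact hL
  | @rfind f _ ihf =>
    have h1 : Arith fun z : ℕ => 0 ∈ f (Nat.pair z.unpair.1 z.unpair.2) :=
      ihf.sub (c_pair cu1 cu2) (Computable.const 0)
    have h2 : Arith fun v : ℕ => v.unpair.2 < v.unpair.1.unpair.2 := by
      refine Arith.of_prim (Primrec.nat_lt.comp (Primrec.snd.comp Primrec.unpair) ?_)
      exact Primrec.snd.comp (Primrec.unpair.comp (Primrec.fst.comp Primrec.unpair))
    have h3 : Arith fun v : ℕ => ∃ u, u + 1 ∈ f (Nat.pair v.unpair.1.unpair.1 v.unpair.2) := by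
      have : Arith fun w : ℕ => w.unpair.2 + 1 ∈
          f (Nat.pair w.unpair.1.unpair.1.unpair.1 w.unpair.1.unpair.2) :=
        ihf.sub (c_pair (cu1.comp (cu1.comp cu1)) (cu2.comp cu1)) (Computable.succ.comp cu2)
      exact this.ex.of_iff fun z => by simp
    refine (h1.and (h2.imp h3).all).of_iff fun z => ?_
    simp only [Nat.unpair_pair]
    rw [Nat.mem_rfind]
    simp only [Functor.map, Part.mem_map_iff, decide_eq_true_eq, decide_eq_false_iff_not]
    constructor
    · rintro ⟨h1, h2⟩
      refine ⟨⟨0, h1, rfl⟩, fun {m} hm => ?_⟩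
      obtain ⟨u, hu⟩ := h2 m hm
      exact ⟨u + 1, hu, by omega⟩
    · rintro ⟨⟨v, hv, h0⟩, h2⟩
      subst h0
      refine ⟨hv, fun m hm => ?_⟩
      obtain ⟨u, hu, hne⟩ := h2 hm
      refine ⟨u - 1, ?_⟩
      rwa [Nat.sub_add_cancel (Nat.pos_of_ne_zero hne)]

theorem ag_chi {P : ℕ → Prop} : AG (chi P) ↔ Arith P := by
  constructor
  · intro h
    refine (h.sub Computable.id (Computable.const 1)).of_iff fun x => ?_
    by_cases hP : P x <;> simp [chi, hP]
  · intro h
    have h1 : Arith fun z : ℕ => z.unpair.2 = 1 :=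
      Arith.of_prim (Primrec.eq.comp (Primrec.snd.comp Primrec.unpair) (Primrec.const 1))
    have h0 : Arith fun z : ℕ => z.unpair.2 = 0 :=
      Arith.of_prim (Primrec.eq.comp (Primrec.snd.comp Primrec.unpair) (Primrec.const 0))
    refine (((h.comp cu1).and h1).or ((h.comp cu1).neg.and h0)).of_iff fun z => ?_
    by_cases hP : P z.unpair.1 <;> simp [chi, hP]

/-- Almost prime models of theories with arithmetical types are arithmetical. -/
theorem main_arith {A : Str} (hA : FewPrime A)
    (ht : ∀ p, IsType A p → Arith fun n => dec n ∈ p) {M : Str} (hM : EE A M)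
    (hp : AlmostPrime M) : ArithModel M := by
  obtain ⟨ts, -, hty, B, hiso, hrec⟩ := main_rel hA hM hp
  refine ⟨B, hiso, ag_chi.1 (ag_of_rec ?_ hrec)⟩
  rintro g ⟨p, hpm, rfl⟩
  exact ag_chi.2 (ht p (hty p hpm))

end Pool.Agent.H65.ME
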