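import Pool.Agent.H65.ME.Syn2

/-!
# TRANS: elementary properties of isolation
-/

namespace Pool.Agent.H65.ME

/-! ### Auxiliary facts on assignments and types -/

lemma trans_asg_append_left {a b : List ℕ} {u : ℕ} (h : u < a.length) :
    asg (a ++ b) u = asg a u := by
  unfold asg
  exact List.getD_append _ _ _ _ h

lemma trans_asg_append_right {a b : List ℕ} {u : ℕ} :
    asg (a ++ b) (a.length + u) = asg b u := by
  unfold asg
  rw [List.getD_append_right _ _ _ _ (Nat.le_add_right _ _)]
  congr 1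
  omega

lemma trans_asg_mem {a : List ℕ} {u : ℕ} (h : u < a.length) : asg a u ∈ a := by
  unfold asg
  rw [List.getD_eq_getElem _ _ h]
  exact List.getElem_mem h

lemma trans_exists_asg {a : List ℕ} {x : ℕ} (h : x ∈ a) : ∃ u < a.length, asg a u = x := by
  obtain ⟨u, hu, rfl⟩ := List.getElem_of_mem h
  exact ⟨u, hu, by unfold asg; rw [List.getD_eq_getElem _ _ hu]⟩

lemma trans_asg_map {f : ℕ → ℕ} {a : List ℕ} {u : ℕ} (h : u < a.length) :
    asg (a.map f) u = f (asg a u) := by
  unfold asg
  rw [List.getD_eq_getElem _ _ (by simpa using h), List.getD_eq_getElem _ _ h, List.getElem_map]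

lemma trans_tp_eq {A B : Str} {a b : List ℕ} (hl : a.length = b.length)
    (h : ∀ φ, (∀ v ∈ fv φ, v < a.length) → Sat A φ (asg a) → Sat B φ (asg b)) :
    tp A a = tp B b := by
  ext φ
  constructor
  · rintro ⟨h1, h2⟩
    exact ⟨fun v hv => hl ▸ h1 v hv, h φ h1 h2⟩
  · rintro ⟨h1, h2⟩
    have h1' : ∀ v ∈ fv φ, v < a.length := fun v hv => by rw [hl]; exact h1 v hv
    refine ⟨h1', ?_⟩
    by_contra h3
    exact h φ.neg h1' h3 h2

lemma trans_sat_iff {A B : Str} {a b : List ℕ} (h : tp A a = tp B b) {φ : Fml}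
    (hφ : ∀ v ∈ fv φ, v < a.length) : Sat A φ (asg a) ↔ Sat B φ (asg b) := by
  have hl := tp_length h
  constructor
  · intro h1
    have h2 : φ ∈ tp A a := ⟨hφ, h1⟩
    rw [h] at h2
    exact h2.2
  · intro h1
    have h2 : φ ∈ tp B b := ⟨fun v hv => hl ▸ hφ v hv, h1⟩
    rw [← h] at h2
    exact h2.2

/-- Restriction of a type to an initial part. -/
lemma trans_tp_left {A B : Str} {a b a' b' : List ℕ} (hl : a.length = a'.length)
    (h : tp A (a ++ b) = tp B (a' ++ b')) : tp A a = tp B a' := by
  refine trans_tp_eq hl fun φ hφ h1 => ?_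
  have h2 : ∀ v ∈ fv φ, v < (a ++ b).length := fun v hv => by
    have := hφ v hv
    rw [List.length_append]; omega
  have h3 : Sat A φ (asg (a ++ b)) :=
    (sat_congr A φ fun v hv => trans_asg_append_left (hφ v hv)).2 h1
  exact (sat_congr B φ fun v hv => trans_asg_append_left (hl ▸ hφ v hv)).1
    ((trans_sat_iff h h2).1 h3)

/-- The tuple coded by an assignment. -/
lemma trans_asg_range {a : List ℕ} {m : ℕ} {s : ℕ → ℕ} (h : ∀ u < a.length, s u = asg a u)
    {u : ℕ} (hu : u < a.length + m) :
    asg (a ++ (List.range m).map fun i => s (a.length + i)) u = s u := by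
  rcases lt_or_ge u a.length with h1 | h1
  · rw [trans_asg_append_left h1, h u h1]
  · obtain ⟨i, rfl⟩ := Nat.exists_eq_add_of_le h1
    rw [trans_asg_append_right]
    have hi : i < m := by omega
    unfold asg
    rw [List.getD_eq_getElem _ _ (by simpa using hi)]
    simp

/-- If `χ` isolates `tp (b / a)` and `a'` has the type of `a` then `χ (a', b')` implies that
`a' b'` has the type of `a b`. -/
lemma trans_transfer {N N' : Str} {a b a' b' : List ℕ} {χ : Fml} (hχ : χ ∈ tp N (a ++ b))
    (hi : ∀ b' : List ℕ, b'.length = b.length → χ ∈ tp N (a ++ b') →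
      tp N (a ++ b') = tp N (a ++ b))
    (hl : b'.length = b.length) (ha : tp N a = tp N' a') (h : χ ∈ tp N' (a' ++ b')) :
    tp N (a ++ b) = tp N' (a' ++ b') := by
  have hla := tp_length ha
  have hL : (a ++ b).length = (a' ++ b').length := by simp only [List.length_append]; omega
  refine trans_tp_eq hL fun φ hφ h1 => ?_
  by_contra h2
  have h3 : Sat N' (exO (List.range a.length) (.and χ φ.neg)) (asg a') := by
    rw [sat_exO]
    refine ⟨asg (a' ++ b'), fun v hv => ?_, h.2, h2⟩
    rw [List.mem_range] at hv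
    exact trans_asg_append_left (hla ▸ hv)
  have h4 : ∀ v ∈ fv (exO (List.range a.length) (.and χ φ.neg)), v < a.length := by
    intro v hv
    exact List.mem_range.1 (fv_exO hv).1
  rw [← trans_sat_iff ha h4, sat_exO] at h3
  obtain ⟨s, hs, h5, h6⟩ := h3
  have hs' : ∀ u < a.length, s u = asg a u := fun u hu => hs u (List.mem_range.2 hu)
  set b₁ := (List.range b.length).map fun i => s (a.length + i) with hb₁
  have hb₁l : b₁.length = b.length := by simp [hb₁]
  have hag : ∀ u < a.length + b.length, asg (a ++ b₁) u = s u := fun u hu =>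
    trans_asg_range hs' hu
  have hχ1 : ∀ v ∈ fv χ, v < a.length + b.length := fun v hv => by
    have := hχ.1 v hv
    rwa [List.length_append] at this
  have h7 : χ ∈ tp N (a ++ b₁) := by
    refine ⟨fun v hv => ?_, ?_⟩
    · rw [List.length_append, hb₁l]; exact hχ1 v hv
    · exact (sat_congr N χ fun v hv => hag v (hχ1 v hv)).2 h5
  have h8 := hi b₁ hb₁l h7
  have hφ' : ∀ v ∈ fv φ, v < a.length + b.length := fun v hv => by
    have := hφ v hv
    rwa [List.length_append] at this
  apply h6
  refine (sat_congr N φ fun v hv => (hag v (hφ' v hv)).symm).2 ?_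
  refine (trans_sat_iff h8 fun v hv => ?_).2 h1
  rw [List.length_append, hb₁l]; exact hφ' v hv

/-! ### Isolation in terms of the elements -/

/-- Isolation, with the elements of the structure used as variables. -/
def transVI (N : Str) (P V : List ℕ) : Prop :=
  ∃ χ : Fml, (∀ v ∈ fv χ, v ∈ V) ∧ Sat N χ id ∧
    ∀ s : ℕ → ℕ, (∀ p ∈ P, s p = p) → Sat N χ s →
      ∀ φ, (∀ v ∈ fv φ, v ∈ V) → Sat N φ id → Sat N φ s

lemma trans_isol_iff {N : Str} {a b : List ℕ} : IsolOver N a b ↔ transVI N a (a ++ b) := by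
  constructor
  · rintro ⟨χ, hχ, hi⟩
    have hχ1 : ∀ v ∈ fv χ, v < (a ++ b).length := hχ.1
    refine ⟨tr (a ++ b) χ, fun v hv => fv_tr hv, ?_, ?_⟩
    · rw [sat_tr N hχ1]
      exact hχ.2
    · intro s hs h1 φ hφ h2
      rw [sat_tr N hχ1] at h1
      set b₁ := b.map s with hb₁
      have hl : b₁.length = b.length := by simp [hb₁]
      have hag : ∀ u < (a ++ b).length, asg (a ++ b₁) u = s (asg (a ++ b) u) := by
        intro u hu
        rcases lt_or_ge u a.length with h3 | h3
        · rw [trans_asg_append_left h3, trans_asg_append_left h3, hs _ (trans_asg_mem h3)]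
        · obtain ⟨i, rfl⟩ := Nat.exists_eq_add_of_le h3
          rw [List.length_append] at hu
          rw [trans_asg_append_right, trans_asg_append_right, hb₁,
            trans_asg_map (by omega : i < b.length)]
      have hlen : (a ++ b₁).length = (a ++ b).length := by
        simp only [List.length_append, hl]
      have h3 : χ ∈ tp N (a ++ b₁) :=
        ⟨fun v hv => hlen ▸ hχ1 v hv, (sat_congr N χ fun v hv => hag v (hχ1 v hv)).2 h1⟩
      have h4 := hi b₁ hl h3
      have h5 : Sat N (pull (a ++ b) φ) (asg (a ++ b)) := by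
        rw [sat_pull]
        exact ⟨id, fun i hi => rfl, h2⟩
      have h6 : ∀ v ∈ fv (pull (a ++ b) φ), v < (a ++ b₁).length := fun v hv =>
        hlen ▸ fv_pull hv
      rw [← trans_sat_iff h4 h6, sat_pull] at h5
      obtain ⟨s', hs', h7⟩ := h5
      refine (sat_congr N φ fun v hv => ?_).2 h7
      obtain ⟨u, hu, huv⟩ := trans_exists_asg (hφ v hv)
      have h8 := hs' u hu
      rw [hag u hu] at h8
      change s' (asg (a ++ b) u) = _ at h8
      rw [huv] at h8
      exact h8.symm
  · rintro ⟨χ, hχ, h1, hi⟩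
    refine ⟨pull (a ++ b) χ, ⟨fun v hv => fv_pull hv, ?_⟩, ?_⟩
    · rw [sat_pull]
      exact ⟨id, fun i hi => rfl, h1⟩
    · rintro b' hl ⟨h2, h3⟩
      rw [sat_pull] at h3
      obtain ⟨s', hs', h4⟩ := h3
      have hlen : (a ++ b).length = (a ++ b').length := by
        simp only [List.length_append, hl]
      have hfix : ∀ p ∈ a, s' p = p := by
        intro p hp
        obtain ⟨u, hu, rfl⟩ := trans_exists_asg hp
        have h5 := hs' u (by rw [List.length_append]; omega)
        rw [trans_asg_append_left hu] at h5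
        change s' (asg (a ++ b) u) = _ at h5
        rwa [trans_asg_append_left hu] at h5
      refine (trans_tp_eq hlen fun φ hφ h5 => ?_).symm
      have h6 : Sat N (tr (a ++ b) φ) id := by
        rw [sat_tr N hφ]; exact h5
      have h7 := hi s' hfix h4 (tr (a ++ b) φ) (fun v hv => fv_tr hv) h6
      rw [sat_tr N hφ] at h7
      exact (sat_congr N φ fun v hv => (hs' v (hφ v hv)).symm).2 h7

lemma transVI_congr {N : Str} {P P' V V' : List ℕ} (h : transVI N P V)
    (hP : ∀ x, x ∈ P → x ∈ P') (hV : ∀ x, x ∈ V ↔ x ∈ V') : transVI N P' V' := by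
  obtain ⟨χ, h1, h2, h3⟩ := h
  exact ⟨χ, fun v hv => (hV v).1 (h1 v hv), h2, fun s hs h4 φ hφ h5 =>
    h3 s (fun p hp => hs p (hP p hp)) h4 φ (fun v hv => (hV v).2 (hφ v hv)) h5⟩

lemma transVI_sub {N : Str} {P V V' : List ℕ} (h : transVI N P V)
    (hP : ∀ x, x ∈ P → x ∈ V') (hV : ∀ x, x ∈ V' → x ∈ V) : transVI N P V' := by
  obtain ⟨χ, h1, h2, h3⟩ := h
  refine ⟨exO V' χ, fun v hv => (fv_exO hv).1, ?_, ?_⟩
  · rw [sat_exO]
    exact ⟨id, fun v _ => rfl, h2⟩
  · intro s hs h4 φ hφ h5
    rw [sat_exO] at h4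
    obtain ⟨s', hs', h6⟩ := h4
    have h7 := h3 s' (fun p hp => (hs' p (hP p hp)).trans (hs p hp)) h6 φ
      (fun v hv => hV v (hφ v hv)) h5
    exact (sat_congr N φ fun v hv => (hs' v (hφ v hv)).symm).2 h7

lemma transVI_join {N : Str} {P V V' : List ℕ} (h : transVI N P V) (h' : transVI N V V')
    (hV : ∀ x, x ∈ V → x ∈ V') : transVI N P V' := by
  obtain ⟨χ, h1, h2, h3⟩ := h
  obtain ⟨χ', h1', h2', h3'⟩ := h'
  refine ⟨.and χ χ', ?_, ⟨h2, h2'⟩, ?_⟩
  · intro v hv
    rcases Finset.mem_union.1 hv with h4 | h4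
    · exact hV v (h1 v h4)
    · exact h1' v h4
  · rintro s hs ⟨h4, h4'⟩ φ hφ h5
    have h6 : Sat N (exO V (.and χ' φ.neg)).neg id := by
      intro h7
      rw [sat_exO] at h7
      obtain ⟨s', hs', h8, h9⟩ := h7
      exact h9 (h3' s' (fun p hp => hs' p hp) h8 φ hφ h5)
    have h7 := h3 s hs h4 (exO V (.and χ' φ.neg)).neg (fun v hv => (fv_exO hv).1) h6
    by_contra h8
    apply h7
    rw [sat_exO]
    exact ⟨s, fun v _ => rfl, h4', h8⟩

/-! ### The statements -/

/-- If `χ₁ (c, d)` and `χ₂ (d, c, b)` isolate, then `∃ d (χ₁ (c, d) ∧ χ₂ (d, c, b))` isolates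
`tp (b / c)`. -/
theorem IsolOver.trans {N : Str} {c d b : List ℕ} (h1 : IsolOver N c d)
    (h2 : IsolOver N d (c ++ b)) : IsolOver N c b := by
  rw [trans_isol_iff] at *
  have h3 : transVI N (c ++ d) (c ++ d ++ b) := by
    refine transVI_congr h2 (fun x hx => by simp [hx]) (fun x => ?_)
    simp only [List.mem_append]; tauto
  have h4 := transVI_join h1 h3 (fun x hx => by simp only [List.mem_append] at *; tauto)
  exact transVI_sub h4 (fun x hx => by simp [hx])
    (fun x hx => by simp only [List.mem_append] at *; tauto)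

theorem IsolOver.of_subset {N : Str} {a b b' : List ℕ} (h : IsolOver N a b)
    (hs : ∀ x ∈ b', x ∈ b) : IsolOver N a b' := by
  rw [trans_isol_iff] at *
  refine transVI_sub h (fun x hx => by simp [hx]) (fun x hx => ?_)
  rcases List.mem_append.1 hx with h1 | h1
  · exact List.mem_append_left _ h1
  · exact List.mem_append_right _ (hs x h1)

/-- `tp (d e / a)` isolated implies `tp (e / a d)` isolated. -/
theorem IsolOver.append {N : Str} {a d e : List ℕ} (h : IsolOver N a (d ++ e)) :
    IsolOver N (a ++ d) e := by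
  rw [trans_isol_iff] at *
  exact transVI_congr h (fun x hx => by simp [hx]) (fun x => by simp)

/-- Transitivity in the other form. -/
theorem IsolOver.join {N : Str} {a d e : List ℕ} (h1 : IsolOver N a d)
    (h2 : IsolOver N (a ++ d) e) : IsolOver N a (d ++ e) := by
  rw [trans_isol_iff] at *
  have h3 := transVI_join h1 h2 (fun x hx => List.mem_append_left _ hx)
  exact transVI_congr h3 (fun x hx => hx) (fun x => by simp)

/-- Isolation only depends on the set of parameters. -/
theorem IsolOver.congr_left {N : Str} {a a' b : List ℕ} (h : IsolOver N a b)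
    (hs : ∀ x, x ∈ a ↔ x ∈ a') : IsolOver N a' b := by
  rw [trans_isol_iff] at *
  exact transVI_congr h (fun x hx => (hs x).1 hx) (fun x => by simp [hs x])

theorem tp_map {B N : Str} {f : ℕ → ℕ} (hf : ∀ φ s, Sat B φ s ↔ Sat N φ (f ∘ s))
    (a : List ℕ) : tp B a = tp N (a.map f) := by
  refine trans_tp_eq (by simp) fun φ hφ h1 => ?_
  rw [hf] at h1
  exact (sat_congr N φ fun v hv => trans_asg_map (hφ v hv)).2 h1

/-- Isolation is preserved by elementary maps (for every `φ ∈ tp (a b)` the formula
`∀ y (χ (a, y) → φ (a, y))` holds in `B`, hence in `N`). -/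
theorem IsolOver.map {B N : Str} {f : ℕ → ℕ} (hf : ∀ φ s, Sat B φ s ↔ Sat N φ (f ∘ s))
    {a b : List ℕ} (h : IsolOver B a b) : IsolOver N (a.map f) (b.map f) := by
  obtain ⟨χ, hχ, hi⟩ := h
  have h1 := tp_map hf (a ++ b)
  rw [List.map_append] at h1
  refine ⟨χ, h1 ▸ hχ, fun b' hl h2 => ?_⟩
  rw [← h1]
  exact (trans_transfer hχ hi (by simpa using hl) (tp_map hf a) h2).symm

/-- Isolation only depends on the types: it is a property of the type of `a ++ b`, given the
lengths (only needed inside one structure). -/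
theorem IsolOver.of_tp {N : Str} {a b a' b' : List ℕ} (h : IsolOver N a b)
    (ha : a.length = a'.length) (ht : tp N (a ++ b) = tp N (a' ++ b')) : IsolOver N a' b' := by
  obtain ⟨χ, hχ, hi⟩ := h
  have hl := tp_length ht
  simp only [List.length_append] at hl
  refine ⟨χ, ht ▸ hχ, fun b'' hl' h2 => ?_⟩
  rw [← ht]
  exact (trans_transfer hχ hi (by omega) (trans_tp_left ha ht) h2).symm

theorem AtomicOver.append {M : Str} {a : List ℕ} (h : AtomicOver M a) (e : List ℕ) :
    AtomicOver M (a ++ e) := fun b => (h (e ++ b)).append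

theorem AtomicOver.congr {M : Str} {a a' : List ℕ} (h : AtomicOver M a)
    (hs : ∀ x, x ∈ a ↔ x ∈ a') : AtomicOver M a' := fun b => (h b).congr_left hs

theorem AtomicOver.iso {A B : Str} (e : ℕ ≃ ℕ) (h : ∀ i v, A.R i v ↔ B.R i (v.map e))
    {a : List ℕ} (ha : AtomicOver A a) : AtomicOver B (a.map e) := by
  intro b
  have h1 := (ha (b.map e.symm)).map (f := e) (fun φ s => sat_iso e h φ s)
  have h2 : (b.map e.symm).map e = b := by
    rw [List.map_map]; simp
  rwa [h2] at h1

/-- An atomic expansion is homogeneous. -/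
theorem hom_of_atomic {M : Str} {a : List ℕ} (h : AtomicOver M a) : HomOver M a := by
  intro b b' hl ht c
  obtain ⟨χ, hχ, hi⟩ := h.append b [c]
  have hL : (a ++ b).length = (a ++ b').length := tp_length ht
  have h1 : Sat M (exO (List.range (a ++ b).length) χ) (asg (a ++ b)) := by
    rw [sat_exO]
    refine ⟨asg (a ++ b ++ [c]), fun v hv => ?_, hχ.2⟩
    exact trans_asg_append_left (List.mem_range.1 hv)
  have h2 : ∀ v ∈ fv (exO (List.range (a ++ b).length) χ), v < (a ++ b).length :=
    fun v hv => List.mem_range.1 (fv_exO hv).1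
  rw [trans_sat_iff ht h2, sat_exO] at h1
  obtain ⟨s, hs, h3⟩ := h1
  have hs' : ∀ u < (a ++ b').length, s u = asg (a ++ b') u := fun u hu =>
    hs u (List.mem_range.2 (hL ▸ hu))
  refine ⟨s ((a ++ b').length + 0), ?_⟩
  have hag : ∀ u < (a ++ b').length + 1,
      asg (a ++ b' ++ [s ((a ++ b').length + 0)]) u = s u := fun u hu => by
    have := trans_asg_range (m := 1) hs' hu
    simpa using this
  have hχ1 : ∀ v ∈ fv χ, v < (a ++ b').length + 1 := fun v hv => by
    have := hχ.1 v hv
    rw [List.length_append] at this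
    rw [← hL]; simpa using this
  refine trans_transfer hχ hi (by simp) ht ⟨fun v hv => ?_, ?_⟩
  · have := hχ1 v hv
    rw [List.length_append]; simpa using this
  · exact (sat_congr M χ fun v hv => hag v (hχ1 v hv)).2 h3

end Pool.Agent.H65.ME
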