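import Pool.Agent.H65.ME.Sml
import Pool.Agent.H65.ME.Trans

/-!
# ATM: atomic elementary submodels
-/

namespace Pool.Agent.H65.ME

/-- One step of the construction: a new element, isolated over `L`, which is a witness if a
witness is needed. -/
private theorem atm_step {A : Str} (hc : {p | IsType A p}.Countable) {N : Str} (hN : EE A N)
    {L : List ℕ} (hL : L.Nodup) (φ : Fml) :
    ∃ x, x ∉ L ∧ IsolOver N L [x] ∧
      ∀ v ψ, φ = .ex v ψ → (∀ u ∈ fv φ, u < L.length) → Sat N φ (asg L) →
        ∃ y ∈ L ++ [x], Sat N ψ (Function.update (asg L) v y) := by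
  -- values of `asg (L ++ [x])`
  have hval : ∀ x : ℕ, ∀ i < L.length, asg (L ++ [x]) i = asg L i := by
    intro x i hi
    unfold asg
    rw [List.getD_append _ _ _ _ hi]
  have hlast : ∀ x : ℕ, asg (L ++ [x]) L.length = x := by
    intro x
    unfold asg
    rw [List.getD_append_right _ _ _ _ le_rfl]
    simp
  have hmem : ∀ x : ℕ, (∀ i < L.length, asg (L ++ [x]) L.length ≠ asg (L ++ [x]) i) ↔ x ∉ L := by
    intro x
    rw [hlast]
    constructor
    · intro h hx
      obtain ⟨i, hi, hxi⟩ := List.getElem_of_mem hx
      apply h i hi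
      rw [hval x i hi]
      unfold asg
      rw [List.getD_eq_getElem _ _ hi, hxi]
    · intro h i hi he
      apply h
      rw [hval x i hi] at he
      unfold asg at he
      rw [List.getD_eq_getElem _ _ hi] at he
      rw [he]
      exact List.getElem_mem hi
  have hfvn : ∀ χ : Fml, (∀ v ∈ fv χ, v < L.length + 1) →
      ∀ v ∈ fv (andL (newv L.length) χ), v < L.length + 1 := by
    intro χ hχ v hv
    rw [mem_fv_andL] at hv
    rcases hv with ⟨ψ, hψ, hv⟩ | hv
    · unfold newv at hψ
      rw [List.mem_map] at hψ
      obtain ⟨i, hi, rfl⟩ := hψ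
      rw [List.mem_range] at hi
      simp only [fv, Finset.mem_insert, Finset.mem_singleton] at hv
      omega
    · exact hχ v hv
  by_cases hcase : ∃ v ψ, φ = .ex v ψ ∧ (∀ u ∈ fv φ, u < L.length) ∧ Sat N φ (asg L) ∧
      ¬ ∃ y ∈ L, Sat N ψ (Function.update (asg L) v y)
  · obtain ⟨v, ψ, rfl, hfv, hsat, hno⟩ := hcase
    obtain ⟨y, hy⟩ := hsat
    have hyL : y ∉ L := fun h => hno ⟨y, h, hy⟩
    have hagree : ∀ x : ℕ, Sat N (wit (.ex v ψ) L.length) (asg (L ++ [x])) ↔
        Sat N ψ (Function.update (asg L) v x) := by
      intro x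
      rw [sat_wit, hlast]
      apply sat_congr
      intro u hu
      by_cases huv : u = v
      · subst huv
        rw [Function.update_self, Function.update_self]
      · rw [Function.update_of_ne huv, Function.update_of_ne huv]
        apply hval
        apply hfv
        simp only [fv]
        exact Finset.mem_erase.mpr ⟨huv, hu⟩
    have hfv1 : ∀ u ∈ fv (andL (newv L.length) (wit (.ex v ψ) L.length)), u < L.length + 1 := by
      apply hfvn
      intro u hu
      rcases fv_wit hu with h | h | h
      · have := hfv u h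
        omega
      · omega
      · omega
    have hx0 : Sat N (andL (newv L.length) (wit (.ex v ψ) L.length)) (asg (L ++ [y])) := by
      rw [sat_newv]
      exact ⟨(hmem y).mpr hyL, (hagree y).mpr hy⟩
    obtain ⟨x, hx, hiso⟩ := dense hc hN hL hfv1 hx0
    rw [sat_newv] at hx
    refine ⟨x, (hmem x).mp hx.1, hiso, ?_⟩
    intro v' ψ' he _ _
    cases he
    exact ⟨x, by simp, (hagree x).mp hx.2⟩
  · obtain ⟨y, hyL⟩ : ∃ y, y ∉ L := by
      obtain ⟨y, hy⟩ := Infinite.exists_notMem_finset L.toFinset
      exact ⟨y, fun h => hy (List.mem_toFinset.mpr h)⟩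
    have hfv1 : ∀ u ∈ fv (andL (newv L.length) (.eq 0 0)), u < L.length + 1 := by
      apply hfvn
      intro u hu
      simp only [fv, Finset.mem_insert, Finset.mem_singleton] at hu
      omega
    have hx0 : Sat N (andL (newv L.length) (.eq 0 0)) (asg (L ++ [y])) := by
      rw [sat_newv]
      exact ⟨(hmem y).mpr hyL, rfl⟩
    obtain ⟨x, hx, hiso⟩ := dense hc hN hL hfv1 hx0
    rw [sat_newv] at hx
    refine ⟨x, (hmem x).mp hx.1, hiso, ?_⟩
    intro v ψ he hfv hsat
    by_contra hno
    apply hcase
    refine ⟨v, ψ, he, hfv, hsat, ?_⟩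
    rintro ⟨z, hz, hz'⟩
    exact hno ⟨z, by simp [hz], hz'⟩

/-- A tuple is isolated over itself. -/
private theorem atm_refl (N : Str) (a : List ℕ) : IsolOver N a a := by
  have hg : ∀ b : List ℕ, ∀ i < a.length, asg (a ++ b) i = a.getD i 0 := by
    intro b i hi
    unfold asg
    rw [List.getD_append _ _ _ _ hi]
  have hg' : ∀ b : List ℕ, ∀ i, asg (a ++ b) (a.length + i) = b.getD i 0 := by
    intro b i
    unfold asg
    rw [List.getD_append_right _ _ _ _ (Nat.le_add_right _ _), Nat.add_sub_cancel_left]
  have hsat : ∀ b : List ℕ, Sat N (andL ((List.range a.length).map fun i => .eq i (a.length + i))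
      (.ex 0 (.eq 0 0))) (asg (a ++ b)) ↔ ∀ i < a.length, a.getD i 0 = b.getD i 0 := by
    intro b
    rw [sat_andL]
    constructor
    · rintro ⟨h, -⟩ i hi
      have := h (.eq i (a.length + i)) (List.mem_map.mpr ⟨i, List.mem_range.mpr hi, rfl⟩)
      simp only [Sat] at this
      rw [hg b i hi, hg'] at this
      exact this
    · intro h
      refine ⟨?_, 0, rfl⟩
      intro ψ hψ
      rw [List.mem_map] at hψ
      obtain ⟨i, hi, rfl⟩ := hψ
      rw [List.mem_range] at hi
      simp only [Sat]
      rw [hg b i hi, hg']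
      exact h i hi
  refine ⟨andL ((List.range a.length).map fun i => .eq i (a.length + i)) (.ex 0 (.eq 0 0)),
    ⟨?_, ?_⟩, ?_⟩
  · intro v hv
    rw [mem_fv_andL] at hv
    rw [List.length_append]
    rcases hv with ⟨ψ, hψ, hv⟩ | hv
    · rw [List.mem_map] at hψ
      obtain ⟨i, hi, rfl⟩ := hψ
      rw [List.mem_range] at hi
      simp only [fv, Finset.mem_insert, Finset.mem_singleton] at hv
      omega
    · simp [fv] at hv
  · rw [hsat]
    intro i _
    rfl
  · rintro b hb ⟨-, h⟩
    rw [hsat] at h
    have : b = a := by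
      apply List.ext_getElem hb
      intro i h1 h2
      have := h i h2
      rw [List.getD_eq_getElem _ _ h1, List.getD_eq_getElem _ _ h2] at this
      exact this.symm
    rw [this]

/-- Construct `f` recursively with `f i = i` for `i < k`, injective, and
`IsolOver N (range k) [f k, ..., f (m-1)]` for all `m`: at stage `n` (`m = k + n`) let
`φ = dec n`. If `φ = ex v ψ` holds in `N` under `f` and has no witness among
`f 0, ..., f (m-1)`, choose `f m` by `dense` (over the tuple `f 0, ..., f (m-1)`, formula
`tr`-ansported) such that it is a witness; otherwise choose by `dense` any new element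
(formula: `x_m` is different from `x_0, ..., x_{m-1}`; `N` is infinite). Then the range of `f` is
an elementary submodel (Tarski-Vaught; one can use `sat_limStr` with
`P r := ∀ i < k, r i = i` and `θ t` := a formula isolating `f k, ..., f (k+t-1)` over
`0, ..., k-1`, and `B` the limit structure; or argue directly with
`B.R i v := N.R i (v.map f)`). -/
theorem atomic_sub {A : Str} (hc : {p | IsType A p}.Countable) {N : Str} (hN : EE A N) {k : ℕ}
    (hk : 1 ≤ k) :
    ∃ (B : Str) (f : ℕ → ℕ), Function.Injective f ∧ (∀ i < k, f i = i) ∧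
      (∀ φ s, Sat B φ s ↔ Sat N φ (f ∘ s)) ∧ AtomicOver B (List.range k) := by
  classical
  -- the choice of the next element
  have hstep : ∀ (L : List ℕ) (n : ℕ), ∃ x, L.Nodup → (x ∉ L ∧ IsolOver N L [x] ∧
      ∀ v ψ, dec n = .ex v ψ → (∀ u ∈ fv (dec n), u < L.length) → Sat N (dec n) (asg L) →
        ∃ y ∈ L ++ [x], Sat N ψ (Function.update (asg L) v y)) := by
    intro L n
    by_cases hL : L.Nodup
    · obtain ⟨x, hx⟩ := atm_step hc hN hL (dec n)
      exact ⟨x, fun _ => hx⟩
    · exact ⟨0, fun h => absurd h hL⟩
  choose nx hnx using hstep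
  -- the initial segments
  obtain ⟨F, hF0, hFs⟩ : ∃ F : ℕ → List ℕ, F 0 = List.range k ∧
      ∀ n, F (n + 1) = F n ++ [nx (F n) n] :=
    ⟨fun n => Nat.rec (List.range k) (fun n L => L ++ [nx L n]) n, rfl, fun n => rfl⟩
  have hlen : ∀ n, (F n).length = k + n := by
    intro n
    induction n with
    | zero => rw [hF0, List.length_range]; rfl
    | succ n ih => rw [hFs, List.length_append, ih]; rfl
  have hnd : ∀ n, (F n).Nodup := by
    intro n
    induction n with
    | zero => rw [hF0]; exact List.nodup_range
    | succ n ih =>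
      rw [hFs, List.nodup_append]
      refine ⟨ih, List.nodup_singleton _, ?_⟩
      intro a ha b hb hab
      rw [List.mem_singleton] at hb
      subst hb
      subst hab
      exact (hnx (F n) n ih).1 ha
  have hgetD : ∀ n i, i < k + n → ∀ j, (F (n + j)).getD i 0 = (F n).getD i 0 := by
    intro n i hi j
    induction j with
    | zero => rfl
    | succ j ih =>
      rw [← Nat.add_assoc, hFs, List.getD_append _ _ _ _ (by rw [hlen]; omega), ih]
  let f : ℕ → ℕ := fun i => (F (i + 1)).getD i 0
  have hfF : ∀ n i, i < k + n → f i = (F n).getD i 0 := by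
    intro n i hi
    have h1 : (F (i + 1 + n)).getD i 0 = (F (i + 1)).getD i 0 := hgetD (i + 1) i (by omega) n
    have h2 : (F (n + (i + 1))).getD i 0 = (F n).getD i 0 := hgetD n i hi (i + 1)
    have h3 : n + (i + 1) = i + 1 + n := by omega
    rw [h3] at h2
    change (F (i + 1)).getD i 0 = _
    rw [← h1, h2]
  have hfk : ∀ i < k, f i = i := by
    intro i hi
    rw [hfF 0 i (by omega), hF0, List.getD_eq_getElem _ _ (by rw [List.length_range]; exact hi)]
    simp
  have hfmem : ∀ n i, i < k + n → f i ∈ F n := by
    intro n i hi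
    rw [hfF n i hi, List.getD_eq_getElem _ _ (by rw [hlen]; exact hi)]
    exact List.getElem_mem _
  have hmemf : ∀ n y, y ∈ F n → ∃ i < k + n, f i = y := by
    intro n y hy
    obtain ⟨i, hi, hyi⟩ := List.getElem_of_mem hy
    have hi' : i < k + n := by rw [← hlen]; exact hi
    refine ⟨i, hi', ?_⟩
    rw [hfF n i hi', List.getD_eq_getElem _ _ hi, hyi]
  have hfinj : Function.Injective f := by
    intro i j hij
    have hi : i < k + (i + j + 1) := by omega
    have hj : j < k + (i + j + 1) := by omega
    rw [hfF _ i hi, hfF _ j hj, List.getD_eq_getElem _ _ (by rw [hlen]; exact hi),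
      List.getD_eq_getElem _ _ (by rw [hlen]; exact hj)] at hij
    exact (List.Nodup.getElem_inj_iff (hnd _)).mp hij
  -- isolation
  have hiso : ∀ n, IsolOver N (List.range k) (F n) := by
    intro n
    induction n with
    | zero =>
      rw [hF0]
      exact atm_refl N _
    | succ n ih =>
      rw [hFs]
      apply IsolOver.join ih
      apply IsolOver.congr_left (hnx (F n) n (hnd n)).2.1
      intro x
      constructor
      · intro hx
        rw [List.mem_append]
        exact Or.inr hx
      · intro hx
        rw [List.mem_append] at hx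
        rcases hx with hx | hx
        · rw [List.mem_range] at hx
          rw [← hfk x hx]
          exact hfmem n x (by omega)
        · exact hx
  -- Tarski-Vaught for the assignment `f`
  have htv : ∀ v ψ, Sat N (.ex v ψ) f → ∃ i, Sat N ψ (Function.update f v (f i)) := by
    intro v ψ hs
    have hd : dec (cod (.ex v ψ)) = .ex v ψ := dec_cod _
    have hfvlt : ∀ u ∈ fv (.ex v ψ), u < k + cod (.ex v ψ) := by
      intro u hu
      have := fv_le _ u hu
      omega
    have hag : ∀ u < k + cod (.ex v ψ), asg (F (cod (.ex v ψ))) u = f u := by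
      intro u hu
      rw [hfF _ u hu]
      rfl
    obtain ⟨-, -, h3⟩ := hnx (F (cod (.ex v ψ))) (cod (.ex v ψ)) (hnd _)
    rw [hd] at h3
    obtain ⟨y, hy, hy'⟩ := h3 v ψ rfl (by rw [hlen]; exact hfvlt)
      ((sat_congr N _ (fun u hu => hag u (hfvlt u hu))).mpr hs)
    rw [← hFs] at hy
    obtain ⟨i, -, hi⟩ := hmemf _ _ hy
    refine ⟨i, ?_⟩
    rw [hi]
    refine (sat_congr N ψ ?_).mp hy'
    intro u hu
    by_cases huv : u = v
    · subst huv
      rw [Function.update_self, Function.update_self]
    · rw [Function.update_of_ne huv, Function.update_of_ne huv]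
      apply hag
      apply hfvlt
      simp only [fv]
      exact Finset.mem_erase.mpr ⟨huv, hu⟩
  -- Tarski-Vaught for all assignments
  have htv' : ∀ v ψ (s : ℕ → ℕ), Sat N (.ex v ψ) (f ∘ s) →
      ∃ i, Sat N ψ (Function.update (f ∘ s) v (f i)) := by
    intro v ψ s hs
    obtain ⟨y, hy⟩ := hs
    obtain ⟨v', hv'⟩ : ∃ v', ∀ u < cod ψ + 1, s u ≠ v' := by
      refine ⟨(Finset.range (cod ψ + 1)).sup s + 1, ?_⟩
      intro u hu
      have := Finset.le_sup (f := s) (Finset.mem_range.mpr hu)
      omega
    have hfvψ : ∀ u ∈ fv ψ, u < cod ψ + 1 := fun u hu => Nat.lt_succ_of_le (fv_le ψ u hu)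
    let a : List ℕ := (List.range (cod ψ + 1)).map fun u => if u = v then v' else s u
    have halen : a.length = cod ψ + 1 := by simp [a]
    have hget : ∀ u < cod ψ + 1, a.getD u 0 = if u = v then v' else s u := by
      intro u hu
      rw [List.getD_eq_getElem _ _ (by rw [halen]; exact hu)]
      simp [a]
    have hfva : ∀ u ∈ fv ψ, u < a.length := by
      intro u hu
      rw [halen]
      exact hfvψ u hu
    have hkey : ∀ z, Sat N (tr a ψ) (Function.update f v' z) ↔
        Sat N ψ (Function.update (f ∘ s) v z) := by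
      intro z
      rw [sat_tr N hfva]
      apply sat_congr
      intro u hu
      have hu' := hfvψ u hu
      simp only [hget u hu']
      by_cases huv : u = v
      · subst huv
        rw [if_pos rfl, Function.update_self, Function.update_self]
      · rw [if_neg huv, Function.update_of_ne huv, Function.update_of_ne (hv' u hu')]
        rfl
    obtain ⟨i, hi⟩ := htv v' (tr a ψ) ⟨y, (hkey y).mpr hy⟩
    exact ⟨i, (hkey _).mp hi⟩
  -- the submodel
  let B : Str := ⟨fun i v => N.R i (v.map f)⟩
  have hB : ∀ φ s, Sat B φ s ↔ Sat N φ (f ∘ s) := by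
    intro φ
    induction φ with
    | rel i v =>
      intro s
      simp only [Sat, B, List.map_map]
    | eq i j =>
      intro s
      simp only [Sat, Function.comp]
      exact hfinj.eq_iff.symm
    | neg φ ih =>
      intro s
      simp only [Sat]
      rw [ih]
    | and φ ψ ih1 ih2 =>
      intro s
      simp only [Sat]
      rw [ih1, ih2]
    | ex v φ ih =>
      intro s
      have hcomp : ∀ b, f ∘ Function.update s v b = Function.update (f ∘ s) v (f b) := by
        intro b
        funext u
        by_cases huv : u = v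
        · subst huv
          simp
        · simp [Function.update_of_ne huv]
      constructor
      · rintro ⟨b, hb⟩
        rw [ih, hcomp] at hb
        exact ⟨f b, hb⟩
      · intro h
        obtain ⟨i, hi⟩ := htv' v φ s h
        refine ⟨i, ?_⟩
        rw [ih, hcomp]
        exact hi
  refine ⟨B, f, hfinj, hfk, hB, ?_⟩
  -- atomicity
  intro b
  obtain ⟨n, hn⟩ : ∃ n, ∀ i ∈ b, i < k + n := by
    refine ⟨b.sum + 1, ?_⟩
    intro i hi
    have := List.le_sum_of_mem hi
    omega
  have hr : (List.range k).map f = List.range k := by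
    conv_rhs => rw [← List.map_id (List.range k)]
    apply List.map_congr_left
    intro i hi
    rw [List.mem_range] at hi
    exact hfk i hi
  have h1 : IsolOver N (List.range k) (b.map f) := by
    apply IsolOver.of_subset (hiso n)
    intro x hx
    rw [List.mem_map] at hx
    obtain ⟨i, hi, rfl⟩ := hx
    exact hfmem n i (hn i hi)
  obtain ⟨χ, hχ, hall⟩ := h1
  have htp : ∀ b' : List ℕ, tp B (List.range k ++ b') = tp N (List.range k ++ b'.map f) := by
    intro b'
    rw [tp_map hB, List.map_append, hr]
  refine ⟨χ, ?_, ?_⟩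
  · rw [htp]
    exact hχ
  · intro b' hb' hχ'
    rw [htp] at hχ' ⊢
    rw [htp]
    exact hall _ (by rw [List.length_map, List.length_map, hb']) hχ'

end Pool.Agent.H65.ME
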