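import Pool.Agent.H65.ME.Trans

/-!
# BF: back and forth, renumbering
-/

namespace Pool.Agent.H65.ME

lemma bf_asg_append (l : List ℕ) (x : ℕ) (A : Str) (φ : Fml) (h : ∀ v ∈ fv φ, v < l.length + 1) :
    Sat A φ (Function.update (asg l) l.length x) ↔ Sat A φ (asg (l ++ [x])) := by
  refine sat_congr A φ (fun v hv => ?_)
  have h1 := h v hv
  unfold asg
  by_cases hvl : v = l.length
  · subst hvl
    rw [Function.update_self]
    simp [List.getD_eq_getElem?_getD]
  · rw [Function.update_of_ne hvl]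
    have h2 : v < l.length := by omega
    simp [List.getD_eq_getElem?_getD, List.getElem?_append_left h2]

lemma bf_sat {M N : Str} {l l' : List ℕ} (h : tp M l = tp N l') {φ : Fml}
    (hφ : ∀ v ∈ fv φ, v < l.length) : Sat M φ (asg l) ↔ Sat N φ (asg l') := by
  have hl := tp_length h
  constructor
  · intro h1
    have h2 : φ ∈ tp M l := ⟨hφ, h1⟩
    rw [h] at h2
    exact h2.2
  · intro h1
    have h2 : φ ∈ tp N l' := ⟨by rw [← hl]; exact hφ, h1⟩
    rw [← h] at h2
    exact h2.2

lemma bf_ext {M N : Str} {a u l' : List ℕ} (hM : AtomicOver M a)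
    (h : tp M (a ++ u) = tp N l') (x : ℕ) : ∃ y, tp M (a ++ u ++ [x]) = tp N (l' ++ [y]) := by
  obtain ⟨χ, hχ, hiso⟩ := hM (u ++ [x])
  have hlen := tp_length h
  rw [← List.append_assoc] at hχ hiso
  have hχv : ∀ v ∈ fv χ, v < (a ++ u).length + 1 := by
    intro v hv
    have := hχ.1 v hv
    rw [List.length_append (as := a ++ u)] at this
    simpa using this
  have h1 : Sat M (.ex (a ++ u).length χ) (asg (a ++ u)) := by
    refine ⟨x, ?_⟩
    rw [bf_asg_append _ _ _ _ hχv]
    exact hχ.2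
  have hfv1 : ∀ v ∈ fv (.ex (a ++ u).length χ), v < (a ++ u).length := by
    intro v hv
    have hv' : v ∈ (fv χ).erase (a ++ u).length := hv
    rw [Finset.mem_erase] at hv'
    have := hχv v hv'.2
    omega
  rw [bf_sat h hfv1] at h1
  obtain ⟨y, hy⟩ := h1
  rw [hlen] at hy
  have hχv' : ∀ v ∈ fv χ, v < l'.length + 1 := by rw [← hlen]; exact hχv
  rw [bf_asg_append _ _ _ _ hχv'] at hy
  refine ⟨y, ?_⟩
  have hsub : ∀ φ ∈ tp M (a ++ u ++ [x]), φ ∈ tp N (l' ++ [y]) := by
    intro φ hφ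
    have hφv : ∀ v ∈ fv φ, v < (a ++ u).length + 1 := by
      intro v hv
      have := hφ.1 v hv
      rw [List.length_append (as := a ++ u)] at this
      simpa using this
    have hφv' : ∀ v ∈ fv φ, v < l'.length + 1 := by rw [← hlen]; exact hφv
    refine ⟨fun v hv => by
      have := hφv' v hv
      rw [List.length_append]
      simpa using this, ?_⟩
    -- the formula `¬ ∃ x (χ ∧ ¬ φ)`
    have h2 : Sat M (.neg (.ex (a ++ u).length (.and χ (.neg φ)))) (asg (a ++ u)) := by
      rintro ⟨x', hx'⟩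
      have hx1 : Sat M χ (asg (a ++ u ++ [x'])) := by
        rw [← bf_asg_append _ _ _ _ hχv]
        exact hx'.1
      have hx2 : ¬ Sat M φ (asg (a ++ u ++ [x'])) := by
        rw [← bf_asg_append _ _ _ _ hφv]
        exact hx'.2
      have h3 : tp M (a ++ (u ++ [x'])) = tp M (a ++ u ++ [x]) := by
        refine hiso (u ++ [x']) (by simp) ?_
        rw [← List.append_assoc]
        refine ⟨fun v hv => ?_, hx1⟩
        have := hχv v hv
        rw [List.length_append (as := a ++ u)]
        simpa using this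
      rw [← List.append_assoc] at h3
      rw [← h3] at hφ
      exact hx2 hφ.2
    have hfv2 : ∀ v ∈ fv (.neg (.ex (a ++ u).length (.and χ (.neg φ)))), v < (a ++ u).length := by
      intro v hv
      have hv' : v ∈ (fv χ ∪ fv φ).erase (a ++ u).length := hv
      rw [Finset.mem_erase, Finset.mem_union] at hv'
      rcases hv'.2 with h4 | h4
      · have := hχv v h4; omega
      · have := hφv v h4; omega
    rw [bf_sat h hfv2] at h2
    by_contra hcon
    refine h2 ⟨y, ?_, ?_⟩
    · rw [hlen, bf_asg_append _ _ _ _ hχv']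
      exact hy
    · change ¬ Sat N φ _
      rw [hlen, bf_asg_append _ _ _ _ hφv']
      exact hcon
  apply Set.eq_of_subset_of_subset hsub
  intro φ hφ
  by_contra hcon
  have hfv : ∀ v ∈ fv φ, v < (a ++ u ++ [x]).length := by
    intro v hv
    have := hφ.1 v hv
    rw [List.length_append] at this ⊢
    rw [hlen]
    simpa using this
  have h3 : φ.neg ∈ tp M (a ++ u ++ [x]) := (neg_mem_tp hfv).mpr hcon
  have h4 := hsub _ h3
  exact h4.2 hφ.2

/-- A pair of tuples extending `a` with the same type. -/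
def BfRel (M N : Str) (a : List ℕ) (p : List ℕ × List ℕ) : Prop :=
  (∃ u, p.1 = a ++ u) ∧ (∃ v, p.2 = a ++ v) ∧ tp M p.1 = tp N p.2

lemma bf_step {M N : Str} {a : List ℕ} (hM : AtomicOver M a) (hN : AtomicOver N a)
    (p : {p : List ℕ × List ℕ // BfRel M N a p}) (n : ℕ) :
    ∃ p' : {p : List ℕ × List ℕ // BfRel M N a p}, p.1.1 <+: p'.1.1 ∧ p.1.2 <+: p'.1.2 ∧
      n ∈ p'.1.1 ∧ n ∈ p'.1.2 := by
  obtain ⟨⟨l, l'⟩, ⟨u, hu⟩, ⟨v, hv⟩, ht⟩ := p
  simp only at hu hv ht
  subst hu hv
  obtain ⟨y, hy⟩ := bf_ext hM ht n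
  have hy2 : tp N (a ++ (v ++ [y])) = tp M (a ++ u ++ [n]) := by
    rw [← List.append_assoc]; exact hy.symm
  obtain ⟨x, hx⟩ := bf_ext hN hy2 n
  refine ⟨⟨(a ++ u ++ [n] ++ [x], a ++ (v ++ [y]) ++ [n]), ⟨u ++ [n] ++ [x], by simp⟩,
    ⟨v ++ [y] ++ [n], by simp⟩, hx.symm⟩, ?_, ?_, ?_, ?_⟩
  · exact ⟨[n] ++ [x], by simp⟩
  · exact ⟨[y] ++ [n], by simp⟩
  · simp
  · simp

lemma bf_getD_prefix {l l' : List ℕ} (h : l <+: l') {i : ℕ} (hi : i < l.length) :
    l'.getD i 0 = l.getD i 0 := by
  obtain ⟨t, rfl⟩ := h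
  simp [List.getD_eq_getElem?_getD, List.getElem?_append_left hi]

/-- Back and forth: build lists `a_n`, `b_n` of the same length with
`tp M (range k ++ a_n) = tp N (range k ++ b_n)`, alternately adding the number `n` to `a` and
to `b` (an isolating formula of `tp M (range k ++ a_n ++ [x])` over `range k` is satisfied in
`N` by `b_n` extended by some element, by `tp M (range k ++ a_n) = tp N (range k ++ b_n)`;
the tuple obtained realises the same type by isolation, use `hN` / `hM`). -/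
theorem back_forth {M N : Str} {k : ℕ} (hM : AtomicOver M (List.range k))
    (hN : AtomicOver N (List.range k)) (h : tp M (List.range k) = tp N (List.range k)) :
    IsoStr M N := by
  classical
  set a := List.range k with ha
  set f : ℕ → {p : List ℕ × List ℕ // BfRel M N a p} := fun n => Nat.rec
    ⟨(a, a), ⟨[], by simp⟩, ⟨[], by simp⟩, h⟩ (fun n p => Classical.choose (bf_step hM hN p n)) n
    with hf
  have hstep : ∀ n, (f n).1.1 <+: (f (n + 1)).1.1 ∧ (f n).1.2 <+: (f (n + 1)).1.2 ∧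
      n ∈ (f (n + 1)).1.1 ∧ n ∈ (f (n + 1)).1.2 := fun n =>
    Classical.choose_spec (bf_step hM hN (f n) n)
  have hpre : ∀ m n, m ≤ n → (f m).1.1 <+: (f n).1.1 ∧ (f m).1.2 <+: (f n).1.2 := by
    intro m n hmn
    induction n, hmn using Nat.le_induction with
    | base => exact ⟨List.prefix_rfl, List.prefix_rfl⟩
    | succ n _ ih =>
      exact ⟨ih.1.trans (hstep n).1, ih.2.trans (hstep n).2.1⟩
  have hlen : ∀ n, (f n).1.1.length = (f n).1.2.length := fun n => tp_length (f n).2.2.2
  -- the relation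
  set r : ℕ → ℕ → Prop := fun x y => ∃ n i, i < (f n).1.1.length ∧ (f n).1.1.getD i 0 = x ∧
    (f n).1.2.getD i 0 = y with hr
  have hkey : ∀ n i j, i < (f n).1.1.length → j < (f n).1.1.length →
      ((f n).1.1.getD i 0 = (f n).1.1.getD j 0 ↔ (f n).1.2.getD i 0 = (f n).1.2.getD j 0) := by
    intro n i j hi hj
    have := bf_sat (f n).2.2.2 (φ := .eq i j) (by
      intro v hv
      have hv' : v ∈ ({i, j} : Finset ℕ) := hv
      rw [Finset.mem_insert, Finset.mem_singleton] at hv'
      rcases hv' with rfl | rfl <;> assumption)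
    exact this
  have hmono : ∀ x y, r x y → ∃ n0, ∀ n, n0 ≤ n → ∃ i, i < (f n).1.1.length ∧
      (f n).1.1.getD i 0 = x ∧ (f n).1.2.getD i 0 = y := by
    rintro x y ⟨n0, i, hi, h1, h2⟩
    refine ⟨n0, fun n hn => ⟨i, ?_, ?_, ?_⟩⟩
    · exact hi.trans_le (hpre n0 n hn).1.length_le
    · rw [bf_getD_prefix (hpre n0 n hn).1 hi, h1]
    · rw [bf_getD_prefix (hpre n0 n hn).2 (by rw [← hlen]; exact hi), h2]
  have huniq : ∀ x y x' y', r x y → r x' y' → (x = x' ↔ y = y') := by
    intro x y x' y' hxy hxy'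
    obtain ⟨n0, h0⟩ := hmono x y hxy
    obtain ⟨n1, h1⟩ := hmono x' y' hxy'
    obtain ⟨i, hi, hi1, hi2⟩ := h0 (max n0 n1) (le_max_left _ _)
    obtain ⟨j, hj, hj1, hj2⟩ := h1 (max n0 n1) (le_max_right _ _)
    rw [← hi1, ← hi2, ← hj1, ← hj2]
    exact hkey _ i j hi hj
  have htot : ∀ x, ∃ y, r x y := by
    intro x
    obtain ⟨i, hi, hi2⟩ := List.getElem_of_mem (hstep x).2.2.1
    exact ⟨_, x + 1, i, hi, by rw [List.getD_eq_getElem _ _ hi]; exact hi2, rfl⟩
  have hsurj : ∀ y, ∃ x, r x y := by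
    intro y
    obtain ⟨i, hi, hi2⟩ := List.getElem_of_mem (hstep y).2.2.2
    have hi' : i < (f (y + 1)).1.1.length := by
      rw [hlen (y + 1)]; exact hi
    exact ⟨_, y + 1, i, hi', rfl, by rw [List.getD_eq_getElem _ _ hi]; exact hi2⟩
  choose g hg using htot
  have hbij : Function.Bijective g := by
    constructor
    · intro x x' hxx
      exact (huniq _ _ _ _ (hg x) (hg x')).mpr hxx
    · intro y
      obtain ⟨x, hx⟩ := hsurj y
      exact ⟨x, (huniq _ _ _ _ (hg x) hx).mp rfl⟩
  refine ⟨Equiv.ofBijective g hbij, fun i v => ?_⟩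
  -- all elements of `v` occur at a common stage
  have hcommon : ∃ n, ∀ x ∈ v, ∃ j, j < (f n).1.1.length ∧ (f n).1.1.getD j 0 = x ∧
      (f n).1.2.getD j 0 = g x := by
    induction v with
    | nil => exact ⟨0, by simp⟩
    | cons x v ih =>
      obtain ⟨n, hn⟩ := ih
      obtain ⟨n0, h0⟩ := hmono x (g x) (hg x)
      refine ⟨max n n0, fun z hz => ?_⟩
      rw [List.mem_cons] at hz
      rcases hz with rfl | hz
      · exact h0 _ (le_max_right _ _)
      · obtain ⟨j, hj, hj1, hj2⟩ := hn z hz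
        exact ⟨j, hj.trans_le (hpre n _ (le_max_left _ _)).1.length_le,
          by rw [bf_getD_prefix (hpre n _ (le_max_left _ _)).1 hj, hj1],
          by rw [bf_getD_prefix (hpre n _ (le_max_left _ _)).2 (by rw [← hlen]; exact hj), hj2]⟩
  obtain ⟨n, hn⟩ := hcommon
  choose! pos hpos using hn
  have h1 := bf_sat (f n).2.2.2 (φ := .rel i (v.map pos)) (by
    intro w hw
    have hw' : w ∈ (v.map pos).toFinset := hw
    rw [List.mem_toFinset, List.mem_map] at hw'
    obtain ⟨x, hx, rfl⟩ := hw'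
    exact (hpos x hx).1)
  have h2 : Sat M (.rel i (v.map pos)) (asg (f n).1.1) ↔ M.R i v := by
    change M.R i ((v.map pos).map (asg (f n).1.1)) ↔ _
    have : (v.map pos).map (asg (f n).1.1) = v := by
      rw [List.map_map]
      conv_rhs => rw [← List.map_id v]
      refine List.map_congr_left (fun x hx => ?_)
      exact (hpos x hx).2.1
    rw [this]
  have h3 : Sat N (.rel i (v.map pos)) (asg (f n).1.2) ↔ N.R i (v.map g) := by
    change N.R i ((v.map pos).map (asg (f n).1.2)) ↔ _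
    have : (v.map pos).map (asg (f n).1.2) = v.map g := by
      rw [List.map_map]
      refine List.map_congr_left (fun x hx => ?_)
      exact (hpos x hx).2.2
    rw [this]
  rw [h2, h3] at h1
  exact h1

/-- There is a permutation of `ℕ` mapping the elements of `0 :: a` (without repetitions) to
`0, ..., k - 1`. -/
theorem renumber {M : Str} {a : List ℕ} (h : AtomicOver M a) :
    ∃ (M' : Str) (k : ℕ), 1 ≤ k ∧ IsoStr M M' ∧ AtomicOver M' (List.range k) := by
  classical
  set S : Finset ℕ := (a ++ [0]).toFinset with hS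
  set k := S.card with hk
  set Q : Finset ℕ := Finset.range k with hQ
  have hcard : S.card = Q.card := by rw [hQ, Finset.card_range]
  haveI : Infinite ↥((S : Set ℕ)ᶜ) := S.finite_toSet.infinite_compl.to_subtype
  haveI : Infinite ↥((Q : Set ℕ)ᶜ) := Q.finite_toSet.infinite_compl.to_subtype
  have e1 : ↥(S : Set ℕ) ≃ ↥(Q : Set ℕ) := Finset.equivOfCardEq hcard
  have e2 : ↥((S : Set ℕ)ᶜ) ≃ ↥((Q : Set ℕ)ᶜ) := by
    haveI : Denumerable ↥((S : Set ℕ)ᶜ) := Nat.Subtype.denumerable _
    haveI : Denumerable ↥((Q : Set ℕ)ᶜ) := Nat.Subtype.denumerable _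
    exact (Denumerable.eqv _).trans (Denumerable.eqv _).symm
  set e : ℕ ≃ ℕ := (Equiv.Set.sumCompl (S : Set ℕ)).symm.trans
    ((Equiv.sumCongr e1 e2).trans (Equiv.Set.sumCompl (Q : Set ℕ))) with he
  have heS : ∀ x, x ∈ S → e x ∈ Q := by
    intro x hx
    rw [he]
    simp only [Equiv.trans_apply]
    rw [Equiv.Set.sumCompl_symm_apply_of_mem (s := (S : Set ℕ)) (by exact_mod_cast hx)]
    simp only [Equiv.sumCongr_apply, Sum.map_inl, Equiv.Set.sumCompl_apply_inl]
    exact_mod_cast (e1 ⟨x, _⟩).2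
  have himg : S.image e = Q := by
    refine Finset.eq_of_subset_of_card_le ?_ ?_
    · intro y hy
      rw [Finset.mem_image] at hy
      obtain ⟨x, hx, rfl⟩ := hy
      exact heS x hx
    · rw [Finset.card_image_of_injective _ e.injective, hcard]
  set M' : Str := ⟨fun i v => M.R i (v.map e.symm)⟩ with hM'
  have hiso : ∀ i v, M.R i v ↔ M'.R i (v.map e) := by
    intro i v
    rw [hM']
    simp only [List.map_map]
    have : v.map (e.symm ∘ e) = v := by
      conv_rhs => rw [← List.map_id v]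
      exact List.map_congr_left (fun x _ => by simp)
    rw [this]
  refine ⟨M', k, ?_, ⟨e, hiso⟩, ?_⟩
  · rw [hk, Nat.one_le_iff_ne_zero, Finset.card_ne_zero]
    exact ⟨0, by simp [hS]⟩
  · have h1 : AtomicOver M (a ++ [0]) := h.append [0]
    have h2 : AtomicOver M' ((a ++ [0]).map e) := AtomicOver.iso e hiso h1
    refine h2.congr (fun x => ?_)
    have h3 : x ∈ (a ++ [0]).map e ↔ x ∈ S.image e := by
      rw [Finset.mem_image, List.mem_map]
      simp only [hS, List.mem_toFinset]
    rw [h3, himg, hQ, Finset.mem_range, List.mem_range]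

end Pool.Agent.H65.ME
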