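import Pool.Agent.H65.ME.Prim

/-!
# CHK: admissibility is decidable with finitely many questions to the types
-/

namespace Pool.Agent.H65.ME

open Encodable

/-- The answers to the questions given by a list. -/
def chk_Q (L : List ℕ) (j : ℕ) (φ : Fml) : Prop := L.getD (Nat.pair j (cod φ)) 0 = 1

theorem chk_prim_Q {α : Type*} [Primcodable α] {f : α → List ℕ} {g : α → ℕ} {h : α → Fml}
    (hf : Primrec f) (hg : Primrec g) (hh : Primrec h) :
    PrimrecPred fun a => chk_Q (f a) (g a) (h a) :=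
  Primrec.eq.comp ((Primrec.list_getD 0).comp hf (Primrec₂.natPair.comp hg (prim_cod.comp hh)))
    (Primrec.const 1)

theorem chk_imp {α : Type*} [Primcodable α] {p q : α → Prop} (hp : PrimrecPred p)
    (hq : PrimrecPred q) : PrimrecPred fun a => p a → q a :=
  (hp.not.or hq).of_eq fun a => by
    by_cases h : p a <;> simp [h]

theorem chk_forall {α : Type*} [Primcodable α] {R : ℕ → α → Prop} (hR : PrimrecRel R)
    {n : α → ℕ} (hn : Primrec n) : PrimrecPred fun a => ∀ i < n a, R i a :=
  ((PrimrecRel.forall_mem_list hR).comp (Primrec.list_range.comp hn) Primrec.id).of_eq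
    fun a => by simp

/-- The formula `exO (c ++ d) θ ∧ ¬ exO (c ++ d) θ'`. -/
def chk_F (k : ℕ) (θ θ' : Fml) (i : ℕ) : Fml :=
  .and (exO (List.range k ++ dl i) θ) (.neg (exO (List.range k ++ dl i) θ'))

theorem chk_prim_F (k : ℕ) {α : Type*} [Primcodable α] {f g : α → Fml} {h : α → ℕ}
    (hf : Primrec f) (hg : Primrec g) (hh : Primrec h) :
    Primrec fun a => chk_F k (f a) (g a) (h a) := by
  have hS : Primrec fun a => List.range k ++ dl (h a) :=
    Primrec.list_append.comp (Primrec.const (List.range k)) (prim_dl.comp hh)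
  exact prim_and.comp (prim_exO.comp hS hf) (prim_neg.comp (prim_exO.comp hS hg))

/-- The three questions about the requirement `i`. -/
def chk_A (k : ℕ) (st : St) (u i : ℕ) : Fml :=
  .neg (exO (List.range k) (chk_F k st.1 (newθ k st u) i))
def chk_B (k : ℕ) (st : St) (u i : ℕ) : Fml := pull (dl i) (newθ k st u)
def chk_C (k : ℕ) (st : St) (u i : ℕ) : Fml := pull (dl i) (chk_F k st.1 (newθ k st u) i)

theorem chk_prim_A (k : ℕ) {α : Type*} [Primcodable α] {f : α → St} {g h : α → ℕ}
    (hf : Primrec f) (hg : Primrec g) (hh : Primrec h) :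
    Primrec fun a => chk_A k (f a) (g a) (h a) := by
  have h1 : Primrec fun a => newθ k (f a) (g a) := (prim_newθ k).comp hf hg
  exact prim_neg.comp (prim_exO.comp (Primrec.const (List.range k))
    (chk_prim_F k (Primrec.fst.comp hf) h1 hh))

theorem chk_prim_B (k : ℕ) {α : Type*} [Primcodable α] {f : α → St} {g h : α → ℕ}
    (hf : Primrec f) (hg : Primrec g) (hh : Primrec h) :
    Primrec fun a => chk_B k (f a) (g a) (h a) := by
  have h1 : Primrec fun a => newθ k (f a) (g a) := (prim_newθ k).comp hf hg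
  exact prim_pull.comp (prim_dl.comp hh) h1

theorem chk_prim_C (k : ℕ) {α : Type*} [Primcodable α] {f : α → St} {g h : α → ℕ}
    (hf : Primrec f) (hg : Primrec g) (hh : Primrec h) :
    Primrec fun a => chk_C k (f a) (g a) (h a) := by
  have h1 : Primrec fun a => newθ k (f a) (g a) := (prim_newθ k).comp hf hg
  exact prim_pull.comp (prim_dl.comp hh) (chk_prim_F k (Primrec.fst.comp hf) h1 hh)

theorem chk_prot (Q : ℕ → Fml → Prop) (k : ℕ) (st : St) (u i : ℕ) :
    prot Q k st.1 (newθ k st u) i ↔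
      Q 0 (chk_A k st u i) ∨
        (Q (i.unpair.1 + 1) (chk_B k st u i) ∧ Q (i.unpair.1 + 1) (chk_C k st u i)) :=
  Iff.rfl

theorem chk_prim_valid (k l J : ℕ) :
    PrimrecPred fun p : (St × ℕ) × List ℕ => Valid (chk_Q p.2) k l J p.1.1 p.1.2 := by
  have hst : Primrec fun p : (St × ℕ) × List ℕ => p.1.1 := Primrec.fst.comp Primrec.fst
  have hu : Primrec fun p : (St × ℕ) × List ℕ => p.1.2 := Primrec.snd.comp Primrec.fst
  have hL : Primrec fun p : (St × ℕ) × List ℕ => p.2 := Primrec.snd
  have hK : Primrec fun p : (St × ℕ) × List ℕ => p.1.1.2.1 :=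
    Primrec.fst.comp (Primrec.snd.comp hst)
  have hn : Primrec fun p : (St × ℕ) × List ℕ => p.1.1.2.2 :=
    Primrec.snd.comp (Primrec.snd.comp hst)
  have hu2 : Primrec fun p : (St × ℕ) × List ℕ => p.1.2 / 2 :=
    Primrec.nat_div.comp hu (Primrec.const 2)
  have hum : Primrec fun p : (St × ℕ) × List ℕ => p.1.2 % 2 :=
    Primrec.nat_mod.comp hu (Primrec.const 2)
  have hi : Primrec fun p : (St × ℕ) × List ℕ => (p.1.2 / 2).unpair.1 :=
    Primrec.fst.comp (Primrec.unpair.comp hu2)
  have hc : Primrec fun p : (St × ℕ) × List ℕ => (p.1.2 / 2).unpair.2 :=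
    Primrec.snd.comp (Primrec.unpair.comp hu2)
  have hj : Primrec fun p : (St × ℕ) × List ℕ => (p.1.2 / 2).unpair.1.unpair.1 + 1 :=
    Primrec.succ.comp (Primrec.fst.comp (Primrec.unpair.comp hi))
  have hnew : Primrec fun p : (St × ℕ) × List ℕ => newθ k p.1.1 p.1.2 :=
    (prim_newθ k).comp hst hu
  have hpl : Primrec fun p : (St × ℕ) × List ℕ => plev p.1.1 p.1.2 := prim_plev.comp hst hu
  -- first part
  have P1 : PrimrecPred fun p : (St × ℕ) × List ℕ =>
      (p.1.2 % 2 = 0 → p.1.2 / 2 ≤ k + p.1.1.2.2 + 1) :=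
    chk_imp (Primrec.eq.comp hum (Primrec.const 0))
      (Primrec.nat_le.comp hu2 (Primrec.succ.comp (Primrec.nat_add.comp (Primrec.const k) hn)))
  -- second part
  have P2 : PrimrecPred fun p : (St × ℕ) × List ℕ =>
      (p.1.2 % 2 = 1 → (p.1.2 / 2).unpair.1 < p.1.1.2.2 ∧ act l J (p.1.2 / 2).unpair.1 ∧
        (p.1.2 / 2).unpair.1 ∉ p.1.1.2.1 ∧
        chk_Q p.2 ((p.1.2 / 2).unpair.1.unpair.1 + 1) (dec (p.1.2 / 2).unpair.2)) :=
    chk_imp (Primrec.eq.comp hum (Primrec.const 1))
      ((Primrec.nat_lt.comp hi hn).and (((prim_act l J).comp hi).and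
        ((prim_notMem.comp hi hK).and (chk_prim_Q hL hj (prim_dec.comp hc)))))
  -- third part
  have P3 : PrimrecPred fun p : (St × ℕ) × List ℕ =>
      chk_Q p.2 0 (exO (List.range k) (newθ k p.1.1 p.1.2)) :=
    chk_prim_Q hL (Primrec.const 0) (prim_exO.comp (Primrec.const (List.range k)) hnew)
  -- fourth part
  have hR : PrimrecRel fun (i : ℕ) (p : (St × ℕ) × List ℕ) =>
      (act l J i → i ∉ p.1.1.2.1 → prot (chk_Q p.2) k p.1.1.1 (newθ k p.1.1 p.1.2) i) := by
    have a1 : Primrec fun q : ℕ × ((St × ℕ) × List ℕ) => q.1 := Primrec.fst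
    have a2 : Primrec fun q : ℕ × ((St × ℕ) × List ℕ) => q.2.1.1 := hst.comp Primrec.snd
    have a3 : Primrec fun q : ℕ × ((St × ℕ) × List ℕ) => q.2.1.2 := hu.comp Primrec.snd
    have a4 : Primrec fun q : ℕ × ((St × ℕ) × List ℕ) => q.2.2 := hL.comp Primrec.snd
    have a5 : Primrec fun q : ℕ × ((St × ℕ) × List ℕ) => q.2.1.1.2.1 := hK.comp Primrec.snd
    have a6 : Primrec fun q : ℕ × ((St × ℕ) × List ℕ) => q.1.unpair.1 + 1 :=
      Primrec.succ.comp (Primrec.fst.comp (Primrec.unpair.comp a1))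
    have h : PrimrecPred fun q : ℕ × ((St × ℕ) × List ℕ) =>
        (act l J q.1 → q.1 ∉ q.2.1.1.2.1 →
          (chk_Q q.2.2 0 (chk_A k q.2.1.1 q.2.1.2 q.1) ∨
            (chk_Q q.2.2 (q.1.unpair.1 + 1) (chk_B k q.2.1.1 q.2.1.2 q.1) ∧
              chk_Q q.2.2 (q.1.unpair.1 + 1) (chk_C k q.2.1.1 q.2.1.2 q.1)))) :=
      chk_imp ((prim_act l J).comp a1) (chk_imp (prim_notMem.comp a1 a5)
        ((chk_prim_Q a4 (Primrec.const 0) (chk_prim_A k a2 a3 a1)).or
          ((chk_prim_Q a4 a6 (chk_prim_B k a2 a3 a1)).and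
            (chk_prim_Q a4 a6 (chk_prim_C k a2 a3 a1)))))
    exact h
  have P4 : PrimrecPred fun p : (St × ℕ) × List ℕ =>
      (∀ i < plev p.1.1 p.1.2, act l J i → i ∉ p.1.1.2.1 →
        prot (chk_Q p.2) k p.1.1.1 (newθ k p.1.1 p.1.2) i) := chk_forall hR hpl
  exact P1.and (P2.and (P3.and P4))

/-- A bound for the questions about the requirement `i`. -/
def chk_s (k : ℕ) (st : St) (u i : ℕ) : ℕ :=
  Nat.pair 0 (cod (chk_A k st u i)) + Nat.pair (i.unpair.1 + 1) (cod (chk_B k st u i)) +
    Nat.pair (i.unpair.1 + 1) (cod (chk_C k st u i))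

/-- A bound for all questions. -/
def chk_b (k : ℕ) (p : St × ℕ) : ℕ :=
  1 + Nat.pair 0 (cod (exO (List.range k) (newθ k p.1 p.2))) +
    Nat.pair ((p.2 / 2).unpair.1.unpair.1 + 1) (cod (dec (p.2 / 2).unpair.2)) +
    ((List.range (plev p.1 p.2)).map (fun i => chk_s k p.1 p.2 i)).sum

theorem chk_prim_b (k : ℕ) : Primrec (chk_b k) := by
  have hst : Primrec fun p : St × ℕ => p.1 := Primrec.fst
  have hu : Primrec fun p : St × ℕ => p.2 := Primrec.snd
  have hu2 : Primrec fun p : St × ℕ => p.2 / 2 :=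
    Primrec.nat_div.comp hu (Primrec.const 2)
  have hi : Primrec fun p : St × ℕ => (p.2 / 2).unpair.1 :=
    Primrec.fst.comp (Primrec.unpair.comp hu2)
  have hc : Primrec fun p : St × ℕ => (p.2 / 2).unpair.2 :=
    Primrec.snd.comp (Primrec.unpair.comp hu2)
  have hj : Primrec fun p : St × ℕ => (p.2 / 2).unpair.1.unpair.1 + 1 :=
    Primrec.succ.comp (Primrec.fst.comp (Primrec.unpair.comp hi))
  have hnew : Primrec fun p : St × ℕ => newθ k p.1 p.2 := prim_newθ k
  have hpl : Primrec fun p : St × ℕ => plev p.1 p.2 := prim_plev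
  have b1 : Primrec fun q : (St × ℕ) × ℕ => q.1.1 := Primrec.fst.comp Primrec.fst
  have b2 : Primrec fun q : (St × ℕ) × ℕ => q.1.2 := Primrec.snd.comp Primrec.fst
  have b3 : Primrec fun q : (St × ℕ) × ℕ => q.2 := Primrec.snd
  have b4 : Primrec fun q : (St × ℕ) × ℕ => q.2.unpair.1 + 1 :=
    Primrec.succ.comp (Primrec.fst.comp (Primrec.unpair.comp b3))
  have hs : Primrec₂ fun (p : St × ℕ) (i : ℕ) => chk_s k p.1 p.2 i := by
    have h : Primrec fun q : (St × ℕ) × ℕ => chk_s k q.1.1 q.1.2 q.2 :=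
      Primrec.nat_add.comp (Primrec.nat_add.comp
        (Primrec₂.natPair.comp (Primrec.const 0) (prim_cod.comp (chk_prim_A k b1 b2 b3)))
        (Primrec₂.natPair.comp b4 (prim_cod.comp (chk_prim_B k b1 b2 b3))))
        (Primrec₂.natPair.comp b4 (prim_cod.comp (chk_prim_C k b1 b2 b3)))
    exact Primrec₂.mk h
  exact Primrec.nat_add.comp (Primrec.nat_add.comp (Primrec.nat_add.comp (Primrec.const 1)
    (Primrec₂.natPair.comp (Primrec.const 0)
      (prim_cod.comp (prim_exO.comp (Primrec.const (List.range k)) hnew))))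
    (Primrec₂.natPair.comp hj (prim_cod.comp (prim_dec.comp hc))))
    (prim_sum.comp (prim_mapN hpl hs))

theorem chk_congr {Q Q' : ℕ → Fml → Prop} {k l J : ℕ} {st : St} {u : ℕ}
    (h : ∀ j φ, Nat.pair j (cod φ) < chk_b k (st, u) → (Q j φ ↔ Q' j φ)) :
    Valid Q k l J st u ↔ Valid Q' k l J st u := by
  have hs : ∀ i < plev st u, chk_s k st u i ≤
      ((List.range (plev st u)).map (fun i => chk_s k st u i)).sum := by
    intro i hi
    exact List.single_le_sum (fun _ _ => Nat.zero_le _) _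
      (List.mem_map.2 ⟨i, List.mem_range.2 hi, rfl⟩)
  have h0 : Q 0 (exO (List.range k) (newθ k st u)) ↔
      Q' 0 (exO (List.range k) (newθ k st u)) := by
    apply h
    simp only [chk_b]
    omega
  have h1 : Q ((u / 2).unpair.1.unpair.1 + 1) (dec (u / 2).unpair.2) ↔
      Q' ((u / 2).unpair.1.unpair.1 + 1) (dec (u / 2).unpair.2) := by
    apply h
    simp only [chk_b]
    omega
  have hA : ∀ i < plev st u, (Q 0 (chk_A k st u i) ↔ Q' 0 (chk_A k st u i)) := by
    intro i hi
    apply h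
    have := hs i hi
    have e : chk_s k st u i = Nat.pair 0 (cod (chk_A k st u i)) +
      Nat.pair (i.unpair.1 + 1) (cod (chk_B k st u i)) +
      Nat.pair (i.unpair.1 + 1) (cod (chk_C k st u i)) := rfl
    simp only [chk_b]
    omega
  have hB : ∀ i < plev st u, (Q (i.unpair.1 + 1) (chk_B k st u i) ↔
      Q' (i.unpair.1 + 1) (chk_B k st u i)) := by
    intro i hi
    apply h
    have := hs i hi
    have e : chk_s k st u i = Nat.pair 0 (cod (chk_A k st u i)) +
      Nat.pair (i.unpair.1 + 1) (cod (chk_B k st u i)) +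
      Nat.pair (i.unpair.1 + 1) (cod (chk_C k st u i)) := rfl
    simp only [chk_b]
    omega
  have hC : ∀ i < plev st u, (Q (i.unpair.1 + 1) (chk_C k st u i) ↔
      Q' (i.unpair.1 + 1) (chk_C k st u i)) := by
    intro i hi
    apply h
    have := hs i hi
    have e : chk_s k st u i = Nat.pair 0 (cod (chk_A k st u i)) +
      Nat.pair (i.unpair.1 + 1) (cod (chk_B k st u i)) +
      Nat.pair (i.unpair.1 + 1) (cod (chk_C k st u i)) := rfl
    simp only [chk_b]
    omega
  unfold Valid
  refine and_congr Iff.rfl (and_congr ?_ (and_congr h0 ?_))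
  · rw [h1]
  · refine forall_congr' fun i => forall_congr' fun hi => forall_congr' fun _ =>
      forall_congr' fun _ => ?_
    rw [chk_prot, chk_prot, hA i hi, hB i hi, hC i hi]

open Classical in
/-- `B` evaluates `Valid` with `Q j φ` replaced by `L.getD (pair j (cod φ)) 0 = 1`; `b` bounds all
the questions: `b z = 1 +` the sum of `pair j (cod φ)` over the finitely many pairs `(j, φ)` such
that `Q j φ` occurs in `Valid Q k l J st u` (for the last part: a sum over the list
`List.range (plev st u)`). Use `PrimrecPred.and`, `PrimrecPred.not`, `PrimrecRel.forall_lt`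
(or `forall_mem_list`) and the theorems of `Prim.lean`. -/
theorem valid_test (k l J : ℕ) :
    ∃ (B : ℕ → List ℕ → ℕ) (b : ℕ → ℕ), Primrec₂ B ∧ Primrec b ∧
      ∀ (Q : ℕ → Fml → Prop) (st : St) (u : ℕ),
        B (Nat.pair (encode st) u)
          ((List.range (b (Nat.pair (encode st) u))).map
            fun y => if Q y.unpair.1 (dec y.unpair.2) then 1 else 0) =
          if Valid Q k l J st u then 0 else 1 := by
  have hdec : Primrec fun z : ℕ => ((decode z : Option (St × ℕ))).getD (st0, 0) :=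
    Primrec.option_getD.comp Primrec.decode (Primrec.const (st0, 0))
  have hD : ∀ (st : St) (u : ℕ),
      ((decode (Nat.pair (encode st) u) : Option (St × ℕ))).getD (st0, 0) = (st, u) := by
    intro st u
    have h1 : (decode (encode ((st, u) : St × ℕ)) : Option (St × ℕ)) = some (st, u) :=
      encodek _
    have h2 : encode ((st, u) : St × ℕ) = Nat.pair (encode st) u := rfl
    rw [← h2, h1]
    rfl
  refine ⟨fun z L => if Valid (chk_Q L) k l J
      (((decode z : Option (St × ℕ))).getD (st0, 0)).1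
      (((decode z : Option (St × ℕ))).getD (st0, 0)).2 then 0 else 1,
    fun z => chk_b k (((decode z : Option (St × ℕ))).getD (st0, 0)), ?_, ?_, ?_⟩
  · apply Primrec₂.mk
    refine Primrec.ite ?_ (Primrec.const 0) (Primrec.const 1)
    exact (chk_prim_valid k l J).comp
      (Primrec.pair (hdec.comp Primrec.fst) (Primrec.snd (α := ℕ) (β := List ℕ)))
  · exact (chk_prim_b k).comp hdec
  · intro Q st u
    simp only [hD]
    have hiff : Valid (chk_Q ((List.range (chk_b k (st, u))).map
        fun y => if Q y.unpair.1 (dec y.unpair.2) then 1 else 0)) k l J st u ↔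
        Valid Q k l J st u := by
      apply chk_congr
      intro j φ hlt
      unfold chk_Q
      rw [List.getD_eq_getElem _ _ (by simpa using hlt)]
      simp only [List.getElem_map, List.getElem_range, Nat.unpair_pair, dec_cod]
      by_cases hq : Q j φ <;> simp [hq]
    by_cases hv : Valid Q k l J st u
    · rw [if_pos hv, if_pos (hiff.2 hv)]
    · rw [if_neg hv, if_neg (fun h => hv (hiff.1 h))]

end Pool.Agent.H65.ME
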