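import Pool.Agent.H65.ME.Hen

/-!
# CMP: existence of decision steps, compactness
-/

namespace Pool.Agent.H65.ME

/-- There is a value different from `r 0, ..., r (m-1)`. -/
theorem cmp_fresh (r : ℕ → ℕ) (m : ℕ) : ∃ a : ℕ, ∀ i < m, a ≠ r i := by
  refine ⟨(Finset.range m).sup r + 1, fun i hi h => ?_⟩
  have h1 : r i ≤ (Finset.range m).sup r := Finset.le_sup (f := r) (Finset.mem_range.2 hi)
  omega

/-- Give the variable `m` a new value: formulas in the variables below `m` do not change. -/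
theorem cmp_upd (A : Str) {m : ℕ} {φ : Fml} {r : ℕ → ℕ} (a : ℕ)
    (hφ : ∀ v ∈ fv φ, v < m) : Sat A φ (Function.update r m a) ↔ Sat A φ r := by
  refine sat_congr A φ fun v hv => ?_
  have hne : v ≠ m := (hφ v hv).ne
  simp [Function.update_of_ne hne]

theorem cmp_upd_ne {m : ℕ} {r : ℕ → ℕ} {a : ℕ} (ha : ∀ i < m, a ≠ r i) :
    ∀ i < m, Function.update r m a m ≠ Function.update r m a i := by
  intro i hi
  rw [Function.update_self, Function.update_of_ne hi.ne]
  exact ha i hi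

/-- A positive decision step with any new value for the variable `m`, for a formula whose
witness formula is true. -/
theorem cmp_pos (A : Str) {m : ℕ} {φ θ : Fml} {r : ℕ → ℕ}
    (hφ : ∀ v ∈ fv φ, v < m) (hθ : ∀ v ∈ fv θ, v < m) (hs : Sat A θ r) (hp : Sat A φ r)
    (i : ℕ) (a : ℕ) (ha : ∀ j < m, a ≠ r j)
    (hw : Sat A (wit φ i) (Function.update r m a)) :
    ∃ r' : ℕ → ℕ, (∀ i < m, r' i = r i) ∧ Sat A (stepA m φ (i + 1) θ) r' := by
  refine ⟨Function.update r m a, fun j hj => Function.update_of_ne hj.ne _ _, ?_⟩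
  rw [sat_stepA_succ]
  exact ⟨cmp_upd_ne ha, (cmp_upd A a hθ).2 hs, (cmp_upd A a hφ).2 hp, hw⟩

/-- If `¬ φ` holds at `r`, take `w = 0` and any new value for the variable `m`. If `φ` holds and
is not existential take `w = 1`. If `φ = ex v ψ` take a witness `a`: if `a = r i` for some `i < m`
take `w = i + 1`, otherwise give `m` the value `a` and take `w = m + 1`. -/
theorem stepA_ex (A : Str) {m : ℕ} {φ θ : Fml} {r : ℕ → ℕ} (hm : 1 ≤ m)
    (hφ : ∀ v ∈ fv φ, v < m) (hθ : ∀ v ∈ fv θ, v < m) (hs : Sat A θ r) :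
    ∃ w ≤ m + 1, ∃ r' : ℕ → ℕ, (∀ i < m, r' i = r i) ∧ Sat A (stepA m φ w θ) r' := by
  obtain ⟨b, hb⟩ := cmp_fresh r m
  by_cases hp : Sat A φ r
  · cases φ with
    | rel i v => exact ⟨1, by omega, cmp_pos A hφ hθ hs hp 0 b hb rfl⟩
    | eq i j => exact ⟨1, by omega, cmp_pos A hφ hθ hs hp 0 b hb rfl⟩
    | neg ψ => exact ⟨1, by omega, cmp_pos A hφ hθ hs hp 0 b hb rfl⟩
    | and ψ χ => exact ⟨1, by omega, cmp_pos A hφ hθ hs hp 0 b hb rfl⟩
    | ex v ψ =>
      obtain ⟨a, ha⟩ := id hp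
      by_cases hc : ∃ i < m, a = r i
      · obtain ⟨i, hi, rfl⟩ := hc
        refine ⟨i + 1, by omega, cmp_pos A hφ hθ hs hp i b hb ?_⟩
        rw [sat_wit, Function.update_of_ne hi.ne]
        refine (sat_congr A ψ fun u hu => ?_).1 ha
        by_cases huv : u = v
        · subst huv
          simp
        · have hum : u < m := hφ u (by
            simp only [fv, Finset.mem_erase]
            exact ⟨huv, hu⟩)
          rw [Function.update_of_ne huv, Function.update_of_ne huv,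
            Function.update_of_ne hum.ne]
      · have hc' : ∀ j < m, a ≠ r j := fun j hj h => hc ⟨j, hj, h⟩
        refine ⟨m + 1, le_rfl, cmp_pos A hφ hθ hs hp m a hc' ?_⟩
        rw [sat_wit, Function.update_self]
        refine (sat_congr A ψ fun u hu => ?_).1 ha
        by_cases huv : u = v
        · subst huv
          simp
        · have hum : u < m := hφ u (by
            simp only [fv, Finset.mem_erase]
            exact ⟨huv, hu⟩)
          rw [Function.update_of_ne huv, Function.update_of_ne huv,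
            Function.update_of_ne hum.ne]
  · refine ⟨0, by omega, Function.update r m b,
      fun j hj => Function.update_of_ne hj.ne _ _, ?_⟩
    rw [sat_stepA_zero]
    exact ⟨cmp_upd_ne hb, (cmp_upd A b hθ).2 hs, fun h => hp ((cmp_upd A b hφ).1 h)⟩

/-- The values of the variables below `k` are different. -/
def cmp_P (k : ℕ) (r : ℕ → ℕ) : Prop := ∀ i < k, ∀ j < k, i ≠ j → r i ≠ r j

/-- The invariant of the Henkin construction. -/
def cmp_C (A : Str) (k : ℕ) (σ : ℕ → Fml) (t : ℕ) (θ : Fml) : Prop :=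
  (∀ v ∈ fv θ, v < k + t) ∧ ∀ n, ∃ r : ℕ → ℕ, cmp_P k r ∧ Sat A θ r ∧ Sat A (σ n) r

theorem cmp_anti (A : Str) {σ : ℕ → Fml}
    (hdec : ∀ n r, Sat A (σ (n + 1)) r → Sat A (σ n) r) {n N : ℕ} (h : n ≤ N) {r : ℕ → ℕ}
    (hr : Sat A (σ N) r) : Sat A (σ n) r := by
  induction N, h using Nat.le_induction with
  | base => exact hr
  | succ N _ ih => exact ih (hdec N r hr)

theorem cmp_step (A : Str) {k : ℕ} (hk : 1 ≤ k) {σ : ℕ → Fml}
    (hfv : ∀ n, ∀ v ∈ fv (σ n), v < k)
    (hdec : ∀ n r, Sat A (σ (n + 1)) r → Sat A (σ n) r) (t : ℕ) (θ : Fml)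
    (hC : cmp_C A k σ t θ) :
    ∃ θ', (∃ w, θ' = stepA (k + t) (dec t) w θ) ∧ cmp_C A k σ (t + 1) θ' := by
  have hdt : ∀ v ∈ fv (dec t), v < k + t := by
    intro v hv
    have := fv_le (dec t) v hv
    rw [cod_dec] at this
    omega
  have key : ∀ n, ∃ w ≤ k + t + 1, ∃ r : ℕ → ℕ, cmp_P k r ∧
      Sat A (stepA (k + t) (dec t) w θ) r ∧ Sat A (σ n) r := by
    intro n
    obtain ⟨r, hP, hθ, hσ⟩ := hC.2 n
    obtain ⟨w, hw, r', hr', hs'⟩ := stepA_ex A (by omega : 1 ≤ k + t) hdt hC.1 hθ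
    refine ⟨w, hw, r', ?_, hs', ?_⟩
    · intro i hi j hj hij
      rw [hr' i (by omega), hr' j (by omega)]
      exact hP i hi j hj hij
    · refine (sat_congr A (σ n) fun v hv => ?_).1 hσ
      have := hfv n v hv
      exact (hr' v (by omega)).symm
  have one : ∃ w ≤ k + t + 1, ∀ n, ∃ r : ℕ → ℕ, cmp_P k r ∧
      Sat A (stepA (k + t) (dec t) w θ) r ∧ Sat A (σ n) r := by
    by_contra hcon
    have hbad : ∀ w, ∃ n, w ≤ k + t + 1 → ¬ ∃ r : ℕ → ℕ, cmp_P k r ∧
        Sat A (stepA (k + t) (dec t) w θ) r ∧ Sat A (σ n) r := by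
      intro w
      by_cases hw : w ≤ k + t + 1
      · by_contra hno
        apply hcon
        refine ⟨w, hw, fun n => ?_⟩
        by_contra hn
        exact hno ⟨n, fun _ => hn⟩
      · exact ⟨0, fun h => absurd h hw⟩
    choose f hf using hbad
    obtain ⟨w, hw, r, hP, hs1, hs2⟩ := key ((Finset.range (k + t + 2)).sup f)
    refine hf w hw ⟨r, hP, hs1, ?_⟩
    refine cmp_anti A hdec ?_ hs2
    exact Finset.le_sup (f := f) (Finset.mem_range.2 (by omega))
  obtain ⟨w, hw, hall⟩ := one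
  refine ⟨stepA (k + t) (dec t) w θ, ⟨w, rfl⟩, ?_, hall⟩
  intro v hv
  have := fv_stepA (by omega : 1 ≤ k + t) hw hdt hC.1 v hv
  omega

/-- Henkin construction: keep the property `C m θ`: for every `n` some assignment which is
injective on `{0, ..., m-1}` satisfies `θ` and `σ n`. Step: by `stepA_ex` every `n` has a `w`; as
`σ` decreases, one `w ≤ m + 1` works for all `n`. Then `HSeq.of_steps` with
`P r := injective on {0, ..., k-1}`, `sat_limStr` with `s = id` (`θ t` decides `σ n`). -/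
theorem compactness (A : Str) {k : ℕ} (hk : 1 ≤ k) (σ : ℕ → Fml)
    (hfv : ∀ n, ∀ v ∈ fv (σ n), v < k)
    (hdec : ∀ n r, Sat A (σ (n + 1)) r → Sat A (σ n) r)
    (hs : ∀ n, ∃ r : ℕ → ℕ, (∀ i < k, ∀ j < k, i ≠ j → r i ≠ r j) ∧ Sat A (σ n) r) :
    ∃ B, EE A B ∧ ∀ n, Sat B (σ n) id := by
  have h0 : cmp_C A k σ 0 (.eq 0 0) := by
    refine ⟨?_, fun n => ?_⟩
    · intro v hv
      simp only [fv, Finset.mem_insert, Finset.mem_singleton, or_self] at hv
      omega
    · obtain ⟨r, h1, h2⟩ := hs n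
      exact ⟨r, h1, rfl, h2⟩
  choose g hg using fun (t : ℕ) (x : {θ : Fml // cmp_C A k σ t θ}) =>
    cmp_step A hk hfv hdec t x.1 x.2
  let F : (t : ℕ) → {θ : Fml // cmp_C A k σ t θ} := fun t =>
    Nat.rec (motive := fun t => {θ : Fml // cmp_C A k σ t θ}) ⟨.eq 0 0, h0⟩
      (fun t x => ⟨g t x, (hg t x).2⟩) t
  let θ : ℕ → Fml := fun t => (F t).1
  have hCt : ∀ t, cmp_C A k σ t (θ t) := fun t => (F t).2
  have hstep : ∀ t, ∃ w, θ (t + 1) = stepA (k + t) (dec t) w (θ t) := fun t => (hg t (F t)).1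
  have hseq : HSeq A (cmp_P k) θ := by
    refine HSeq.of_steps (k := k) (fun r hr => hr) ?_ ?_ (fun n => ?_)
    · intro t
      obtain ⟨r, h1, h2, _⟩ := (hCt t).2 0
      exact ⟨r, h1, h2⟩
    · intro t r _ hr
      obtain ⟨w, hw⟩ := hstep t
      rw [hw] at hr
      cases w with
      | zero => exact ((sat_stepA_zero A _ _ _ _).1 hr).2.1
      | succ i => exact ((sat_stepA_succ A _ _ _ _ _).1 hr).2.1
    · obtain ⟨w, hw⟩ := hstep n
      exact ⟨n, w, hw⟩
  refine ⟨limStr A (cmp_P k) θ, ee_limStr hseq, fun n => ?_⟩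
  rw [sat_limStr hseq]
  obtain ⟨w, hw⟩ := hstep (cod (σ n))
  rw [dec_cod] at hw
  refine ⟨cod (σ n) + 1, fun r hr hsat => ?_⟩
  show Sat A (σ n) r
  cases w with
  | zero =>
    exfalso
    obtain ⟨r', _, h2, h3⟩ := (hCt (cod (σ n) + 1)).2 n
    rw [hw] at h2
    exact ((sat_stepA_zero A _ _ _ _).1 h2).2.2 h3
  | succ i =>
    rw [hw] at hsat
    exact ((sat_stepA_succ A _ _ _ _ _).1 hsat).2.2.1

end Pool.Agent.H65.ME
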