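import Mathlib

/-!
# Decidability of almost prime models of Ehrenfeucht theories: definitions

All structures are countably infinite structures with universe `ℕ` in the relational language
which has, for all `i, n : ℕ`, one relation symbol `R_{i,n}` of arity `n`
(`R i [a_1, ..., a_n]` is the truth value of `R_{i,n}(a_1, ..., a_n)`).
-/

namespace Pool.Agent.H65.ME

/-- First order formulas; the variables are the natural numbers. -/
inductive Fml : Type
  | rel (i : ℕ) (v : List ℕ) : Fml
  | eq (i j : ℕ) : Fml
  | neg (φ : Fml) : Fml
  | and (φ ψ : Fml) : Fml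
  | ex (v : ℕ) (φ : Fml) : Fml
  deriving DecidableEq

/-- A structure with universe `ℕ`. -/
structure Str : Type where
  R : ℕ → List ℕ → Prop

/-- Satisfaction of a formula under an assignment. -/
def Sat (A : Str) : Fml → (ℕ → ℕ) → Prop
  | .rel i v, s => A.R i (v.map s)
  | .eq i j, s => s i = s j
  | .neg φ, s => ¬ Sat A φ s
  | .and φ ψ, s => Sat A φ s ∧ Sat A ψ s
  | .ex v φ, s => ∃ a, Sat A φ (Function.update s v a)

/-- Free variables. -/
def fv : Fml → Finset ℕ
  | .rel _ v => v.toFinset
  | .eq i j => {i, j}
  | .neg φ => fv φ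
  | .and φ ψ => fv φ ∪ fv ψ
  | .ex v φ => (fv φ).erase v

/-- The Gödel number of a formula (a bijection between formulas and natural numbers). -/
def cod : Fml → ℕ
  | .rel i v => 5 * Nat.pair i (Encodable.encode v)
  | .eq i j => 5 * Nat.pair i j + 1
  | .neg φ => 5 * cod φ + 2
  | .and φ ψ => 5 * Nat.pair (cod φ) (cod ψ) + 3
  | .ex v φ => 5 * Nat.pair v (cod φ) + 4

/-- The formula with a given Gödel number. -/
def dec (n : ℕ) : Fml :=
  if n % 5 = 0 then .rel (n / 5).unpair.1 (Denumerable.ofNat (List ℕ) (n / 5).unpair.2)
  else if n % 5 = 1 then .eq (n / 5).unpair.1 (n / 5).unpair.2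
  else if n % 5 = 2 then .neg (dec (n / 5))
  else if n % 5 = 3 then .and (dec (n / 5).unpair.1) (dec (n / 5).unpair.2)
  else .ex (n / 5).unpair.1 (dec (n / 5).unpair.2)
termination_by n
decreasing_by
  all_goals
    have h1 := Nat.unpair_left_le (n / 5)
    have h2 := Nat.unpair_right_le (n / 5)
    omega

/-- The assignment given by a finite tuple. -/
def asg (a : List ℕ) : ℕ → ℕ := fun u => a.getD u 0

/-- The complete type of the tuple `a` in the structure `A`: all formulas with free variables
among `x_0, ..., x_{n-1}` (`n` the length of `a`) that `a` satisfies. -/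
def tp (A : Str) (a : List ℕ) : Set Fml :=
  {φ | (∀ v ∈ fv φ, v < a.length) ∧ Sat A φ (asg a)}

/-- Elementary equivalence (the type of the empty tuple is the complete theory). -/
def EE (A B : Str) : Prop := tp A [] = tp B []

/-- `A` and `B` are isomorphic. -/
def IsoStr (A B : Str) : Prop :=
  ∃ e : ℕ ≃ ℕ, ∀ i v, A.R i v ↔ B.R i (v.map e)

/-- `p` is a complete type (over the empty set) of the complete theory of `A`. -/
def IsType (A : Str) (p : Set Fml) : Prop := ∃ B : Str, EE A B ∧ ∃ b : List ℕ, p = tp B b

/-- The complete theory of `A` has only finitely many countable models up to isomorphism. -/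
def Ehrenfeucht (A : Str) : Prop :=
  ∃ (n : ℕ) (K : Fin n → Str), ∀ B, EE A B → ∃ i, IsoStr B (K i)

/-- The complete type of the tuple `b` over the tuple `a` is isolated. -/
def IsolOver (A : Str) (a b : List ℕ) : Prop :=
  ∃ χ ∈ tp A (a ++ b), ∀ b' : List ℕ, b'.length = b.length → χ ∈ tp A (a ++ b') →
    tp A (a ++ b') = tp A (a ++ b)

/-- `A` is atomic over the tuple `a` (for countable structures: `A` is prime over `a`). -/
def AtomicOver (A : Str) (a : List ℕ) : Prop := ∀ b, IsolOver A a b

/-- `A` is almost prime. -/
def AlmostPrime (A : Str) : Prop := ∃ a, AtomicOver A a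

/-- The expansion of `A` by constants for the tuple `a` is homogeneous. -/
def HomOver (A : Str) (a : List ℕ) : Prop :=
  ∀ b b' : List ℕ, b.length = b'.length → tp A (a ++ b) = tp A (a ++ b') →
    ∀ c : ℕ, ∃ c' : ℕ, tp A (a ++ b ++ [c]) = tp A (a ++ b' ++ [c'])

/-- `A` is almost homogeneous. -/
def AlmostHom (A : Str) : Prop := ∃ a, HomOver A a

/-- The elementary diagram of `B`, as a predicate on codes of pairs (formula, tuple). -/
def diag (B : Str) (x : ℕ) : Prop :=
  Sat B (dec x.unpair.1) (asg (Denumerable.ofNat (List ℕ) x.unpair.2))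

open Classical in
/-- The characteristic function of a set of natural numbers, as an oracle. -/
noncomputable def chi (P : ℕ → Prop) : ℕ →. ℕ := fun n => Part.some (if P n then 1 else 0)

/-- The characteristic function of a set of formulas, as an oracle. -/
noncomputable def orc (p : Set Fml) : ℕ →. ℕ := chi fun n => dec n ∈ p

/-- `A` has an isomorphic copy with universe `ℕ` whose elementary diagram is recursive in the
characteristic functions of the sets of formulas in `ts`. -/
def DecIn (ts : Set (Set Fml)) (A : Str) : Prop :=
  ∃ B, IsoStr A B ∧ Nat.RecursiveIn (orc '' ts) (chi (diag B))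

/-- `A` is decidable. -/
def DecModel (A : Str) : Prop := ∃ B, IsoStr A B ∧ ComputablePred (diag B)

/-- The complete theory of `A` is small and has only finitely many almost prime countable models
up to isomorphism. (It may have infinitely many countable models.) -/
def FewPrime (A : Str) : Prop :=
  {p | IsType A p}.Countable ∧
  ∃ (n : ℕ) (K : Fin n → Str), ∀ B, EE A B → AlmostPrime B → ∃ i, IsoStr B (K i)

end Pool.Agent.H65.ME
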