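import Pool.Agent.H65.ME.Lim
import Pool.Agent.H65.ME.Atm
import Pool.Agent.H65.ME.Bf

/-!
# FIN: the limit structure is isomorphic to `M`
-/

namespace Pool.Agent.H65.ME

/-- For every `m ≥ k` take `B`, `f` from `atomic_sub` for `N = lim` and the tuple `range m`. `B`
is almost prime, so it is atomic over a tuple `b` of type `s_j`; put `d = b.map f`. Then
`tp N d = s_j`, `IsolOver N d (range k)`, so `IsolOver N (range k) d` by `lim_P`, and
`IsolOver N d (range k ++ range m)`; by `IsolOver.trans` `IsolOver N (range k) (range m)`. So `N`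
is atomic over `range k` (`IsolOver.of_subset`); use `tp_limStr` and `back_forth`. -/
theorem lim_iso {A M : Str} {Q : ℕ → Fml → Prop} {k l J : ℕ}
    (hc : {p | IsType A p}.Countable) (hM : EE A M) (hp : Par M Q k l J)
    (hat : AtomicOver M (List.range k))
    (hs : ∀ B, EE A B → AlmostPrime B → ∃ j < J, ∃ b : List ℕ, b.length = l ∧
      (∀ φ, Q (j + 1) φ ↔ φ ∈ tp B b) ∧ AtomicOver B b) :
    IsoStr M (lim M Q k l J) := by
  have hseq := run_hseq hp
  have hMN : EE M (lim M Q k l J) := ee_limStr hseq
  have hAN : EE A (lim M Q k l J) := Eq.trans hM hMN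
  have hatN : AtomicOver (lim M Q k l J) (List.range k) := by
    intro e
    obtain ⟨m, hkm, hem⟩ : ∃ m, k ≤ m ∧ ∀ x ∈ e, x < m :=
      ⟨k + e.sum + 1, by omega, fun x hx => by
        have := List.le_sum_of_mem hx
        omega⟩
    have hm1 : 1 ≤ m := le_trans hp.k_pos hkm
    obtain ⟨B, f, -, hfi, hel, hB⟩ := atomic_sub hc hAN hm1
    have hBN : EE B (lim M Q k l J) := tp_map hel []
    have hAB : EE A B := Eq.trans hAN (Eq.symm hBN)
    obtain ⟨j, hj, b, hbl, hQ, hBb⟩ := hs B hAB ⟨_, hB⟩
    have hmap : ∀ k' ≤ m, (List.range k').map f = List.range k' := by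
      intro k' hk'
      conv_rhs => rw [← List.map_id (List.range k')]
      refine List.map_congr_left fun x hx => ?_
      exact hfi x (lt_of_lt_of_le (List.mem_range.1 hx) hk')
    have h1 : IsolOver (lim M Q k l J) (b.map f) (List.range k) := by
      have := (hBb (List.range k)).map hel
      rwa [hmap k hkm] at this
    have h2 : IsolOver (lim M Q k l J) (List.range k) (b.map f) :=
      lim_P hp hj (by simp [hbl]) (fun φ => by rw [hQ, tp_map hel]) h1
    have h3 : IsolOver (lim M Q k l J) (b.map f) (List.range k ++ List.range m) := by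
      have := (hBb (List.range k ++ List.range m)).map hel
      rwa [List.map_append, hmap k hkm, hmap m le_rfl] at this
    exact (h2.trans h3).of_subset (fun x hx => by simpa using hem x hx)
  exact back_forth hat hatN (tp_limStr hseq).symm

end Pool.Agent.H65.ME
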