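import Pool.Agent.H65.ME.Syn2

/-!
# HEN: the limit structure of a Henkin sequence
-/

namespace Pool.Agent.H65.ME

theorem hen_mono {A : Str} {P : (ℕ → ℕ) → Prop} {θ : ℕ → Fml}
    (mono : ∀ t r, P r → Sat A (θ (t + 1)) r → Sat A (θ t) r) {t t' : ℕ} (ht : t ≤ t')
    {r : ℕ → ℕ} (hr : P r) (h : Sat A (θ t') r) : Sat A (θ t) r := by
  induction t', ht using Nat.le_induction with
  | base => exact h
  | succ n _ ih => exact ih (mono n r hr h)

theorem hen_getD_map (s : ℕ → ℕ) (N : ℕ) {u : ℕ} (hu : u < N) :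
    ((List.range N).map s).getD u 0 = s u := by
  simp [hu]

/-- the formula `φ` evaluated at `s` -/
theorem hen_tr (A : Str) (φ : Fml) (s r : ℕ → ℕ) :
    Sat A (tr ((List.range (cod φ + 1)).map s) φ) r ↔ Sat A φ (r ∘ s) := by
  rw [sat_tr A (a := (List.range (cod φ + 1)).map s) (fun v hv => by
    have := fv_le φ v hv
    simp only [List.length_map, List.length_range]
    omega)]
  apply sat_congr
  intro v hv
  have := fv_le φ v hv
  simp only [Function.comp]
  rw [hen_getD_map s _ (by omega)]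

/-- Induction on `φ` (for all `s`). `rel`: definition. `eq`: `dist`. `neg`: `comp` for the
formula `tr (List.map s (List.range (cod φ + 1))) φ` (by `sat_tr`, `sat_congr`, `fv_le` its truth
at `r` is the truth of `φ` at `r ∘ s`) together with `sat` at the maximum of two stages and
`mono`. `ex v φ`: apply `witn` to the formula `ex v' (tr _ φ)` with a fresh variable `v'`. -/
theorem sat_limStr {A : Str} {P : (ℕ → ℕ) → Prop} {θ : ℕ → Fml} (h : HSeq A P θ)
    (φ : Fml) (s : ℕ → ℕ) : Sat (limStr A P θ) φ s ↔ Forces A P θ φ s := by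
  induction φ generalizing s with
  | rel i v =>
    simp only [Sat, limStr, Forces, List.map_map]
  | eq i j =>
    constructor
    · intro hij
      refine ⟨0, fun r _ _ => ?_⟩
      have hij' : s i = s j := hij
      show r (s i) = r (s j)
      rw [hij']
    · rintro ⟨t, ht⟩
      show s i = s j
      by_contra hne
      obtain ⟨t', ht'⟩ := h.dist _ _ hne
      obtain ⟨r, hr, hs⟩ := h.sat (max t t')
      exact ht' r hr (hen_mono h.mono (le_max_right _ _) hr hs)
        (ht r hr (hen_mono h.mono (le_max_left _ _) hr hs))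
  | neg φ ih =>
    have h1 : Sat (limStr A P θ) φ.neg s ↔ ¬ Forces A P θ φ s := not_congr (ih s)
    rw [h1]
    constructor
    · intro hn
      obtain ⟨t, ht⟩ := h.comp (tr ((List.range (cod φ + 1)).map s) φ)
      rcases ht with ht | ht
      · exact absurd ⟨t, fun r hr hs => (hen_tr A φ s r).1 (ht r hr hs)⟩ hn
      · exact ⟨t, fun r hr hs hs' => ht r hr hs ((hen_tr A φ s r).2 hs')⟩
    · rintro ⟨t, ht⟩ ⟨t', ht'⟩
      obtain ⟨r, hr, hs⟩ := h.sat (max t t')
      exact ht r hr (hen_mono h.mono (le_max_left _ _) hr hs)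
        (ht' r hr (hen_mono h.mono (le_max_right _ _) hr hs))
  | and φ ψ ih1 ih2 =>
    have h1 : Sat (limStr A P θ) (φ.and ψ) s ↔ Forces A P θ φ s ∧ Forces A P θ ψ s :=
      and_congr (ih1 s) (ih2 s)
    rw [h1]
    constructor
    · rintro ⟨⟨t, ht⟩, ⟨t', ht'⟩⟩
      exact ⟨max t t', fun r hr hs => ⟨ht r hr (hen_mono h.mono (le_max_left _ _) hr hs),
        ht' r hr (hen_mono h.mono (le_max_right _ _) hr hs)⟩⟩
    · rintro ⟨t, ht⟩
      exact ⟨⟨t, fun r hr hs => (ht r hr hs).1⟩, ⟨t, fun r hr hs => (ht r hr hs).2⟩⟩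
  | ex v φ ih =>
    have h1 : Sat (limStr A P θ) (.ex v φ) s ↔
        ∃ a, Forces A P θ φ (Function.update s v a) := exists_congr fun a => ih _
    rw [h1]
    have hup : ∀ (r : ℕ → ℕ) (a : ℕ),
        r ∘ Function.update s v a = Function.update (r ∘ s) v (r a) := by
      intro r a
      funext u
      by_cases hu : u = v
      · subst hu; simp
      · simp [hu]
    constructor
    · rintro ⟨a, t, ht⟩
      refine ⟨t, fun r hr hs => ⟨r a, ?_⟩⟩
      rw [← hup]
      exact ht r hr hs
    · rintro ⟨t, ht⟩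
      let N := cod φ + 1
      let v' := ((List.range N).map s).sum + 1
      have hv' : ∀ u < N, s u ≠ v' := by
        intro u hu he
        have h3 : s u ≤ ((List.range N).map s).sum :=
          List.le_sum_of_mem (List.mem_map.2 ⟨u, List.mem_range.2 hu, rfl⟩)
        have : v' = ((List.range N).map s).sum + 1 := rfl
        omega
      let s' := Function.update s v v'
      have key : ∀ (r : ℕ → ℕ) (b : ℕ),
          Sat A (tr ((List.range (cod φ + 1)).map s') φ) (Function.update r v' b) ↔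
            Sat A φ (Function.update (r ∘ s) v b) := by
        intro r b
        rw [hen_tr]
        apply sat_congr
        intro u hu
        have hu' := fv_le φ u hu
        by_cases huv : u = v
        · subst huv
          simp [s']
        · have h4 := hv' u (by omega)
          simp [s', huv, h4]
      obtain ⟨t', i, hi⟩ := h.witn v' (tr ((List.range (cod φ + 1)).map s') φ) t (by
        intro r hr hs
        obtain ⟨b, hb⟩ := ht r hr hs
        exact ⟨b, (key r b).2 hb⟩)
      refine ⟨i, t', fun r hr hs => ?_⟩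
      rw [hup]
      exact (key r (r i)).1 (hi r hr hs)

theorem ee_limStr {A : Str} {P : (ℕ → ℕ) → Prop} {θ : ℕ → Fml} (h : HSeq A P θ) :
    EE A (limStr A P θ) := by
  show tp A [] = tp (limStr A P θ) []
  ext φ
  simp only [tp, Set.mem_ofPred_eq]
  refine and_congr_right fun hfv => ?_
  rw [sat_limStr h]
  have hc : ∀ s s' : ℕ → ℕ, Sat A φ s ↔ Sat A φ s' := fun s s' =>
    sat_congr A φ fun v hv => absurd (hfv v hv) (by simp)
  constructor
  · intro h1
    exact ⟨0, fun r _ _ => (hc _ _).1 h1⟩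
  · rintro ⟨t, ht⟩
    obtain ⟨r, hr, hs⟩ := h.sat t
    exact (hc _ _).1 (ht r hr hs)

theorem tp_limStr {A : Str} {k : ℕ} {θ : ℕ → Fml} (h : HSeq A (Adm k) θ) :
    tp (limStr A (Adm k) θ) (List.range k) = tp A (List.range k) := by
  ext φ
  simp only [tp, Set.mem_ofPred_eq]
  refine and_congr_right fun hfv => ?_
  rw [sat_limStr h]
  have hid : ∀ v < k, asg (List.range k) v = v := by
    intro v hv
    simp [asg, hv]
  have hc : ∀ r : ℕ → ℕ, Adm k r →
      (Sat A φ (r ∘ asg (List.range k)) ↔ Sat A φ (asg (List.range k))) := by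
    intro r hr
    apply sat_congr
    intro v hv
    have hvk : v < k := by simpa using hfv v hv
    simp only [Function.comp]
    rw [hid v hvk, hr v hvk]
  constructor
  · rintro ⟨t, ht⟩
    obtain ⟨r, hr, hs⟩ := h.sat t
    exact (hc r hr).1 (ht r hr hs)
  · intro h1
    exact ⟨0, fun r hr _ => (hc r hr).2 h1⟩

/-- `dist`: elements `i < j` with `j ≥ k` are separated by the step with `k + n = j`.
`comp`: the step `n = cod φ`. `witn`: the step `n = cod (ex v ψ)`; its `w` is not `0` because of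
`sat` at a later stage. -/
theorem HSeq.of_steps {A : Str} {P : (ℕ → ℕ) → Prop} {θ : ℕ → Fml} {k : ℕ}
    (hinj : ∀ r, P r → ∀ i < k, ∀ j < k, i ≠ j → r i ≠ r j)
    (sat : ∀ t, ∃ r, P r ∧ Sat A (θ t) r)
    (mono : ∀ t r, P r → Sat A (θ (t + 1)) r → Sat A (θ t) r)
    (steps : ∀ n, ∃ t w, θ (t + 1) = stepA (k + n) (dec n) w (θ t)) : HSeq A P θ := by
  have hnew : ∀ i j, i < j → ∃ t, ∀ r, P r → Sat A (θ t) r → r i ≠ r j := by
    intro i j hij
    by_cases hj : j < k
    · exact ⟨0, fun r hr _ => hinj r hr i (hij.trans hj) j hj hij.ne⟩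
    · obtain ⟨n, rfl⟩ : ∃ n, j = k + n := ⟨j - k, by omega⟩
      obtain ⟨t, w, ht⟩ := steps n
      refine ⟨t + 1, fun r hr hs => ?_⟩
      rw [ht] at hs
      cases w with
      | zero => exact (((sat_stepA_zero _ _ _ _ _).1 hs).1 i hij).symm
      | succ w => exact (((sat_stepA_succ _ _ _ _ _ _).1 hs).1 i hij).symm
  refine ⟨sat, mono, ?_, ?_, ?_⟩
  · intro i j hij
    rcases lt_or_gt_of_ne hij with h | h
    · exact hnew i j h
    · obtain ⟨t, ht⟩ := hnew j i h
      exact ⟨t, fun r hr hs => (ht r hr hs).symm⟩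
  · intro φ
    obtain ⟨t, w, ht⟩ := steps (cod φ)
    rw [dec_cod] at ht
    refine ⟨t + 1, ?_⟩
    rw [ht]
    cases w with
    | zero => exact Or.inr fun r _ hs => ((sat_stepA_zero _ _ _ _ _).1 hs).2.2
    | succ w => exact Or.inl fun r _ hs => ((sat_stepA_succ _ _ _ _ _ _).1 hs).2.2.1
  · intro v ψ t hf
    obtain ⟨t', w, ht'⟩ := steps (cod (.ex v ψ))
    rw [dec_cod] at ht'
    cases w with
    | zero =>
      exfalso
      obtain ⟨r, hr, hs⟩ := sat (max t (t' + 1))
      have h1 := hf r hr (hen_mono mono (le_max_left _ _) hr hs)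
      have h2 := hen_mono mono (le_max_right _ _) hr hs
      rw [ht'] at h2
      exact ((sat_stepA_zero _ _ _ _ _).1 h2).2.2 h1
    | succ i =>
      refine ⟨t' + 1, i, fun r hr hs => ?_⟩
      rw [ht'] at hs
      exact (sat_wit _ _ _ _ _).1 ((sat_stepA_succ _ _ _ _ _ _).1 hs).2.2.2

end Pool.Agent.H65.ME
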