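import Pool.Agent.H65.ME.Run

/-!
# LIM: the limit structure has property (P)
-/

namespace Pool.Agent.H65.ME

variable {M : Str} {Q : ℕ → Fml → Prop} {k l J : ℕ}

/-- The structure built by the construction. -/
noncomputable abbrev lim (M : Str) (Q : ℕ → Fml → Prop) (k l J : ℕ) : Str :=
  limStr M (Adm k) (fun t => (run Q k l J t).1)

/-- An implication between formulas which holds in `M` under all assignments holds in the
limit. -/
theorem lim_imp (hp : Par M Q k l J) {φ ψ : Fml} (h : ∀ r, Sat M φ r → Sat M ψ r) (r : ℕ → ℕ)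
    (hs : Sat (lim M Q k l J) φ r) : Sat (lim M Q k l J) ψ r := by
  rw [sat_limStr (run_hseq hp)] at hs ⊢
  obtain ⟨t, ht⟩ := hs
  exact ⟨t, fun r' ha hr' => h _ (ht r' ha hr')⟩

/-- All formulas of the construction are true in the limit under the identity. -/
theorem lim_run (hp : Par M Q k l J) (t : ℕ) : Sat (lim M Q k l J) (run Q k l J t).1 id := by
  rw [sat_limStr (run_hseq hp)]
  exact ⟨t, fun r' _ hr' => hr'⟩

/-- If `φ` is true in the limit under the identity, then from some stage on the formulas of the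
construction imply `φ` in `M` under ALL assignments (not only under the admissible ones): look at
the decision step with task `cod φ`. -/
theorem lim_strong (hp : Par M Q k l J) {φ : Fml} (h : Sat (lim M Q k l J) φ id) :
    ∃ t0, ∀ t ≥ t0, ∀ r, Sat M (run Q k l J t).1 r → Sat M φ r := by
  obtain ⟨t, w, -, -, -, hst⟩ := run_task hp (cod φ)
  rw [dec_cod] at hst
  refine ⟨t + 1, fun t' ht' r hr => ?_⟩
  have h1 := run_mono hp ht' M r hr
  rcases w with _ | i
  · exfalso
    have hneg : Sat (lim M Q k l J) φ.neg id := by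
      refine lim_imp hp (φ := (run Q k l J (t + 1)).1) ?_ id (lim_run hp (t + 1))
      intro r' hr'
      rw [hst] at hr'
      exact ((sat_stepA_zero _ _ _ _ _).1 hr').2.2
    exact hneg h
  · rw [hst] at h1
    exact ((sat_stepA_succ _ _ _ _ _ _).1 h1).2.2.1

theorem lim_tp_eq {A B : Str} {a b : List ℕ} (hl : a.length = b.length) (h : tp A a ⊆ tp B b) :
    tp A a = tp B b := by
  refine Set.Subset.antisymm h fun φ hφ => ?_
  by_contra hn
  have hfv : ∀ v ∈ fv φ, v < a.length := fun v hv => by rw [hl]; exact hφ.1 v hv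
  have := h ((neg_mem_tp hfv).2 hn)
  exact this.2 hφ.2

theorem lim_getD_range {v : ℕ} (h : v < k) : (List.range k).getD v 0 = v := by
  rw [List.getD_eq_getElem _ _ (by simpa using h)]
  simp

/-- Property (P). Let `N` be the limit, `i = pair j (encode d)`, `c = range k`, `χ` isolating
`tp (c / d)`, `χ' = tr (d ++ c) χ`, and let `θ_t` be the formulas of the run. `i` is never kicked
(`run_kick`). By `lim_strong`, `θ_t` implies `χ'` for `t ≥ t1`. For `t ≥ t1` the second disjunct
of `prot` fails: it gives in `N` (as `s_j = tp N d`) an assignment `r` with `r d_u = d_u`,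
`Sat N (exO (c ++ d) θ_t) r` and `¬ Sat N (exO (c ++ d) θ_{t+1}) r`; by `lim_imp` the first gives
`χ (d, r 0, ..., r (k-1))`, so `tp N (d ++ c.map r) = tp N (d ++ c)`, which contains
`pull (d ++ c) θ_{t+1}` (by `lim_run`), a contradiction. So the first disjunct holds for all
`t ≥ t1`: in `M`, for all admissible `r`, `exO (c ++ d) θ_{t1}` at `r` implies
`exO (c ++ d) θ_t` at `r` for all `t ≥ t1`. Then `pull (c ++ d) θ_{t1}` isolates `tp (d / c)`:
if `φ ∈ tp N (c ++ d)` then `θ_t` implies `tr (c ++ d) φ` for some `t ≥ t1` (`lim_strong`), so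
in `M`, hence (`tp_limStr`) in `N`, for admissible `r`, `exO (c ++ d) θ_{t1}` at `r` implies
`tr (c ++ d) φ` at `r`. -/
theorem lim_P (hp : Par M Q k l J) {j : ℕ} (hj : j < J) {d : List ℕ} (hd : d.length = l)
    (ht : ∀ φ, Q (j + 1) φ ↔ φ ∈ tp (lim M Q k l J) d)
    (hi : IsolOver (lim M Q k l J) d (List.range k)) :
    IsolOver (lim M Q k l J) (List.range k) d := by
  set N := lim M Q k l J with hN
  set c := List.range k with hc
  set i := Nat.pair j (Encodable.encode d) with hidef
  have hi1 : i.unpair.1 = j := by rw [hidef, Nat.unpair_pair]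
  have hi2 : dl i = d := by
    unfold dl
    rw [hidef, Nat.unpair_pair]
    exact Denumerable.ofNat_encode d
  have hact : act l J i := by
    refine ⟨by rw [hi1]; exact hj, by rw [hi2]; exact hd⟩
  have hgc : ∀ v < k, c.getD v 0 = v := fun v hv => lim_getD_range hv
  have hasgc : ∀ v < k, asg c v = v := hgc
  -- never kicked
  have hK : ∀ t, i ∉ (run Q k l J t).2.1 := by
    intro t hk
    obtain ⟨ψ, hψ, hno⟩ := run_kick hp hk
    rw [hi1] at hψ
    have h1 := (ht ψ).1 hψ
    refine hno N id (lim_run hp t) ?_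
    rw [hi2]
    exact (sat_tr N h1.1 id).2 h1.2
  obtain ⟨χ, hχ, hiso⟩ := hi
  have hχ' : Sat N (tr (d ++ c) χ) id := (sat_tr N hχ.1 id).2 hχ.2
  obtain ⟨t1, ht1⟩ := lim_strong hp hχ'
  obtain ⟨t0, ht0⟩ := run_prot hp hact hK
  -- Claim A
  have hA : ∀ t ≥ max t0 t1, ∀ r, Adm k r → Sat M (exO (c ++ d) (run Q k l J t).1) r →
      Sat M (exO (c ++ d) (run Q k l J (t + 1)).1) r := by
    intro t htt r hr hs
    by_contra hns
    rcases ht0 t (le_trans (le_max_left _ _) htt) with h1 | ⟨-, h3⟩
    · have h2 := ((hp.q _).1 h1).2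
      rw [hi2] at h2
      refine h2 ((sat_exO _ _ _ _).2 ⟨r, fun v hv => ?_, hs, hns⟩)
      have hv' : v < k := by simpa [hc] using hv
      rw [hr v hv']
      exact (hasgc v hv').symm
    · rw [hi1, hi2] at h3
      have h4 := ((ht _).1 h3).2
      obtain ⟨r1, hr1, hA1, hB1⟩ := (sat_pull _ _ _ _).1 h4
      obtain ⟨r2, hr2, hθ⟩ := (sat_exO _ _ _ _).1 hA1
      have h5 : Sat N (tr (d ++ c) χ) r2 :=
        lim_imp hp (ht1 t (le_trans (le_max_right _ _) htt)) r2 hθ
      rw [sat_tr N hχ.1] at h5
      have hlen : (d ++ c.map r2).length = (d ++ c).length := by simp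
      have h6 : ∀ v < (d ++ c).length, r2 ((d ++ c).getD v 0) = asg (d ++ c.map r2) v := by
        intro v hv
        unfold asg
        by_cases hvd : v < d.length
        · rw [List.getD_append _ _ _ _ hvd, List.getD_append _ _ _ _ hvd]
          have hmem : d.getD v 0 ∈ c ++ d := by
            rw [List.getD_eq_getElem _ _ hvd]
            exact List.mem_append_right _ (List.getElem_mem _)
          rw [hr2 _ hmem, hr1 v hvd]
          rfl
        · have hvd' : d.length ≤ v := not_lt.1 hvd
          rw [List.getD_append_right _ _ _ _ hvd', List.getD_append_right _ _ _ _ hvd']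
          have hvc : v - d.length < c.length := by
            rw [List.length_append] at hv
            omega
          rw [List.getD_eq_getElem _ _ hvc, List.getD_eq_getElem _ _ (by simpa using hvc)]
          simp
      have h7 : χ ∈ tp N (d ++ c.map r2) := by
        refine ⟨fun v hv => by rw [hlen]; exact hχ.1 v hv, ?_⟩
        exact (sat_congr N χ fun v hv => h6 v (hχ.1 v hv)).1 h5
      have h8 := hiso (c.map r2) (by simp) h7
      have h9 : pull (d ++ c) (run Q k l J (t + 1)).1 ∈ tp N (d ++ c) := by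
        refine ⟨fun v hv => fv_pull hv, (sat_pull _ _ _ _).2 ⟨id, fun u _ => rfl, ?_⟩⟩
        exact lim_run hp (t + 1)
      rw [← h8] at h9
      obtain ⟨r3, hr3, hθ'⟩ := (sat_pull _ _ _ _).1 h9.2
      refine hB1 ((sat_exO _ _ _ _).2 ⟨r3, fun v hv => ?_, hθ'⟩)
      rcases List.mem_append.1 hv with hvc | hvd
      · have hvk : v < k := by simpa [hc] using hvc
        have hlt : d.length + v < (d ++ c).length := by
          rw [List.length_append]
          simp [hc, hvk]
        have e1 : (d ++ c).getD (d.length + v) 0 = v := by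
          rw [List.getD_append_right _ _ _ _ (by omega)]
          rw [show d.length + v - d.length = v by omega]
          exact hgc v hvk
        have e2 := hr3 _ hlt
        rw [← h6 _ hlt, e1] at e2
        rw [e2]
        exact hr2 v hv
      · obtain ⟨u, hu, rfl⟩ := List.getElem_of_mem hvd
        have hlt : u < (d ++ c).length := by
          rw [List.length_append]
          omega
        have e1 : (d ++ c).getD u 0 = d[u] := by
          rw [List.getD_append _ _ _ _ hu, List.getD_eq_getElem _ _ hu]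
        have e2 := hr3 _ hlt
        rw [← h6 _ hlt, e1] at e2
        rw [e2]
        exact hr2 _ hv
  -- Claim B
  have hB : ∀ t ≥ max t0 t1, ∀ r, Adm k r →
      Sat M (exO (c ++ d) (run Q k l J (max t0 t1)).1) r →
      Sat M (exO (c ++ d) (run Q k l J t).1) r := by
    intro t htt
    induction t, htt using Nat.le_induction with
    | base => exact fun r _ h => h
    | succ t htt ih => exact fun r hr h => hA t htt r hr (ih r hr h)
  set t2 := max t0 t1 with ht2
  refine ⟨pull (c ++ d) (run Q k l J t2).1, ⟨fun v hv => fv_pull hv,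
    (sat_pull _ _ _ _).2 ⟨id, fun u _ => rfl, lim_run hp t2⟩⟩, fun b' hb' hmem => ?_⟩
  symm
  refine lim_tp_eq (by simp [hb']) fun φ hφ => ?_
  have hφ1 : Sat N (tr (c ++ d) φ) id := (sat_tr N hφ.1 id).2 hφ.2
  obtain ⟨t3, ht3⟩ := lim_strong hp hφ1
  have hM : ∀ r, Adm k r → Sat M (exO (c ++ d) (run Q k l J t2).1) r →
      Sat M (tr (c ++ d) φ) r := by
    intro r hr h
    have h1 := hB (max t2 t3) (le_max_left _ _) r hr h
    obtain ⟨r', hr', h2⟩ := (sat_exO _ _ _ _).1 h1
    have h3 := ht3 (max t2 t3) (le_max_right _ _) r' h2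
    exact (sat_congr M _ fun v hv => hr' v (fv_tr hv)).1 h3
  have hη : (Fml.neg (exO c (.and (exO (c ++ d) (run Q k l J t2).1)
      (.neg (tr (c ++ d) φ))))) ∈ tp M c := by
    refine ⟨fun v hv => ?_, fun hcon => ?_⟩
    · have : v ∈ c := (fv_exO (show v ∈ fv (exO c _) from hv)).1
      simpa [hc] using this
    · obtain ⟨r, hr, h1, h2⟩ := (sat_exO _ _ _ _).1 hcon
      refine h2 (hM r (fun v hv => ?_) h1)
      rw [hr v (by simpa [hc] using hv)]
      exact hasgc v hv
  have htl : tp N c = tp M c := tp_limStr (run_hseq hp)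
  rw [← htl] at hη
  obtain ⟨s', hs', h2⟩ := (sat_pull _ _ _ _).1 hmem.2
  have h3 : Sat N (tr (c ++ d) φ) s' := by
    by_contra hcon
    refine hη.2 ((sat_exO _ _ _ _).2 ⟨s', fun v hv => ?_,
      (sat_exO _ _ _ _).2 ⟨s', fun _ _ => rfl, h2⟩, hcon⟩)
    have hvk : v < k := by simpa [hc] using hv
    have hvc : v < c.length := by simpa [hc] using hvk
    have e1 : (c ++ d).getD v 0 = v := by
      rw [List.getD_append _ _ _ _ hvc]
      exact hgc v hvk
    have e2 := hs' v (by rw [List.length_append]; omega)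
    rw [e1] at e2
    rw [e2]
    unfold asg
    exact List.getD_append _ _ _ _ hvc
  refine ⟨fun v hv => by simpa [hb'] using hφ.1 v hv, ?_⟩
  rw [sat_tr N hφ.1] at h3
  exact (sat_congr N φ fun v hv => hs' v (hφ.1 v hv)).1 h3

end Pool.Agent.H65.ME
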