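import Pool.Agent.H65.ME.Trans

/-!
# TYP: finitely many types
-/

namespace Pool.Agent.H65.ME

/-- Countability: every type of the theory is realised in one of finitely many structures. -/
theorem few_of_ehrenfeucht {A : Str} (h : Ehrenfeucht A) : FewPrime A := by
  obtain ⟨n, K, hK⟩ := h
  refine ⟨?_, n, K, fun B hB _ => hK B hB⟩
  refine (Set.countable_range (fun x : Fin n × List ℕ => tp (K x.1) x.2)).mono ?_
  rintro p ⟨B, hB, b, rfl⟩
  obtain ⟨i, e, he⟩ := hK B hB
  exact ⟨(i, b.map e), (tp_iso e he b).symm⟩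

theorem typ_map_symm (e : ℕ ≃ ℕ) (v : List ℕ) : (v.map e.symm).map e = v := by
  rw [List.map_map]
  have : (⇑e ∘ ⇑e.symm) = id := by
    funext x
    simp
  rw [this, List.map_id]

/-- Choose for every `K i` which is elementarily equivalent to `A` and almost prime a tuple over
which it is atomic, and extend these tuples by zeros to the same length (`AtomicOver.append`);
transport with `tp_iso` and `AtomicOver.iso`. -/
theorem types_list {A : Str} (h : FewPrime A) :
    ∃ (l J : ℕ) (s : ℕ → Set Fml),
      (∀ j < J, ∃ B b, EE A B ∧ List.length b = l ∧ s j = tp B b) ∧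
      ∀ B, EE A B → AlmostPrime B →
        ∃ j < J, ∃ b : List ℕ, b.length = l ∧ tp B b = s j ∧ AtomicOver B b := by
  classical
  obtain ⟨-, n, K, hK⟩ := h
  have h1 : ∀ i : Fin n, ∃ a : List ℕ, AlmostPrime (K i) → AtomicOver (K i) a := by
    intro i
    by_cases hi : AlmostPrime (K i)
    · obtain ⟨a, ha⟩ := hi
      exact ⟨a, fun _ => ha⟩
    · exact ⟨[], fun h => absurd h hi⟩
  choose a ha using h1
  let l : ℕ := Finset.univ.sup (fun i : Fin n => (a i).length)
  have hl : ∀ i, (a i).length ≤ l := fun i =>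
    Finset.le_sup (f := fun i : Fin n => (a i).length) (Finset.mem_univ i)
  let b : Fin n → List ℕ := fun i => a i ++ List.replicate (l - (a i).length) 0
  have hb : ∀ i, (b i).length = l := by
    intro i
    have := hl i
    simp only [b, List.length_append, List.length_replicate]
    omega
  refine ⟨l, n, fun j => if hj : j < n then
    (if EE A (K ⟨j, hj⟩) then tp (K ⟨j, hj⟩) (b ⟨j, hj⟩) else tp A (List.replicate l 0)) else ∅,
    ?_, ?_⟩
  · intro j hj
    by_cases hE : EE A (K ⟨j, hj⟩)
    · refine ⟨K ⟨j, hj⟩, b ⟨j, hj⟩, hE, hb _, ?_⟩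
      simp only [dif_pos hj, if_pos hE]
    · refine ⟨A, List.replicate l 0, rfl, List.length_replicate, ?_⟩
      simp only [dif_pos hj, if_neg hE]
  · intro B hB hP
    obtain ⟨i, e, he⟩ := hK B hB hP
    have hE : EE A (K i) := hB.trans (ee_iso ⟨e, he⟩)
    have hP' : AlmostPrime (K i) := by
      obtain ⟨c, hc⟩ := hP
      exact ⟨c.map e, AtomicOver.iso e he hc⟩
    have hat : AtomicOver (K i) (b i) := AtomicOver.append (ha i hP') _
    have he' : ∀ j v, (K i).R j v ↔ B.R j (v.map e.symm) := by
      intro j v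
      rw [he, typ_map_symm]
    refine ⟨i.1, i.2, (b i).map e.symm, ?_, ?_, AtomicOver.iso e.symm he' hat⟩
    · rw [List.length_map, hb]
    · simp only [dif_pos i.2, Fin.eta, if_pos hE]
      rw [tp_iso e he, typ_map_symm]

end Pool.Agent.H65.ME
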