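import Pool.Agent.H65.ME.Rec
import Pool.Agent.H65.ME.Fin
import Pool.Agent.H65.ME.Typ

/-!
# MAIN: assembly
-/

namespace Pool.Agent.H65.ME

/-- The parameters of the construction: `Q 0` is the type of the distinguished tuple, `Q (j + 1)`
for `j < J` is `s j`. -/
def mainQ (q : Set Fml) (J : ℕ) (s : ℕ → Set Fml) : ℕ → Fml → Prop
  | 0, φ => φ ∈ q
  | j + 1, φ => j < J ∧ φ ∈ s j

/-- Almost prime models are decidable relative to finitely many types. -/
theorem main_rel {A : Str} (hA : FewPrime A) {M : Str} (hM : EE A M) (hp : AlmostPrime M) :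
    ∃ ts : Set (Set Fml), ts.Finite ∧ (∀ p ∈ ts, IsType A p) ∧ DecIn ts M := by
  classical
  obtain ⟨a, ha⟩ := hp
  obtain ⟨M', k, hk, hiso, hat⟩ := renumber ha
  have hMM' : EE M M' := ee_iso hiso
  have hAM' : EE A M' := Eq.trans hM hMM'
  obtain ⟨l, J, s, hs1, hs2⟩ := types_list hA
  have hpar : Par M' (mainQ (tp M' (List.range k)) J s) k l J := by
    refine ⟨hk, fun φ => Iff.rfl, fun j hj => ?_⟩
    obtain ⟨B, b, hB, hb, hsj⟩ := hs1 j hj
    exact ⟨B, b, Eq.trans (Eq.symm hAM') hB, hb, fun φ => by simp [mainQ, hj, hsj]⟩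
  have hlim : IsoStr M' (lim M' (mainQ (tp M' (List.range k)) J s) k l J) := by
    refine lim_iso hA.1 hAM' hpar hat fun B hB hB' => ?_
    obtain ⟨j, hj, b, hb, hsj, hat'⟩ := hs2 B hB hB'
    exact ⟨j, hj, b, hb, fun φ => by simp [mainQ, hj, hsj], hat'⟩
  refine ⟨insert (tp M' (List.range k)) (s '' Set.Iio J),
    ((Set.finite_Iio J).image s).insert _, ?_, _, iso_trans hiso hlim, ?_⟩
  · intro p hpm
    rcases hpm with rfl | ⟨j, hj, rfl⟩
    · exact ⟨M', hAM', _, rfl⟩
    · obtain ⟨B, b, hB, -, hsj⟩ := hs1 j hj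
      exact ⟨B, hB, b, hsj⟩
  · refine diag_rec hpar ?_
    refine rec_comb (J := J + 1)
      (g := fun j n => if mainQ (tp M' (List.range k)) J s j (dec n) then 1 else 0) ?_ ?_
    · intro j hj
      rcases j with _ | j
      · refine Nat.RecursiveIn.oracle _ ⟨tp M' (List.range k), Set.mem_insert _ _, ?_⟩
        rfl
      · refine Nat.RecursiveIn.oracle _ ⟨s j, Set.mem_insert_of_mem _ ⟨j, ?_, rfl⟩, ?_⟩
        · exact Set.mem_Iio.2 (by omega)
        · funext n
          have hjJ : j < J := by omega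
          by_cases h : dec n ∈ s j
          · simp [orc, chi, mainQ, hjJ, h]
          · simp [orc, chi, mainQ, hjJ, h]
    · intro j hj n
      rcases j with _ | j
      · omega
      · have hjJ : ¬ j < J := by omega
        simp [mainQ, hjJ]

theorem main_dec {A : Str} (hA : FewPrime A)
    (ht : ∀ p, IsType A p → ComputablePred fun n => dec n ∈ p) {M : Str} (hM : EE A M)
    (hp : AlmostPrime M) : DecModel M := by
  obtain ⟨ts, -, hty, B, hiso, hrec⟩ := main_rel hA hM hp
  refine ⟨B, hiso, comp_of_rec ?_ hrec⟩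
  rintro g ⟨p, hpm, rfl⟩
  exact partrec_chi (ht p (hty p hpm))

end Pool.Agent.H65.ME
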