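import Pool.Agent.H65.ME.Defs

/-!
# Operations on formulas and the construction (definitions only)
-/

namespace Pool.Agent.H65.ME

/-- `∃ v_1 ... ∃ v_n φ`. -/
def exL (L : List ℕ) (φ : Fml) : Fml := L.foldr Fml.ex φ

/-- `ψ_1 ∧ ... ∧ ψ_n ∧ φ`. -/
def andL (L : List Fml) (φ : Fml) : Fml := L.foldr Fml.and φ

/-- Quantify existentially all variables of `φ` that are not in `S`. -/
def exO (S : List ℕ) (φ : Fml) : Fml :=
  exL ((List.range (cod φ + 1)).filter fun v => decide (v ∉ S)) φ

/-- `φ` (with free variables among `x_0, ..., x_{n-1}`, `n` the length of `a`) with the variable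
`u` replaced by the variable `a_u`. -/
def tr (a : List ℕ) (φ : Fml) : Fml :=
  exL ((List.range a.length).map fun u => cod φ + 1 + a.length + a.sum + u)
    (andL ((List.range a.length).map fun u =>
        .eq (cod φ + 1 + a.length + a.sum + u) (a.getD u 0))
      (exL (List.range (cod φ + 1 + a.length))
        (andL ((List.range a.length).map fun u =>
          .eq u (cod φ + 1 + a.length + a.sum + u)) φ)))

/-- `pull d φ (x_0, ..., x_{l-1})` says: some assignment `s'` with `s' (d_i) = x_i` satisfies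
`φ`. -/
def pull (d : List ℕ) (φ : Fml) : Fml :=
  exL ((List.range d.length).map fun i => cod φ + 1 + d.sum + d.length + i)
    (andL ((List.range d.length).map fun i => .eq (cod φ + 1 + d.sum + d.length + i) i)
      (exL (List.range (cod φ + 1 + d.sum + d.length))
        (andL ((List.range d.length).map fun i =>
          .eq (d.getD i 0) (cod φ + 1 + d.sum + d.length + i)) φ)))

/-- If `φ` is `∃ v ψ`: the formula `ψ` with the variable `v` evaluated at the variable `i`. -/
def wit : Fml → ℕ → Fml
  | .ex v ψ, i => if v = i then ψ else .ex v (.and (.eq v i) ψ)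
  | _, _ => .eq 0 0

/-- `x_m` is different from `x_0, ..., x_{m-1}`. -/
def newv (m : ℕ) : List Fml := (List.range m).map fun i => .neg (.eq m i)

/-- A decision step: decide `φ` negatively (`w = 0`) or positively with the variable `i` as a
witness (`w = i + 1`); the variable `m` becomes a new element. -/
def stepA (m : ℕ) (φ : Fml) (w : ℕ) (θ : Fml) : Fml :=
  andL (newv m) (.and θ (match w with
    | 0 => .neg φ
    | i + 1 => .and φ (wit φ i)))

/-! ## Henkin sequences -/

/-- A sequence of formulas which describes a structure with universe `ℕ` (the variables), seen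
through the assignments in `A` that satisfy `Adm`. -/
structure HSeq (A : Str) (Adm : (ℕ → ℕ) → Prop) (θ : ℕ → Fml) : Prop where
  sat : ∀ t, ∃ r, Adm r ∧ Sat A (θ t) r
  mono : ∀ t r, Adm r → Sat A (θ (t + 1)) r → Sat A (θ t) r
  dist : ∀ i j, i ≠ j → ∃ t, ∀ r, Adm r → Sat A (θ t) r → r i ≠ r j
  comp : ∀ φ, ∃ t, (∀ r, Adm r → Sat A (θ t) r → Sat A φ r) ∨
    (∀ r, Adm r → Sat A (θ t) r → ¬ Sat A φ r)
  witn : ∀ v ψ t, (∀ r, Adm r → Sat A (θ t) r → Sat A (.ex v ψ) r) →
    ∃ t' i, ∀ r, Adm r → Sat A (θ t') r → Sat A ψ (Function.update r v (r i))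

/-- `φ` under the assignment `s` (of elements of the limit structure) is forced. -/
def Forces (A : Str) (Adm : (ℕ → ℕ) → Prop) (θ : ℕ → Fml) (φ : Fml) (s : ℕ → ℕ) : Prop :=
  ∃ t, ∀ r, Adm r → Sat A (θ t) r → Sat A φ (r ∘ s)

/-- The limit structure. -/
def limStr (A : Str) (Adm : (ℕ → ℕ) → Prop) (θ : ℕ → Fml) : Str :=
  ⟨fun i v => ∃ t, ∀ r, Adm r → Sat A (θ t) r → A.R i (v.map r)⟩

/-! ## The kicking construction

Parameters: `k` (the distinguished tuple is `0, ..., k-1`), `l`, `J`, and
`Q : ℕ → Fml → Prop`: `Q 0` is the type `q` of the distinguished tuple, `Q (j+1)` for `j < J`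
is the complete type `s_j` of an `l`-tuple. -/

/-- The state: the current formula, the kicked requirements, the next task. -/
abbrev St := Fml × List ℕ × ℕ

/-- The list coded by the second component of the requirement `i`. -/
def dl (i : ℕ) : List ℕ := Denumerable.ofNat (List ℕ) i.unpair.2

/-- Requirement number `i` is about the type `s_j`, `j = i.unpair.1 < J`, and the tuple
`dl i` of length `l`. -/
def act (l J : ℕ) (i : ℕ) : Prop := i.unpair.1 < J ∧ (dl i).length = l

/-- Strengthening `θ` to `θ'` is harmless for the requirement `i`. -/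
def prot (Q : ℕ → Fml → Prop) (k : ℕ) (θ θ' : Fml) (i : ℕ) : Prop :=
  Q 0 (.neg (exO (List.range k)
    (.and (exO (List.range k ++ dl i) θ) (.neg (exO (List.range k ++ dl i) θ'))))) ∨
  (Q (i.unpair.1 + 1) (pull (dl i) θ') ∧
    Q (i.unpair.1 + 1) (pull (dl i)
      (.and (exO (List.range k ++ dl i) θ) (.neg (exO (List.range k ++ dl i) θ')))))

/-- The new formula of the step `u` (even: decision step, odd: kicking step). -/
def newθ (k : ℕ) (st : St) (u : ℕ) : Fml :=
  if u % 2 = 0 then stepA (k + st.2.2) (dec st.2.2) (u / 2) st.1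
  else .and st.1 (.neg (tr (dl (u / 2).unpair.1) (dec (u / 2).unpair.2)))

/-- The new state of the step `u`. -/
def nxt (k : ℕ) (st : St) (u : ℕ) : St :=
  if u % 2 = 0 then (newθ k st u, st.2.1, st.2.2 + 1)
  else (newθ k st u, (u / 2).unpair.1 :: st.2.1, st.2.2)

/-- The protected requirements of the step `u` are those below this number. -/
def plev (st : St) (u : ℕ) : ℕ := if u % 2 = 0 then st.2.2 else (u / 2).unpair.1

/-- The step `u` is admissible in the state `st`. -/
def Valid (Q : ℕ → Fml → Prop) (k l J : ℕ) (st : St) (u : ℕ) : Prop :=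
  (u % 2 = 0 → u / 2 ≤ k + st.2.2 + 1) ∧
  (u % 2 = 1 → (u / 2).unpair.1 < st.2.2 ∧ act l J (u / 2).unpair.1 ∧
    (u / 2).unpair.1 ∉ st.2.1 ∧ Q ((u / 2).unpair.1.unpair.1 + 1) (dec (u / 2).unpair.2)) ∧
  Q 0 (exO (List.range k) (newθ k st u)) ∧
  ∀ i < plev st u, act l J i → i ∉ st.2.1 → prot Q k st.1 (newθ k st u) i

/-- The initial state. -/
def st0 : St := (.eq 0 0, [], 0)

open Classical in
/-- The run of the construction: always take the least admissible step. -/
noncomputable def run (Q : ℕ → Fml → Prop) (k l J : ℕ) : ℕ → St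
  | 0 => st0
  | t + 1 => if h : ∃ u, Valid Q k l J (run Q k l J t) u
      then nxt k (run Q k l J t) (Nat.find h) else run Q k l J t

/-- The hypotheses on the parameters, for a structure `M` whose distinguished tuple is
`0, ..., k-1`. -/
structure Par (M : Str) (Q : ℕ → Fml → Prop) (k l J : ℕ) : Prop where
  k_pos : 1 ≤ k
  q : ∀ φ, Q 0 φ ↔ φ ∈ tp M (List.range k)
  s : ∀ j < J, ∃ B b, EE M B ∧ List.length b = l ∧ ∀ φ, Q (j + 1) φ ↔ φ ∈ tp B b

/-- Admissible assignments of the main construction. -/
def Adm (k : ℕ) (r : ℕ → ℕ) : Prop := ∀ i < k, r i = i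

/-- The invariant of the construction. -/
structure Inv (M : Str) (k : ℕ) (st : St) : Prop where
  fvs : ∀ v ∈ fv st.1, v < k + st.2.2
  sat : ∃ r, Adm k r ∧ Sat M st.1 r
  dist : ∀ r, Adm k r → Sat M st.1 r → ∀ i < k + st.2.2, ∀ j < k + st.2.2, i ≠ j → r i ≠ r j

end Pool.Agent.H65.ME
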