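import Pool.Agent.H65.ME.Ops

/-!
# ORC: recursion with oracles
-/

namespace Pool.Agent.H65.ME

open Encodable

/-- total functions recursive in `O` -/
def orcRT (O : Set (ℕ →. ℕ)) (G : ℕ → ℕ) : Prop := Nat.RecursiveIn O (fun n => Part.some (G n))

theorem orc_prim {O : Set (ℕ →. ℕ)} {g : ℕ → ℕ} (hg : Primrec g) : orcRT O g :=
  Nat.Primrec.recursiveIn (Primrec.nat_iff.1 hg)

theorem orc_comp {O : Set (ℕ →. ℕ)} {f g : ℕ → ℕ} (hf : orcRT O f) (hg : orcRT O g) :
    orcRT O (fun n => f (g n)) :=
  (Nat.RecursiveIn.comp hf hg).of_eq fun n => by simp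

theorem orc_pair {O : Set (ℕ →. ℕ)} {f g : ℕ → ℕ} (hf : orcRT O f) (hg : orcRT O g) :
    orcRT O (fun n => Nat.pair (f n) (g n)) :=
  (Nat.RecursiveIn.pair hf hg).of_eq fun n => by simp [Seq.seq]

theorem orc_prim₂ {O : Set (ℕ →. ℕ)} {B : ℕ → ℕ → ℕ} (hB : Primrec₂ B) {f g : ℕ → ℕ}
    (hf : orcRT O f) (hg : orcRT O g) : orcRT O (fun n => B (f n) (g n)) := by
  have h1 : Primrec fun y : ℕ => B y.unpair.1 y.unpair.2 :=
    hB.comp (Primrec.fst.comp Primrec.unpair) (Primrec.snd.comp Primrec.unpair)
  have h2 := orc_comp (O := O) (orc_prim h1) (orc_pair hf hg)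
  simpa using h2

/-- iteration -/
theorem orc_iter {O : Set (ℕ →. ℕ)} {h : ℕ →. ℕ} (hh : Nat.RecursiveIn O h) (a : ℕ → ℕ)
    (hs : ∀ t, h (Nat.pair t (a t)) = Part.some (a (t + 1))) : orcRT O a := by
  have h1 : Nat.RecursiveIn O (fun q : ℕ => h q.unpair.2) :=
    (Nat.RecursiveIn.comp hh (orc_prim (O := O) (Primrec.snd.comp Primrec.unpair))).of_eq
      fun n => Part.bind_some _ _
  have h2 := Nat.RecursiveIn.prec (O := O)
    (orc_prim (O := O) (Primrec.const (a 0))) h1
  have h3 : orcRT O (fun n => Nat.pair 0 n) := orc_pair (orc_prim (Primrec.const 0))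
    (orc_prim Primrec.id)
  refine (Nat.RecursiveIn.comp h2 h3).of_eq fun n => ?_
  simp only [Part.bind_eq_bind, Part.bind_some, Nat.unpair_pair]
  induction n with
  | zero => rfl
  | succ n ih =>
    show Part.bind _ _ = _
    rw [ih, Part.bind_some, hs]

/-- The list of the first `N` values of a total function recursive in `O`. -/
theorem rec_list {O : Set (ℕ →. ℕ)} {G : ℕ → ℕ}
    (hG : Nat.RecursiveIn O (fun n => Part.some (G n))) :
    Nat.RecursiveIn O (fun N => Part.some (encode ((List.range N).map G))) := by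
  have hB : Primrec₂ fun (c g : ℕ) => encode (Denumerable.ofNat (List ℕ) c ++ [g]) :=
    Primrec.encode.comp₂ (Primrec.list_concat.comp₂
      ((Primrec.ofNat (List ℕ)).comp₂ Primrec₂.left) Primrec₂.right)
  have h1 : orcRT O (fun q => encode (Denumerable.ofNat (List ℕ) q.unpair.2 ++ [G q.unpair.1])) :=
    orc_prim₂ hB (orc_prim (Primrec.snd.comp Primrec.unpair))
      (orc_comp hG (orc_prim (Primrec.fst.comp Primrec.unpair)))
  refine orc_iter h1 (fun N => encode ((List.range N).map G)) fun t => ?_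
  simp only [Nat.unpair_pair, Denumerable.ofNat_encode]
  rw [List.range_succ, List.map_append]
  rfl

/-- Primitive recursive functions of the input and of finitely many values of `G`. -/
theorem rec_use {O : Set (ℕ →. ℕ)} {G : ℕ → ℕ}
    (hG : Nat.RecursiveIn O (fun n => Part.some (G n))) {B : ℕ → List ℕ → ℕ} (hB : Primrec₂ B)
    {b : ℕ → ℕ} (hb : Primrec b) :
    Nat.RecursiveIn O (fun n => Part.some (B n ((List.range (b n)).map G))) := by
  have h1 : Primrec₂ fun (n c : ℕ) => B n (Denumerable.ofNat (List ℕ) c) :=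
    hB.comp₂ Primrec₂.left ((Primrec.ofNat (List ℕ)).comp₂ Primrec₂.right)
  have h2 : orcRT O (fun N => encode ((List.range N).map G)) := rec_list hG
  have h3 := orc_prim₂ (O := O) h1 (orc_prim Primrec.id) (orc_comp h2 (orc_prim hb))
  refine Nat.RecursiveIn.of_eq h3 fun n => ?_
  simp only [Denumerable.ofNat_encode]
  rfl

theorem orc_rfind {V : ℕ → ℕ} {x u : ℕ} (h0 : V (Nat.pair x u) = 0)
    (h1 : ∀ u' < u, V (Nat.pair x u') ≠ 0) :
    (Nat.rfind fun n => (fun m => decide (m = 0)) <$> (Part.some (V (Nat.pair x n)) : Part ℕ))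
      = Part.some u := by
  apply Part.eq_some_iff.2
  apply Nat.mem_rfind.2
  constructor
  · simp [h0]
  · intro m hm
    simp [h1 m hm]

/-- Iteration with a search: if `V` is recursive in `O`, `F` is primitive recursive and the
sequence `a` satisfies: `a (t + 1) = F (a t) u` for the least `u` with `V (pair (a t) u) = 0`,
then `a` is recursive in `O`. -/
theorem rec_iter {O : Set (ℕ →. ℕ)} {V : ℕ → ℕ}
    (hV : Nat.RecursiveIn O (fun n => Part.some (V n))) {F : ℕ → ℕ → ℕ} (hF : Primrec₂ F)
    {a : ℕ → ℕ}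
    (ha : ∀ t, ∃ u, V (Nat.pair (a t) u) = 0 ∧ (∀ u' < u, V (Nat.pair (a t) u') ≠ 0) ∧
      a (t + 1) = F (a t) u) :
    Nat.RecursiveIn O (fun t => Part.some (a t)) := by
  have h1 := Nat.RecursiveIn.rfind hV
  have h2 := Nat.RecursiveIn.pair (orc_prim (O := O) Primrec.id) h1
  have hF' : Primrec fun y : ℕ => F y.unpair.1 y.unpair.2 :=
    hF.comp (Primrec.fst.comp Primrec.unpair) (Primrec.snd.comp Primrec.unpair)
  have h3 := Nat.RecursiveIn.comp (orc_prim (O := O) hF') h2
  have h4 := Nat.RecursiveIn.comp h3 (orc_prim (O := O) (Primrec.snd.comp Primrec.unpair))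
  refine orc_iter h4 a fun t => ?_
  obtain ⟨u, hu0, hu1, hu2⟩ := ha t
  have h5 := orc_rfind hu0 hu1
  simp only [Part.bind_eq_bind, Part.bind_some, Nat.unpair_pair]
  refine (congrArg (fun z : Part ℕ => (Nat.pair <$> Part.some (a t) <*> z).bind
    (fun y => Part.some (F y.unpair.1 y.unpair.2))) h5).trans ?_
  simp [Seq.seq, hu2]

/-- Evaluation at the least solution of a primitive recursive condition on the sequence `a`. -/
theorem rec_find {O : Set (ℕ →. ℕ)} {a : ℕ → ℕ}
    (ha : Nat.RecursiveIn O (fun t => Part.some (a t))) {E H : ℕ → ℕ → ℕ → ℕ}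
    (hE : Primrec fun p : ℕ × ℕ × ℕ => E p.1 p.2.1 p.2.2)
    (hH : Primrec fun p : ℕ × ℕ × ℕ => H p.1 p.2.1 p.2.2) {D : ℕ → ℕ}
    (hD : ∀ x, ∃ t, E x (a t) (a (t + 1)) = 0)
    (hD' : ∀ x t, E x (a t) (a (t + 1)) = 0 → D x = H x (a t) (a (t + 1))) :
    Nat.RecursiveIn O (fun x => Part.some (D x)) := by
  classical
  have ha' : orcRT O a := ha
  -- a primitive recursive function of three arguments
  have h3 : ∀ {K : ℕ → ℕ → ℕ → ℕ}, (Primrec fun p : ℕ × ℕ × ℕ => K p.1 p.2.1 p.2.2) →
      orcRT O (fun q => K q.unpair.1 (a q.unpair.2) (a (q.unpair.2 + 1))) := by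
    intro K hK
    have hK' : Primrec fun y : ℕ => K y.unpair.1 y.unpair.2.unpair.1 y.unpair.2.unpair.2 :=
      hK.comp (Primrec.pair (Primrec.fst.comp Primrec.unpair)
        (Primrec.pair (Primrec.fst.comp (Primrec.unpair.comp (Primrec.snd.comp Primrec.unpair)))
          (Primrec.snd.comp (Primrec.unpair.comp (Primrec.snd.comp Primrec.unpair)))))
    have hl : orcRT O (fun q => q.unpair.1) := orc_prim (Primrec.fst.comp Primrec.unpair)
    have hr : orcRT O (fun q => a q.unpair.2) :=
      orc_comp ha' (orc_prim (Primrec.snd.comp Primrec.unpair))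
    have hr' : orcRT O (fun q => a (q.unpair.2 + 1)) :=
      orc_comp ha' (orc_prim (Primrec.succ.comp (Primrec.snd.comp Primrec.unpair)))
    have := orc_comp (orc_prim (O := O) hK') (orc_pair hl (orc_pair hr hr'))
    simpa using this
  have hV := h3 hE
  have hW := h3 hH
  -- the least solution
  have h1 := Nat.RecursiveIn.rfind hV
  have h2 : orcRT O (fun x => Nat.find (hD x)) := by
    refine Nat.RecursiveIn.of_eq h1 fun x => ?_
    have := orc_rfind (V := fun q => E q.unpair.1 (a q.unpair.2) (a (q.unpair.2 + 1)))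
      (x := x) (u := Nat.find (hD x)) (by simpa using Nat.find_spec (hD x))
      (by
        intro u' hu'
        simpa using Nat.find_min (hD x) hu')
    exact this
  have h4 := orc_comp hW (orc_pair (orc_prim (O := O) Primrec.id) h2)
  refine Nat.RecursiveIn.of_eq h4 fun x => ?_
  have h5 := hD' x (Nat.find (hD x)) (Nat.find_spec (hD x))
  simp only [Nat.unpair_pair, id_eq, h5]

/-- Finitely many oracles can be combined. -/
theorem rec_comb {O : Set (ℕ →. ℕ)} {J : ℕ} {g : ℕ → ℕ → ℕ}
    (hg : ∀ j < J, Nat.RecursiveIn O (fun n => Part.some (g j n)))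
    (h0 : ∀ j ≥ J, ∀ n, g j n = 0) :
    Nat.RecursiveIn O (fun y => Part.some (g y.unpair.1 y.unpair.2)) := by
  induction J generalizing g with
  | zero =>
    have h1 : orcRT O (fun _ => 0) := orc_prim (Primrec.const 0)
    refine Nat.RecursiveIn.of_eq h1 fun y => ?_
    rw [h0 _ (Nat.zero_le _)]
  | succ J ih =>
    have h1 : orcRT O (fun y => (fun j n => if j = J then 0 else g j n) y.unpair.1 y.unpair.2) := by
      refine ih (g := fun j n => if j = J then 0 else g j n) ?_ ?_
      · intro j hj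
        have : (fun n => Part.some (if j = J then 0 else g j n)) = fun n => Part.some (g j n) := by
          funext n
          rw [if_neg (by omega)]
        rw [this]
        exact hg j (by omega)
      · intro j hj n
        by_cases hjJ : j = J
        · simp [hjJ]
        · rw [if_neg hjJ]
          exact h0 j (by omega) n
    have h2 : orcRT O (fun y => g J y.unpair.2) :=
      orc_comp (f := g J) (hg J (by omega)) (orc_prim (Primrec.snd.comp Primrec.unpair))
    have hB : Primrec₂ fun (y c : ℕ) => if y.unpair.1 = J then c else 0 :=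
      Primrec₂.mk (Primrec.ite (Primrec.eq.comp
        (Primrec.fst.comp (Primrec.unpair.comp Primrec.fst)) (Primrec.const J)) Primrec.snd
        (Primrec.const 0))
    have h3 : orcRT O (fun y => if y.unpair.1 = J then g J y.unpair.2 else 0) :=
      orc_prim₂ hB (orc_prim Primrec.id) h2
    have h4 := orc_prim₂ (O := O) Primrec.nat_add h1 h3
    refine Nat.RecursiveIn.of_eq h4 fun y => ?_
    by_cases hy : y.unpair.1 = J
    · simp [hy]
    · simp [hy]

theorem orc_chi_eq (P : ℕ → Prop) [DecidablePred P] :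
    chi P = fun n => Part.some (if P n then 1 else 0) := by
  funext n
  unfold chi
  congr

/-- With computable oracles one computes only computable predicates. -/
theorem comp_of_rec {O : Set (ℕ →. ℕ)} (hO : ∀ g ∈ O, Nat.Partrec g) {P : ℕ → Prop}
    (h : Nat.RecursiveIn O (chi P)) : ComputablePred P := by
  classical
  have h1 : Nat.Partrec (chi P) := Nat.RecursiveIn.partrec_of_oracle hO h
  rw [orc_chi_eq P] at h1
  have h2 : Partrec (fun n : ℕ => (Part.some (if P n then 1 else 0) : Part ℕ)) :=
    Partrec.nat_iff.2 h1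
  have h3 : Computable (fun n : ℕ => if P n then 1 else 0) := h2
  refine ⟨inferInstance, ?_⟩
  have h4 : Primrec fun m : ℕ => decide (m = 1) :=
    (Primrec.eq.comp Primrec.id (Primrec.const 1)).decide
  refine (h4.to_comp.comp h3).of_eq fun n => ?_
  by_cases hn : P n <;> simp [hn]

theorem partrec_chi {P : ℕ → Prop} (h : ComputablePred P) : Nat.Partrec (chi P) := by
  obtain ⟨hdec, hc⟩ := h
  rw [orc_chi_eq P]
  have h1 : Computable (fun n : ℕ => cond (decide (P n)) 1 0) :=
    Computable.cond hc (Computable.const 1) (Computable.const 0)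
  have h2 : Computable (fun n : ℕ => if P n then 1 else 0) := by
    refine h1.of_eq fun n => ?_
    by_cases hn : P n <;> simp [hn]
  exact Partrec.nat_iff.1 h2

end Pool.Agent.H65.ME
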