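import Pool.Agent.H65.ME.Syn1

/-!
# PRIM: the operations are primitive recursive
-/

namespace Pool.Agent.H65.ME

/-- Formulas are in bijection with the natural numbers. -/
def fmlEquiv : Fml ≃ ℕ := ⟨cod, dec, dec_cod, cod_dec⟩

instance : Denumerable Fml := Denumerable.mk' fmlEquiv

theorem encode_fml (φ : Fml) : Encodable.encode φ = cod φ := rfl

theorem prim_cod : Primrec cod := Primrec.encode

theorem prim_dec : Primrec dec := Primrec.ofNat Fml

/-- a formula valued function is primitive recursive if its code is -/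
theorem prim_of_cod {α : Type*} [Primcodable α] {f : α → Fml} (h : Primrec fun a => cod (f a)) :
    Primrec f := Primrec.encode_iff.1 h

theorem prim_neg : Primrec Fml.neg := by
  apply prim_of_cod
  exact Primrec.nat_add.comp (Primrec.nat_mul.comp (Primrec.const 5) prim_cod) (Primrec.const 2)

theorem prim_and : Primrec₂ Fml.and := by
  apply Primrec₂.mk
  apply prim_of_cod
  exact Primrec.nat_add.comp (Primrec.nat_mul.comp (Primrec.const 5)
    (Primrec₂.natPair.comp (prim_cod.comp Primrec.fst) (prim_cod.comp Primrec.snd)))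
    (Primrec.const 3)

theorem prim_eq : Primrec₂ Fml.eq := by
  apply Primrec₂.mk
  apply prim_of_cod
  exact Primrec.nat_add.comp (Primrec.nat_mul.comp (Primrec.const 5)
    (Primrec₂.natPair.comp Primrec.fst Primrec.snd)) (Primrec.const 1)

theorem prim_ex : Primrec₂ Fml.ex := by
  apply Primrec₂.mk
  apply prim_of_cod
  exact Primrec.nat_add.comp (Primrec.nat_mul.comp (Primrec.const 5)
    (Primrec₂.natPair.comp Primrec.fst (prim_cod.comp Primrec.snd))) (Primrec.const 4)

theorem prim_exL : Primrec₂ exL := by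
  apply Primrec₂.mk
  exact Primrec.list_foldr (h := fun (_ : List ℕ × Fml) (q : ℕ × Fml) => Fml.ex q.1 q.2)
    Primrec.fst Primrec.snd
    (Primrec₂.mk (prim_ex.comp (Primrec.fst.comp Primrec.snd) (Primrec.snd.comp Primrec.snd)))

theorem prim_andL : Primrec₂ andL := by
  apply Primrec₂.mk
  exact Primrec.list_foldr (h := fun (_ : List Fml × Fml) (q : Fml × Fml) => Fml.and q.1 q.2)
    Primrec.fst Primrec.snd
    (Primrec₂.mk (prim_and.comp (Primrec.fst.comp Primrec.snd) (Primrec.snd.comp Primrec.snd)))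

theorem prim_notMem : PrimrecRel fun (v : ℕ) (S : List ℕ) => v ∉ S := by
  have h1 : PrimrecRel fun (S : List ℕ) (v : ℕ) => ∃ a ∈ S, a = v :=
    PrimrecRel.exists_mem_list (R := fun a b : ℕ => a = b) Primrec.eq
  have h2 : PrimrecRel fun (S : List ℕ) (v : ℕ) => v ∈ S :=
    h1.of_eq fun S v => by simp
  exact PrimrecRel.not (R := fun (v : ℕ) (S : List ℕ) => v ∈ S) h2.swap

theorem prim_exO : Primrec₂ exO := by
  have h1 : Primrec₂ fun (L : List ℕ) (S : List ℕ) => L.filter (fun v => decide (v ∉ S)) :=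
    PrimrecRel.listFilter (R := fun (v : ℕ) (S : List ℕ) => v ∉ S) prim_notMem
  apply Primrec₂.mk
  exact prim_exL.comp
    (h1.comp (Primrec.list_range.comp (Primrec.succ.comp (prim_cod.comp Primrec.snd)))
      Primrec.fst) Primrec.snd

theorem prim_sum : Primrec (List.sum : List ℕ → ℕ) := by
  have h := Primrec.list_foldr (f := fun L : List ℕ => L) (g := fun _ : List ℕ => 0)
    (h := fun (_ : List ℕ) (q : ℕ × ℕ) => q.1 + q.2) Primrec.id (Primrec.const 0)
    (Primrec₂.mk (Primrec.nat_add.comp (Primrec.fst.comp Primrec.snd)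
      (Primrec.snd.comp Primrec.snd)))
  exact h.of_eq fun L => by
    rw [List.sum_eq_foldr]

/-- list of formulas indexed by a range -/
theorem prim_mapF {α : Type*} [Primcodable α] {N : α → ℕ} (hN : Primrec N) {g : α → ℕ → Fml}
    (hg : Primrec₂ g) : Primrec fun a => (List.range (N a)).map (g a) :=
  Primrec.list_map (Primrec.list_range.comp hN) hg

theorem prim_mapN {α : Type*} [Primcodable α] {N : α → ℕ} (hN : Primrec N) {g : α → ℕ → ℕ}
    (hg : Primrec₂ g) : Primrec fun a => (List.range (N a)).map (g a) :=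
  Primrec.list_map (Primrec.list_range.comp hN) hg

theorem prim_tr : Primrec₂ tr := by
  apply Primrec₂.mk
  -- the shift
  have hlen : Primrec fun p : List ℕ × Fml => p.1.length := Primrec.list_length.comp Primrec.fst
  have hC : Primrec fun p : List ℕ × Fml => cod p.2 + 1 + p.1.length :=
    Primrec.nat_add.comp (Primrec.succ.comp (prim_cod.comp Primrec.snd)) hlen
  have hM : Primrec fun p : List ℕ × Fml => cod p.2 + 1 + p.1.length + p.1.sum :=
    Primrec.nat_add.comp hC (prim_sum.comp Primrec.fst)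
  have hMu : Primrec₂ fun (p : List ℕ × Fml) (u : ℕ) =>
      cod p.2 + 1 + p.1.length + p.1.sum + u :=
    Primrec₂.mk (Primrec.nat_add.comp (hM.comp Primrec.fst) Primrec.snd)
  have hg : Primrec₂ fun (p : List ℕ × Fml) (u : ℕ) => p.1.getD u 0 :=
    Primrec₂.mk ((Primrec.list_getD 0).comp (Primrec.fst.comp Primrec.fst) Primrec.snd)
  have e1 : Primrec₂ fun (p : List ℕ × Fml) (u : ℕ) =>
      Fml.eq (cod p.2 + 1 + p.1.length + p.1.sum + u) (p.1.getD u 0) :=
    prim_eq.comp₂ hMu hg
  have e2 : Primrec₂ fun (p : List ℕ × Fml) (u : ℕ) =>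
      Fml.eq u (cod p.2 + 1 + p.1.length + p.1.sum + u) :=
    prim_eq.comp₂ Primrec₂.right hMu
  exact prim_exL.comp (prim_mapN hlen hMu) (prim_andL.comp (prim_mapF hlen e1)
    (prim_exL.comp (Primrec.list_range.comp hC) (prim_andL.comp (prim_mapF hlen e2)
      Primrec.snd)))

theorem prim_pull : Primrec₂ pull := by
  apply Primrec₂.mk
  have hlen : Primrec fun p : List ℕ × Fml => p.1.length := Primrec.list_length.comp Primrec.fst
  have hM : Primrec fun p : List ℕ × Fml => cod p.2 + 1 + p.1.sum + p.1.length :=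
    Primrec.nat_add.comp (Primrec.nat_add.comp (Primrec.succ.comp (prim_cod.comp Primrec.snd))
      (prim_sum.comp Primrec.fst)) hlen
  have hMu : Primrec₂ fun (p : List ℕ × Fml) (u : ℕ) =>
      cod p.2 + 1 + p.1.sum + p.1.length + u :=
    Primrec₂.mk (Primrec.nat_add.comp (hM.comp Primrec.fst) Primrec.snd)
  have hg : Primrec₂ fun (p : List ℕ × Fml) (u : ℕ) => p.1.getD u 0 :=
    Primrec₂.mk ((Primrec.list_getD 0).comp (Primrec.fst.comp Primrec.fst) Primrec.snd)
  have e1 : Primrec₂ fun (p : List ℕ × Fml) (u : ℕ) =>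
      Fml.eq (cod p.2 + 1 + p.1.sum + p.1.length + u) u :=
    prim_eq.comp₂ hMu Primrec₂.right
  have e2 : Primrec₂ fun (p : List ℕ × Fml) (u : ℕ) =>
      Fml.eq (p.1.getD u 0) (cod p.2 + 1 + p.1.sum + p.1.length + u) :=
    prim_eq.comp₂ hg hMu
  exact prim_exL.comp (prim_mapN hlen hMu) (prim_andL.comp (prim_mapF hlen e1)
    (prim_exL.comp (Primrec.list_range.comp hM) (prim_andL.comp (prim_mapF hlen e2)
      Primrec.snd)))

/-- `wit φ i` is computed from `cod φ % 5` and `cod φ / 5`. -/
theorem prim_wit : Primrec₂ wit := by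
  have hd : Primrec fun p : Fml × ℕ => cod p.1 / 5 :=
    Primrec.nat_div.comp (prim_cod.comp Primrec.fst) (Primrec.const 5)
  have hm : Primrec fun p : Fml × ℕ => cod p.1 % 5 :=
    Primrec.nat_mod.comp (prim_cod.comp Primrec.fst) (Primrec.const 5)
  have hv : Primrec fun p : Fml × ℕ => (cod p.1 / 5).unpair.1 :=
    Primrec.fst.comp (Primrec.unpair.comp hd)
  have hψ : Primrec fun p : Fml × ℕ => dec (cod p.1 / 5).unpair.2 :=
    prim_dec.comp (Primrec.snd.comp (Primrec.unpair.comp hd))
  have h1 : Primrec fun p : Fml × ℕ => if cod p.1 % 5 = 4 then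
      (if (cod p.1 / 5).unpair.1 = p.2 then dec (cod p.1 / 5).unpair.2
        else Fml.ex (cod p.1 / 5).unpair.1
          (.and (.eq (cod p.1 / 5).unpair.1 p.2) (dec (cod p.1 / 5).unpair.2)))
      else .eq 0 0 :=
    Primrec.ite (Primrec.eq.comp hm (Primrec.const 4))
      (Primrec.ite (Primrec.eq.comp hv Primrec.snd) hψ
        (prim_ex.comp hv (prim_and.comp (prim_eq.comp hv Primrec.snd) hψ)))
      (Primrec.const _)
  apply Primrec₂.mk
  refine h1.of_eq fun p => ?_
  obtain ⟨φ, i⟩ := p
  cases φ with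
  | rel j v =>
    have : cod (Fml.rel j v) % 5 ≠ 4 := by
      simp only [cod]
      omega
    simp only [this, if_false]
    rfl
  | eq j v =>
    have : cod (Fml.eq j v) % 5 ≠ 4 := by
      simp only [cod]
      omega
    simp only [this, if_false]
    rfl
  | neg ψ =>
    have : cod (Fml.neg ψ) % 5 ≠ 4 := by
      simp only [cod]
      omega
    simp only [this, if_false]
    rfl
  | and ψ χ =>
    have : cod (Fml.and ψ χ) % 5 ≠ 4 := by
      simp only [cod]
      omega
    simp only [this, if_false]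
    rfl
  | ex v ψ =>
    have e1 : cod (Fml.ex v ψ) % 5 = 4 := by
      simp only [cod]
      omega
    have e2 : cod (Fml.ex v ψ) / 5 = Nat.pair v (cod ψ) := by
      simp only [cod]
      omega
    simp only [e1, e2, Nat.unpair_pair, dec_cod, if_true]
    rfl

theorem prim_newv : Primrec newv := by
  exact prim_mapF Primrec.id (g := fun m i => Fml.neg (Fml.eq m i))
    (Primrec₂.mk (prim_neg.comp (prim_eq.comp Primrec.fst Primrec.snd)))

theorem prim_stepA : Primrec fun p : ℕ × Fml × ℕ × Fml => stepA p.1 p.2.1 p.2.2.1 p.2.2.2 := by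
  have hφ : Primrec fun p : ℕ × Fml × ℕ × Fml => p.2.1 := Primrec.fst.comp Primrec.snd
  have hw : Primrec fun p : ℕ × Fml × ℕ × Fml => p.2.2.1 :=
    Primrec.fst.comp (Primrec.snd.comp Primrec.snd)
  have hθ : Primrec fun p : ℕ × Fml × ℕ × Fml => p.2.2.2 :=
    Primrec.snd.comp (Primrec.snd.comp Primrec.snd)
  have hc : Primrec fun p : ℕ × Fml × ℕ × Fml =>
      (Nat.casesOn p.2.2.1 (Fml.neg p.2.1) (fun i => Fml.and p.2.1 (wit p.2.1 i)) : Fml) :=
    Primrec.nat_casesOn hw (prim_neg.comp hφ)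
      (Primrec₂.mk (prim_and.comp (hφ.comp Primrec.fst)
        (prim_wit.comp (hφ.comp Primrec.fst) Primrec.snd)))
  refine (prim_andL.comp (prim_newv.comp Primrec.fst) (prim_and.comp hθ hc)).of_eq fun p => ?_
  obtain ⟨m, φ, w, θ⟩ := p
  cases w <;> rfl

theorem prim_dl : Primrec dl :=
  (Primrec.ofNat (List ℕ)).comp (Primrec.snd.comp Primrec.unpair)

theorem prim_newθ (k : ℕ) : Primrec₂ (newθ k) := by
  apply Primrec₂.mk
  have hθ : Primrec fun p : St × ℕ => p.1.1 := Primrec.fst.comp Primrec.fst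
  have hn : Primrec fun p : St × ℕ => p.1.2.2 :=
    Primrec.snd.comp (Primrec.snd.comp Primrec.fst)
  have hu2 : Primrec fun p : St × ℕ => p.2 / 2 :=
    Primrec.nat_div.comp Primrec.snd (Primrec.const 2)
  have hum : Primrec fun p : St × ℕ => p.2 % 2 :=
    Primrec.nat_mod.comp Primrec.snd (Primrec.const 2)
  have h1 : Primrec fun p : St × ℕ => stepA (k + p.1.2.2) (dec p.1.2.2) (p.2 / 2) p.1.1 :=
    prim_stepA.comp (Primrec.pair (Primrec.nat_add.comp (Primrec.const k) hn)
      (Primrec.pair (prim_dec.comp hn) (Primrec.pair hu2 hθ)))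
  have h2 : Primrec fun p : St × ℕ =>
      Fml.and p.1.1 (.neg (tr (dl (p.2 / 2).unpair.1) (dec (p.2 / 2).unpair.2))) :=
    prim_and.comp hθ (prim_neg.comp (prim_tr.comp
      (prim_dl.comp (Primrec.fst.comp (Primrec.unpair.comp hu2)))
      (prim_dec.comp (Primrec.snd.comp (Primrec.unpair.comp hu2)))))
  exact Primrec.ite (Primrec.eq.comp hum (Primrec.const 0)) h1 h2

theorem prim_nxt (k : ℕ) : Primrec₂ (nxt k) := by
  apply Primrec₂.mk
  have hL : Primrec fun p : St × ℕ => p.1.2.1 :=
    Primrec.fst.comp (Primrec.snd.comp Primrec.fst)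
  have hn : Primrec fun p : St × ℕ => p.1.2.2 :=
    Primrec.snd.comp (Primrec.snd.comp Primrec.fst)
  have hu2 : Primrec fun p : St × ℕ => p.2 / 2 :=
    Primrec.nat_div.comp Primrec.snd (Primrec.const 2)
  have hum : Primrec fun p : St × ℕ => p.2 % 2 :=
    Primrec.nat_mod.comp Primrec.snd (Primrec.const 2)
  have hN : Primrec fun p : St × ℕ => newθ k p.1 p.2 := prim_newθ k
  have h1 : Primrec fun p : St × ℕ => ((newθ k p.1 p.2, p.1.2.1, p.1.2.2 + 1) : St) :=
    Primrec.pair hN (Primrec.pair hL (Primrec.succ.comp hn))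
  have h2 : Primrec fun p : St × ℕ =>
      ((newθ k p.1 p.2, (p.2 / 2).unpair.1 :: p.1.2.1, p.1.2.2) : St) :=
    Primrec.pair hN (Primrec.pair
      (Primrec.list_cons.comp (Primrec.fst.comp (Primrec.unpair.comp hu2)) hL) hn)
  exact Primrec.ite (Primrec.eq.comp hum (Primrec.const 0)) h1 h2

theorem prim_plev : Primrec₂ plev := by
  apply Primrec₂.mk
  have hn : Primrec fun p : St × ℕ => p.1.2.2 :=
    Primrec.snd.comp (Primrec.snd.comp Primrec.fst)
  have hu2 : Primrec fun p : St × ℕ => p.2 / 2 :=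
    Primrec.nat_div.comp Primrec.snd (Primrec.const 2)
  have hum : Primrec fun p : St × ℕ => p.2 % 2 :=
    Primrec.nat_mod.comp Primrec.snd (Primrec.const 2)
  exact Primrec.ite (Primrec.eq.comp hum (Primrec.const 0)) hn
    (Primrec.fst.comp (Primrec.unpair.comp hu2))

theorem prim_act (l J : ℕ) : PrimrecPred (act l J) := by
  have h1 : PrimrecPred fun i : ℕ => i.unpair.1 < J :=
    Primrec.nat_lt.comp (Primrec.fst.comp Primrec.unpair) (Primrec.const J)
  have h2 : PrimrecPred fun i : ℕ => (dl i).length = l :=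
    Primrec.eq.comp (Primrec.list_length.comp prim_dl) (Primrec.const l)
  exact h1.and h2

end Pool.Agent.H65.ME
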