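import Pool.Agent.H65.ME.Chk
import Pool.Agent.H65.ME.Orc
import Pool.Agent.H65.ME.Lim

/-!
# REC: the elementary diagram of the limit structure is recursive in the types
-/

namespace Pool.Agent.H65.ME

open Encodable

variable {M : Str} {Q : ℕ → Fml → Prop} {k l J : ℕ}

open Classical in
theorem run_rec (hp : Par M Q k l J) {O : Set (ℕ →. ℕ)}
    (hO : Nat.RecursiveIn O
      (fun y => Part.some (if Q y.unpair.1 (dec y.unpair.2) then 1 else 0))) :
    Nat.RecursiveIn O (fun t => Part.some (encode (run Q k l J t))) := by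
  obtain ⟨B, b, hB, hb, hval⟩ := valid_test k l J
  have hV := rec_use hO hB hb
  have hF : Primrec₂ fun a u : ℕ => encode (nxt k (Denumerable.ofNat St a) u) :=
    Primrec.encode.comp ((prim_nxt k).comp ((Primrec.ofNat St).comp Primrec.fst) Primrec.snd)
  refine rec_iter hV hF (a := fun t => encode (run Q k l J t)) fun t => ?_
  obtain ⟨u, hv, hmin, hrun⟩ := run_succ hp t
  refine ⟨u, ?_, fun u' hu' => ?_, ?_⟩
  · have := hval Q (run Q k l J t) u
    rw [if_pos hv] at this
    exact this
  · have h1 := hval Q (run Q k l J t) u'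
    rw [if_neg (hmin u' hu')] at h1
    intro h0
    have h2 : (0 : ℕ) = 1 := by
      rw [← h0]
      exact h1
    exact absurd h2 (by norm_num)
  · rw [hrun, Denumerable.ofNat_encode]

/-- The number of the formula whose truth under the identity is asked by `x`. -/
def recN (x : ℕ) : ℕ :=
  cod (tr (Denumerable.ofNat (List ℕ) x.unpair.2 ++ (List.range (x.unpair.1 + 1)).map fun _ => 0)
    (dec x.unpair.1))

theorem prim_recN : Primrec recN := by
  refine prim_cod.comp (prim_tr.comp (Primrec.list_append.comp
    ((Primrec.ofNat (List ℕ)).comp (Primrec.snd.comp Primrec.unpair))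
    (Primrec.list_map (Primrec.list_range.comp
      (Primrec.succ.comp (Primrec.fst.comp Primrec.unpair))) (Primrec.const 0).to₂))
    (prim_dec.comp (Primrec.fst.comp Primrec.unpair)))

theorem rec_diag_iff (N : Str) (x : ℕ) : diag N x ↔ Sat N (dec (recN x)) id := by
  unfold recN diag
  rw [dec_cod, sat_tr]
  · refine sat_congr N _ fun v hv => ?_
    unfold asg
    simp only [id]
    by_cases h : v < (Denumerable.ofNat (List ℕ) x.unpair.2).length
    · rw [List.getD_append _ _ _ _ h]
    · have h' := not_lt.1 h
      rw [List.getD_append_right _ _ _ _ h', List.getD_eq_default _ _ h']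
      symm
      by_cases h2 : v - (Denumerable.ofNat (List ℕ) x.unpair.2).length <
          ((List.range (x.unpair.1 + 1)).map fun _ => 0).length
      · rw [List.getD_eq_getElem _ _ h2]
        simp
      · rw [List.getD_eq_default _ _ (not_lt.1 h2)]
  · intro v hv
    have h1 := fv_le _ v hv
    rw [cod_dec] at h1
    simp
    omega

open Classical in
/-- For `x` with formula `φ` and tuple `a` put `ψ = tr (a ++ zeros) φ` (`cod φ + 1` zeros), so
that `diag (lim ..) x` is the truth of `ψ` in the limit under `id`, and `n = cod ψ`. Search `t`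
with `(run t).2.2 = n`, `(run (t+1)).2.2 = n + 1` (`run_task`); the answer is negative iff
`(run (t+1)).1 = stepA (k + n) (dec n) 0 (run t).1`. Use `rec_find`. -/
theorem diag_rec (hp : Par M Q k l J) {O : Set (ℕ →. ℕ)}
    (hO : Nat.RecursiveIn O
      (fun y => Part.some (if Q y.unpair.1 (dec y.unpair.2) then 1 else 0))) :
    Nat.RecursiveIn O (chi (diag (lim M Q k l J))) := by
  have hS : Primrec fun p : ℕ × ℕ × ℕ => Denumerable.ofNat St p.2.1 :=
    (Primrec.ofNat St).comp (Primrec.fst.comp Primrec.snd)
  have hS' : Primrec fun p : ℕ × ℕ × ℕ => Denumerable.ofNat St p.2.2 :=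
    (Primrec.ofNat St).comp (Primrec.snd.comp Primrec.snd)
  have hn : Primrec fun p : ℕ × ℕ × ℕ => recN p.1 := prim_recN.comp Primrec.fst
  have hE : Primrec fun p : ℕ × ℕ × ℕ =>
      (if (Denumerable.ofNat St p.2.1).2.2 = recN p.1 ∧
        (Denumerable.ofNat St p.2.2).2.2 = recN p.1 + 1 then 0 else 1 : ℕ) := by
    refine Primrec.ite ?_ (Primrec.const 0) (Primrec.const 1)
    exact PrimrecPred.and
      (Primrec.eq.comp (Primrec.snd.comp (Primrec.snd.comp hS)) hn)
      (Primrec.eq.comp (Primrec.snd.comp (Primrec.snd.comp hS')) (Primrec.succ.comp hn))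
  have hH : Primrec fun p : ℕ × ℕ × ℕ =>
      (if cod (Denumerable.ofNat St p.2.2).1 =
        cod (stepA (k + recN p.1) (dec (recN p.1)) 0 (Denumerable.ofNat St p.2.1).1)
        then 0 else 1 : ℕ) := by
    refine Primrec.ite ?_ (Primrec.const 0) (Primrec.const 1)
    refine Primrec.eq.comp (prim_cod.comp (Primrec.fst.comp hS')) (prim_cod.comp ?_)
    exact prim_stepA.comp (Primrec.pair (Primrec.nat_add.comp (Primrec.const k) hn)
      (Primrec.pair (prim_dec.comp hn) (Primrec.pair (Primrec.const 0) (Primrec.fst.comp hS))))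
  have hmain := rec_find (run_rec hp hO)
    (E := fun x a a' => (if (Denumerable.ofNat St a).2.2 = recN x ∧
        (Denumerable.ofNat St a').2.2 = recN x + 1 then 0 else 1 : ℕ))
    (H := fun x a a' => (if cod (Denumerable.ofNat St a').1 =
        cod (stepA (k + recN x) (dec (recN x)) 0 (Denumerable.ofNat St a).1)
        then 0 else 1 : ℕ)) hE hH
    (D := fun x => if diag (lim M Q k l J) x then 1 else 0) ?_ ?_
  · exact hmain
  · intro x
    obtain ⟨t, w, -, h1, h2, -⟩ := run_task hp (recN x)
    refine ⟨t, ?_⟩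
    simp only [Denumerable.ofNat_encode]
    rw [if_pos ⟨h1, h2⟩]
  · intro x t hE0
    simp only [Denumerable.ofNat_encode] at hE0 ⊢
    have h12 : (run Q k l J t).2.2 = recN x ∧ (run Q k l J (t + 1)).2.2 = recN x + 1 := by
      by_contra hcon
      rw [if_neg hcon] at hE0
      exact absurd hE0 (by norm_num)
    obtain ⟨h1, h2⟩ := h12
    obtain ⟨u, -, -, hrun⟩ := run_succ hp t
    have hu : u % 2 = 0 := by
      by_contra hu
      have : (run Q k l J (t + 1)).2.2 = (run Q k l J t).2.2 := by
        rw [hrun]
        simp [nxt, hu]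
      omega
    have hθ : (run Q k l J (t + 1)).1 =
        stepA (k + recN x) (dec (recN x)) (u / 2) (run Q k l J t).1 := by
      rw [hrun]
      simp [nxt, newθ, hu, h1]
    have hl := lim_run hp (t + 1)
    by_cases hP : cod (run Q k l J (t + 1)).1 =
        cod (stepA (k + recN x) (dec (recN x)) 0 (run Q k l J t).1)
    · rw [if_pos hP]
      have hP' : (run Q k l J (t + 1)).1 =
          stepA (k + recN x) (dec (recN x)) 0 (run Q k l J t).1 := by
        have := congrArg dec hP
        rwa [dec_cod, dec_cod] at this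
      rw [hP'] at hl
      have h3 := ((sat_stepA_zero _ _ _ _ _).1 hl).2.2
      rw [← rec_diag_iff] at h3
      rw [if_neg h3]
    · rw [if_neg hP]
      rcases hw : u / 2 with _ | i
      · rw [hw] at hθ
        exact absurd (congrArg cod hθ) hP
      · rw [hθ, hw] at hl
        have h3 := ((sat_stepA_succ _ _ _ _ _ _).1 hl).2.2.1
        rw [← rec_diag_iff] at h3
        rw [if_pos h3]

end Pool.Agent.H65.ME
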