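import Pool.Agent.H65.ME.Val

/-!
# RUN: the run of the construction
-/

namespace Pool.Agent.H65.ME

variable {M : Str} {Q : ℕ → Fml → Prop} {k l J : ℕ}

lemma run_nxt_fst (k : ℕ) (st : St) (u : ℕ) : (nxt k st u).1 = newθ k st u := by
  unfold nxt
  split <;> rfl

lemma run_newθ_sat (B : Str) (r : ℕ → ℕ) (st : St) (u : ℕ) (h : Sat B (newθ k st u) r) :
    Sat B st.1 r := by
  unfold newθ at h
  split at h
  · rcases hw : u / 2 with _ | i
    · rw [hw, sat_stepA_zero] at h
      exact h.2.1
    · rw [hw, sat_stepA_succ] at h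
      exact h.2.1
  · exact h.1

open Classical in
theorem run_inv (hp : Par M Q k l J) (t : ℕ) : Inv M k (run Q k l J t) := by
  induction t with
  | zero => exact inv_st0 hp.k_pos
  | succ t ih =>
    have h := valid_ex hp ih
    rw [run, dif_pos h]
    exact inv_nxt hp ih (Nat.find_spec h)

open Classical in
theorem run_succ (hp : Par M Q k l J) (t : ℕ) :
    ∃ u, Valid Q k l J (run Q k l J t) u ∧ (∀ u' < u, ¬ Valid Q k l J (run Q k l J t) u') ∧
      run Q k l J (t + 1) = nxt k (run Q k l J t) u := by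
  have h := valid_ex hp (run_inv hp t)
  refine ⟨Nat.find h, Nat.find_spec h, fun u' hu' => Nat.find_min h hu', ?_⟩
  rw [run, dif_pos h]

/-- The formulas get stronger (under all assignments, in all structures). -/
theorem run_mono (hp : Par M Q k l J) {t t' : ℕ} (h : t ≤ t') (B : Str) (r : ℕ → ℕ)
    (hs : Sat B (run Q k l J t').1 r) : Sat B (run Q k l J t).1 r := by
  induction t', h using Nat.le_induction with
  | base => exact hs
  | succ n hn ih =>
    apply ih
    obtain ⟨u, _, _, hu⟩ := run_succ hp n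
    rw [hu, run_nxt_fst] at hs
    exact run_newθ_sat B r _ u hs

lemma run_even (_hp : Par M Q k l J) {t u : ℕ} (hu : run Q k l J (t + 1) = nxt k (run Q k l J t) u)
    (h : u % 2 = 0) :
    (run Q k l J (t + 1)).2.2 = (run Q k l J t).2.2 + 1 ∧
      (run Q k l J (t + 1)).2.1 = (run Q k l J t).2.1 := by
  rw [hu]
  unfold nxt
  rw [if_pos h]
  exact ⟨rfl, rfl⟩

lemma run_odd (_hp : Par M Q k l J) {t u : ℕ} (hu : run Q k l J (t + 1) = nxt k (run Q k l J t) u)
    (h : ¬ u % 2 = 0) :
    (run Q k l J (t + 1)).2.2 = (run Q k l J t).2.2 ∧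
      (run Q k l J (t + 1)).2.1 = (u / 2).unpair.1 :: (run Q k l J t).2.1 := by
  rw [hu]
  unfold nxt
  rw [if_neg h]
  exact ⟨rfl, rfl⟩

lemma run_task_mono (hp : Par M Q k l J) {t t' : ℕ} (h : t ≤ t') :
    (run Q k l J t).2.2 ≤ (run Q k l J t').2.2 := by
  induction t', h using Nat.le_induction with
  | base => exact le_rfl
  | succ n hn ih =>
    refine ih.trans ?_
    obtain ⟨u, _, _, hu⟩ := run_succ hp n
    by_cases h : u % 2 = 0
    · rw [(run_even hp hu h).1]; omega
    · rw [(run_odd hp hu h).1]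

lemma run_list_mono (hp : Par M Q k l J) {t t' : ℕ} (h : t ≤ t') {i : ℕ}
    (hi : i ∈ (run Q k l J t).2.1) : i ∈ (run Q k l J t').2.1 := by
  induction t', h using Nat.le_induction with
  | base => exact hi
  | succ n hn ih =>
    obtain ⟨u, _, _, hu⟩ := run_succ hp n
    by_cases h : u % 2 = 0
    · rw [(run_even hp hu h).2]; exact ih
    · rw [(run_odd hp hu h).2]; exact List.mem_cons_of_mem _ ih

lemma run_task_aux (hp : Par M Q k l J) (n : ℕ) (c : ℕ) : ∀ t, (run Q k l J t).2.2 = n →
    ((Finset.range n).filter fun i => i ∉ (run Q k l J t).2.1).card ≤ c →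
    ∃ t' u, (run Q k l J t').2.2 = n ∧ Valid Q k l J (run Q k l J t') u ∧ u % 2 = 0 ∧
      run Q k l J (t' + 1) = nxt k (run Q k l J t') u := by
  induction c with
  | zero =>
    intro t ht hc
    obtain ⟨u, hv, _, hu⟩ := run_succ hp t
    by_cases h : u % 2 = 0
    · exact ⟨t, u, ht, hv, h, hu⟩
    · exfalso
      obtain ⟨h1, _, h3, _⟩ := hv.2.1 (by omega)
      have h4 : (u / 2).unpair.1 ∈
          (Finset.range n).filter fun i => i ∉ (run Q k l J t).2.1 := by
        rw [Finset.mem_filter, Finset.mem_range]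
        exact ⟨ht ▸ h1, h3⟩
      have h5 := Finset.card_pos.2 ⟨_, h4⟩
      omega
  | succ c ih =>
    intro t ht hc
    obtain ⟨u, hv, _, hu⟩ := run_succ hp t
    by_cases h : u % 2 = 0
    · exact ⟨t, u, ht, hv, h, hu⟩
    · obtain ⟨h1, _, h3, _⟩ := hv.2.1 (by omega)
      obtain ⟨h4, h5⟩ := run_odd hp hu h
      refine ih (t + 1) (h4.trans ht) ?_
      have h6 : ((Finset.range n).filter fun i => i ∉ (run Q k l J (t + 1)).2.1) ⊂
          (Finset.range n).filter fun i => i ∉ (run Q k l J t).2.1 := by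
        rw [Finset.ssubset_iff_of_subset]
        · refine ⟨(u / 2).unpair.1, ?_, ?_⟩
          · rw [Finset.mem_filter, Finset.mem_range]
            exact ⟨ht ▸ h1, h3⟩
          · rw [Finset.mem_filter, h5]
            simp
        · intro i hi
          rw [Finset.mem_filter] at hi ⊢
          refine ⟨hi.1, fun h7 => hi.2 ?_⟩
          rw [h5]
          exact List.mem_cons_of_mem _ h7
      have := Finset.card_lt_card h6
      omega

/-- Every task is treated: a kicking step at the task `n` adds to the list of kicked requirements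
a new number `< n`. -/
theorem run_task (hp : Par M Q k l J) (n : ℕ) :
    ∃ t w, w ≤ k + n + 1 ∧ (run Q k l J t).2.2 = n ∧ (run Q k l J (t + 1)).2.2 = n + 1 ∧
      (run Q k l J (t + 1)).1 = stepA (k + n) (dec n) w (run Q k l J t).1 := by
  have hex : ∃ t, (run Q k l J t).2.2 = n := by
    induction n with
    | zero => exact ⟨0, rfl⟩
    | succ n ih =>
      obtain ⟨t, ht⟩ := ih
      obtain ⟨t', u, h1, _, h3, h4⟩ := run_task_aux hp n _ t ht le_rfl
      exact ⟨t' + 1, by rw [(run_even hp h4 h3).1, h1]⟩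
  obtain ⟨t, ht⟩ := hex
  obtain ⟨t', u, h1, h2, h3, h4⟩ := run_task_aux hp n _ t ht le_rfl
  refine ⟨t', u / 2, ?_, h1, ?_, ?_⟩
  · have := h2.1 h3
    rw [h1] at this
    exact this
  · rw [(run_even hp h4 h3).1, h1]
  · rw [h4, run_nxt_fst]
    unfold newθ
    rw [if_pos h3, h1]

theorem run_hseq (hp : Par M Q k l J) :
    HSeq M (Adm k) (fun t => (run Q k l J t).1) where
  sat t := (run_inv hp t).sat
  mono t r _ h := run_mono hp (Nat.le_succ t) M r h
  dist i j hij := by
    obtain ⟨t, w, _, h2, _, _⟩ := run_task hp (i + j + 1)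
    refine ⟨t, fun r hr hs => ?_⟩
    exact (run_inv hp t).dist r hr hs i (by omega) j (by omega) hij
  comp φ := by
    obtain ⟨t, w, _, _, _, h4⟩ := run_task hp (cod φ)
    refine ⟨t + 1, ?_⟩
    simp only [h4, dec_cod]
    rcases w with _ | i
    · right
      intro r _ hs
      rw [sat_stepA_zero] at hs
      exact hs.2.2
    · left
      intro r _ hs
      rw [sat_stepA_succ] at hs
      exact hs.2.2.1
  witn v ψ t h := by
    obtain ⟨t1, w, _, _, _, h4⟩ := run_task hp (cod (.ex v ψ))
    rw [dec_cod] at h4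
    rcases w with _ | i
    · exfalso
      obtain ⟨r, hr, hs⟩ := (run_inv hp (max t (t1 + 1))).sat
      have h5 := run_mono hp (le_max_left t (t1 + 1)) M r hs
      have h6 := run_mono hp (le_max_right t (t1 + 1)) M r hs
      rw [h4, sat_stepA_zero] at h6
      exact h6.2.2 (h r hr h5)
    · refine ⟨t1 + 1, i, fun r _ hs => ?_⟩
      simp only [h4] at hs
      rw [sat_stepA_succ, sat_wit] at hs
      exact hs.2.2.2

/-- An active requirement which is never kicked is protected from some stage on: decision steps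
protect it as soon as the task is `> i`; kicking steps for `i' > i` protect it; `i' < i` is
kicked at most once, `i` never. -/
theorem run_prot (hp : Par M Q k l J) {i : ℕ} (hi : act l J i)
    (hK : ∀ t, i ∉ (run Q k l J t).2.1) :
    ∃ t0, ∀ t ≥ t0, prot Q k (run Q k l J t).1 (run Q k l J (t + 1)).1 i := by
  have hT : ∀ i', ∃ T, (∃ t, i' ∈ (run Q k l J t).2.1) → i' ∈ (run Q k l J T).2.1 := by
    intro i'
    by_cases h : ∃ t, i' ∈ (run Q k l J t).2.1
    · obtain ⟨t, ht⟩ := h
      exact ⟨t, fun _ => ht⟩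
    · exact ⟨0, fun h' => absurd h' h⟩
  choose T hT using hT
  obtain ⟨t1, w, _, _, h3, _⟩ := run_task hp i
  refine ⟨max ((Finset.range i).sup T) (t1 + 1), fun t ht => ?_⟩
  have ht1 : (Finset.range i).sup T ≤ t := (le_max_left _ _).trans ht
  have ht2 : t1 + 1 ≤ t := (le_max_right _ _).trans ht
  obtain ⟨u, hv, _, hu⟩ := run_succ hp t
  have hlev : i < plev (run Q k l J t) u := by
    unfold plev
    by_cases h : u % 2 = 0
    · rw [if_pos h]
      have := run_task_mono hp ht2
      omega
    · rw [if_neg h]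
      obtain ⟨_, h5⟩ := run_odd hp hu h
      rcases lt_trichotomy i (u / 2).unpair.1 with h6 | h6 | h6
      · exact h6
      · exfalso
        apply hK (t + 1)
        rw [h5, h6]
        exact List.mem_cons_self
      · exfalso
        have h7 : (u / 2).unpair.1 ∈ (run Q k l J (t + 1)).2.1 := by
          rw [h5]; exact List.mem_cons_self
        have h8 := hT _ ⟨_, h7⟩
        have h9 : T (u / 2).unpair.1 ≤ t :=
          (Finset.le_sup (f := T) (Finset.mem_range.2 h6)).trans ht1
        exact (hv.2.1 (by omega)).2.2.1 (run_list_mono hp h9 h8)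
  have h := hv.2.2.2 i hlev hi (hK t)
  rwa [hu, run_nxt_fst]

/-- A kicked requirement: some formula of `s_j` is false of the tuple `dl i`. -/
theorem run_kick (hp : Par M Q k l J) {i t : ℕ} (h : i ∈ (run Q k l J t).2.1) :
    ∃ ψ, Q (i.unpair.1 + 1) ψ ∧ ∀ B r, Sat B (run Q k l J t).1 r →
      ¬ Sat B (tr (dl i) ψ) r := by
  induction t with
  | zero => exact absurd h (by simp [run, st0])
  | succ t ih =>
    by_cases h1 : i ∈ (run Q k l J t).2.1
    · obtain ⟨ψ, h2, h3⟩ := ih h1
      exact ⟨ψ, h2, fun B r hs => h3 B r (run_mono hp (Nat.le_succ t) B r hs)⟩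
    · obtain ⟨u, hv, _, hu⟩ := run_succ hp t
      by_cases h2 : u % 2 = 0
      · rw [(run_even hp hu h2).2] at h
        exact absurd h h1
      · rw [(run_odd hp hu h2).2] at h
        rcases List.mem_cons.1 h with h3 | h3
        · subst h3
          refine ⟨dec (u / 2).unpair.2, (hv.2.1 (by omega)).2.2.2, fun B r hs => ?_⟩
          rw [hu, run_nxt_fst] at hs
          unfold newθ at hs
          rw [if_neg h2] at hs
          exact hs.2
        · exact absurd h3 h1

end Pool.Agent.H65.ME
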