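import Pool.Agent.H65.ME.Cmp

/-!
# SML: in a small theory the isolated types are dense
-/

namespace Pool.Agent.H65.ME

theorem sml_asg_append (a : List ℕ) (x : ℕ) : asg (a ++ [x]) a.length = x := by
  simp [asg]

theorem sml_asg_lt (a : List ℕ) (x : ℕ) {i : ℕ} (hi : i < a.length) :
    asg (a ++ [x]) i = asg a i := by
  unfold asg
  rw [List.getD_append _ _ _ _ hi]

theorem sml_fv_neg (φ : Fml) : fv φ.neg = fv φ := rfl

theorem sml_fv_and (φ ψ : Fml) : fv (φ.and ψ) = fv φ ∪ fv ψ := rfl

/-- an element of the tuple is isolated over it -/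
theorem sml_isol_mem (N : Str) (a : List ℕ) {x : ℕ} (hx : x ∈ a) : IsolOver N a [x] := by
  obtain ⟨j, hj, rfl⟩ := List.mem_iff_getElem.1 hx
  have e1 : ∀ y, asg (a ++ [y]) j = a[j] := by
    intro y
    rw [sml_asg_lt a y hj]
    simp [asg, hj]
  refine ⟨.eq a.length j, ⟨?_, ?_⟩, ?_⟩
  · intro v hv
    simp only [fv, Finset.mem_insert, Finset.mem_singleton] at hv
    simp only [List.length_append, List.length_cons, List.length_nil]
    omega
  · show asg (a ++ [a[j]]) a.length = asg (a ++ [a[j]]) j
    rw [sml_asg_append, e1]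
  · intro b' hb' hχ
    obtain ⟨y, rfl⟩ : ∃ y, b' = [y] := by
      match b', hb' with
      | [y], _ => exact ⟨y, rfl⟩
    have h2 : asg (a ++ [y]) a.length = asg (a ++ [y]) j := hχ.2
    rw [sml_asg_append, e1] at h2
    rw [h2]

/-- two different types of the same length are separated by a formula of the first -/
theorem sml_sep {A B : Str} {a b : List ℕ} (hl : a.length = b.length) (h : tp B b ≠ tp A a) :
    ∃ φ ∈ tp A a, φ ∉ tp B b := by
  by_contra hcon
  push Not at hcon
  apply h
  refine Set.Subset.antisymm ?_ hcon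
  intro φ hφ
  by_contra h2
  have h3 : ∀ v ∈ fv φ, v < a.length := fun v hv => hl ▸ hφ.1 v hv
  have h4 : φ.neg ∈ tp A a := (neg_mem_tp h3).2 h2
  exact (neg_mem_tp hφ.1).1 (hcon _ h4) hφ

/-- Suppose not. Then no formula `χ` with `χ → ψ` (over `a`) isolates a type, so every consistent
`χ → ψ` splits into two consistent contradictory ones (by a formula `φ` and its negation). This
gives a binary tree of formulas in the variables `0, ..., n` (`n = a.length`; the variable `n` is
`x`), consistent with `a` (in `N`), hence for every branch `f : ℕ → Bool` a decreasing sequence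
`σ_f` (the `i`-th formula is the conjunction of the tree formula and of the first `i` formulas of
`tp N a`), to which `compactness` applies (`x` is different from the entries of `a`: otherwise
`x_n = x_i` together with `ψ` would isolate). The types of `(0, ..., n)` in the models obtained
are different for different branches: uncountably many types, against `hc`. -/
theorem dense {A : Str} (hc : {p | IsType A p}.Countable) {N : Str} (hN : EE A N) {a : List ℕ}
    (ha : a.Nodup) {ψ : Fml} (hψ : ∀ v ∈ fv ψ, v < a.length + 1) {x : ℕ}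
    (hx : Sat N ψ (asg (a ++ [x]))) :
    ∃ x', Sat N ψ (asg (a ++ [x'])) ∧ IsolOver N a [x'] := by
  classical
  by_contra hcon
  push Not at hcon
  -- good formulas
  let Good : Fml → Prop := fun χ => (∀ v ∈ fv χ, v < a.length + 1) ∧
    (∀ y, Sat N χ (asg (a ++ [y])) → Sat N ψ (asg (a ++ [y]))) ∧
    ∃ y, Sat N χ (asg (a ++ [y]))
  have hsplit : ∀ χ, ∃ φ : Fml, Good χ → Good (.and χ φ) ∧ Good (.and χ φ.neg) := by
    intro χ
    by_cases hχ : Good χ
    · obtain ⟨h1, h2, y, hy⟩ := hχ
      have h3 := hcon y (h2 y hy)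
      have hlen : ∀ z, (a ++ [z]).length = a.length + 1 := by intro z; simp
      have h4 : χ ∈ tp N (a ++ [y]) := ⟨fun v hv => by rw [hlen]; exact h1 v hv, hy⟩
      have h5 : ∃ b' : List ℕ, b'.length = [y].length ∧ χ ∈ tp N (a ++ b') ∧
          tp N (a ++ b') ≠ tp N (a ++ [y]) := by
        by_contra h6
        push Not at h6
        exact h3 ⟨χ, h4, fun b' hb' hχ' => h6 b' hb' hχ'⟩
      obtain ⟨b', hb', h6, h7⟩ := h5
      obtain ⟨z, rfl⟩ : ∃ z, b' = [z] := by
        match b', hb' with
        | [z], _ => exact ⟨z, rfl⟩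
      obtain ⟨φ, hφ1, hφ2⟩ := sml_sep (by rw [hlen, hlen]) h7
      have hφv : ∀ v ∈ fv φ, v < a.length + 1 := fun v hv => by
        have := hφ1.1 v hv
        rwa [hlen] at this
      have hφ3 : ¬ Sat N φ (asg (a ++ [z])) := by
        intro h8
        exact hφ2 ⟨fun v hv => by rw [hlen]; exact hφv v hv, h8⟩
      refine ⟨φ, fun _ => ⟨⟨?_, ?_, y, hy, hφ1.2⟩, ⟨?_, ?_, z, h6.2, hφ3⟩⟩⟩
      · intro v hv
        rw [sml_fv_and, Finset.mem_union] at hv
        rcases hv with hv | hv
        · exact h1 v hv
        · exact hφv v hv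
      · intro w hw
        exact h2 w hw.1
      · intro v hv
        rw [sml_fv_and, sml_fv_neg, Finset.mem_union] at hv
        rcases hv with hv | hv
        · exact h1 v hv
        · exact hφv v hv
      · intro w hw
        exact h2 w hw.1
    · exact ⟨ψ, fun h => absurd h hχ⟩
  choose sp hsp using hsplit
  let τ : Set ℕ → ℕ → Fml := fun f i =>
    Nat.rec ψ (fun i χ => if i ∈ f then .and χ (sp χ) else .and χ (sp χ).neg) i
  have τ0 : ∀ f, τ f 0 = ψ := fun f => rfl
  have τs : ∀ f i, τ f (i + 1) =
      if i ∈ f then .and (τ f i) (sp (τ f i)) else .and (τ f i) (sp (τ f i)).neg :=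
    fun f i => rfl
  have hg : ∀ f i, Good (τ f i) := by
    intro f i
    induction i with
    | zero => exact ⟨hψ, fun y hy => hy, x, hx⟩
    | succ i ih =>
      rw [τs]
      split_ifs
      · exact (hsp _ ih).1
      · exact (hsp _ ih).2
  have hmodel : ∀ f : Set ℕ, ∃ B, EE N B ∧ ∀ i, Sat B (τ f i) id := by
    intro f
    refine compactness N (k := a.length + 1) (by omega) (τ f) (fun i => (hg f i).1) ?_ ?_
    · intro i r h
      rw [τs] at h
      split_ifs at h
      · exact h.1
      · exact h.1
    · intro i
      obtain ⟨h1, h2, y, hy⟩ := hg f i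
      refine ⟨asg (a ++ [y]), ?_, hy⟩
      have hya : y ∉ a := fun hm => hcon y (h2 y hy) (sml_isol_mem N a hm)
      have hnd : (a ++ [y]).Nodup := by
        rw [List.nodup_append]
        refine ⟨ha, List.nodup_singleton _, ?_⟩
        intro u hu v hv huv
        rw [List.mem_singleton] at hv
        subst hv
        subst huv
        exact hya hu
      intro i hi j hj hij h
      have hi' : i < (a ++ [y]).length := by simpa using hi
      have hj' : j < (a ++ [y]).length := by simpa using hj
      simp only [asg, List.getD_eq_getElem _ _ hi', List.getD_eq_getElem _ _ hj'] at h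
      exact hij ((hnd.getElem_inj_iff).1 h)
  choose B hB1 hB2 using hmodel
  have hid : ∀ v < a.length + 1, asg (List.range (a.length + 1)) v = id v := by
    intro v hv
    simp [asg, hv]
  have hsatid : ∀ (C : Str) (φ : Fml), (∀ v ∈ fv φ, v < a.length + 1) →
      (φ ∈ tp C (List.range (a.length + 1)) ↔ Sat C φ id) := by
    intro C φ hφ
    have h1 := sat_congr C φ (s := asg (List.range (a.length + 1))) (s' := id)
      (fun v hv => hid v (hφ v hv))
    constructor
    · intro h
      exact h1.1 h.2
    · intro h
      exact ⟨fun v hv => by simpa using hφ v hv, h1.2 h⟩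
  have hspv : ∀ f i, ∀ v ∈ fv (sp (τ f i)), v < a.length + 1 := by
    intro f i v hv
    refine (hsp _ (hg f i)).1.1 v ?_
    rw [sml_fv_and, Finset.mem_union]
    exact Or.inr hv
  have hdiff : ∀ f g : Set ℕ, ∀ i, τ f i = τ g i → i ∈ f → i ∉ g →
      tp (B f) (List.range (a.length + 1)) ≠ tp (B g) (List.range (a.length + 1)) := by
    intro f g i he hf hgi heq
    have h1 := hB2 f (i + 1)
    have h2 := hB2 g (i + 1)
    rw [τs, if_pos hf] at h1
    rw [τs, if_neg hgi] at h2
    have h3 : sp (τ f i) ∈ tp (B f) (List.range (a.length + 1)) :=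
      (hsatid _ _ (hspv f i)).2 h1.2
    rw [heq, he] at h3
    exact h2.2 ((hsatid _ _ (hspv g i)).1 h3)
  have hinj : Function.Injective fun f : Set ℕ => tp (B f) (List.range (a.length + 1)) := by
    intro f g hfg
    by_contra hne
    have hex : ∃ i, ¬ (i ∈ f ↔ i ∈ g) := by
      by_contra h
      push Not at h
      exact hne (Set.ext h)
    have hτ : ∀ i ≤ Nat.find hex, τ f i = τ g i := by
      intro i hi
      induction i with
      | zero => rfl
      | succ i ih =>
        have h1 : (i ∈ f ↔ i ∈ g) := by
          have := Nat.find_min hex (m := i) (by omega)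
          simpa using this
        rw [τs, τs, ih (by omega)]
        simp only [h1]
    have h2 := Nat.find_spec hex
    have h3 := hτ _ le_rfl
    by_cases hf : Nat.find hex ∈ f
    · have hgi : Nat.find hex ∉ g := fun h => h2 ⟨fun _ => h, fun _ => hf⟩
      exact hdiff f g _ h3 hf hgi hfg
    · have hgi : Nat.find hex ∈ g := by
        by_contra h
        exact h2 ⟨fun h' => absurd h' hf, fun h' => absurd h' h⟩
      exact hdiff g f _ h3.symm hgi hf hfg.symm
  have : Countable {p | IsType A p} := hc
  obtain ⟨enc, henc⟩ := exists_injective_nat {p | IsType A p}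
  refine Function.cantor_injective
    (fun f : Set ℕ => enc ⟨tp (B f) (List.range (a.length + 1)),
      ⟨B f, hN.trans (hB1 f), _, rfl⟩⟩) ?_
  intro f g hfg
  exact hinj (congrArg Subtype.val (henc hfg))

end Pool.Agent.H65.ME
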