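import Pool.Agent.H65.ME.Ops

/-!
# SYN1: basic facts on coding, satisfaction, types and isomorphisms
-/

namespace Pool.Agent.H65.ME

/-- strong induction on `n` (unfold `dec` with `rw [dec]`), the pairing identities
`Nat.pair_unpair`, and `Denumerable.encode_ofNat` for the list. -/
theorem cod_dec (n : ℕ) : cod (dec n) = n := by
  induction n using Nat.strong_induction_on with
  | _ n ih =>
    have h1 := Nat.unpair_left_le (n / 5)
    have h2 := Nat.unpair_right_le (n / 5)
    rw [dec]
    split_ifs with h0 h01 h02 h03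
    · rw [cod, Denumerable.encode_ofNat, Nat.pair_unpair]
      omega
    · rw [cod, Nat.pair_unpair]
      omega
    · rw [cod, ih (n / 5) (by omega)]
      omega
    · rw [cod, ih (n / 5).unpair.1 (by omega), ih (n / 5).unpair.2 (by omega), Nat.pair_unpair]
      omega
    · rw [cod, ih (n / 5).unpair.2 (by omega), Nat.pair_unpair]
      omega

theorem dec_cod (φ : Fml) : dec (cod φ) = φ := by
  induction φ with
  | rel i v =>
    have h1 : (5 * Nat.pair i (Encodable.encode v)) % 5 = 0 := by omega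
    have h2 : (5 * Nat.pair i (Encodable.encode v)) / 5 = Nat.pair i (Encodable.encode v) := by
      omega
    rw [cod, dec, if_pos h1, h2, Nat.unpair_pair]
    simp only [Denumerable.ofNat_encode]
  | eq i j =>
    have h0 : ¬ (5 * Nat.pair i j + 1) % 5 = 0 := by omega
    have h1 : (5 * Nat.pair i j + 1) % 5 = 1 := by omega
    have h2 : (5 * Nat.pair i j + 1) / 5 = Nat.pair i j := by omega
    rw [cod, dec, if_neg h0, if_pos h1, h2, Nat.unpair_pair]
  | neg φ ih =>
    have h0 : ¬ (5 * cod φ + 2) % 5 = 0 := by omega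
    have h1 : ¬ (5 * cod φ + 2) % 5 = 1 := by omega
    have h2 : (5 * cod φ + 2) % 5 = 2 := by omega
    have h3 : (5 * cod φ + 2) / 5 = cod φ := by omega
    rw [cod, dec, if_neg h0, if_neg h1, if_pos h2, h3, ih]
  | and φ ψ ih1 ih2 =>
    have h0 : ¬ (5 * Nat.pair (cod φ) (cod ψ) + 3) % 5 = 0 := by omega
    have h1 : ¬ (5 * Nat.pair (cod φ) (cod ψ) + 3) % 5 = 1 := by omega
    have h2 : ¬ (5 * Nat.pair (cod φ) (cod ψ) + 3) % 5 = 2 := by omega
    have h3 : (5 * Nat.pair (cod φ) (cod ψ) + 3) % 5 = 3 := by omega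
    have h4 : (5 * Nat.pair (cod φ) (cod ψ) + 3) / 5 = Nat.pair (cod φ) (cod ψ) := by omega
    rw [cod, dec, if_neg h0, if_neg h1, if_neg h2, if_pos h3, h4, Nat.unpair_pair, ih1, ih2]
  | ex v φ ih =>
    have h0 : ¬ (5 * Nat.pair v (cod φ) + 4) % 5 = 0 := by omega
    have h1 : ¬ (5 * Nat.pair v (cod φ) + 4) % 5 = 1 := by omega
    have h2 : ¬ (5 * Nat.pair v (cod φ) + 4) % 5 = 2 := by omega
    have h3 : ¬ (5 * Nat.pair v (cod φ) + 4) % 5 = 3 := by omega
    have h4 : (5 * Nat.pair v (cod φ) + 4) / 5 = Nat.pair v (cod φ) := by omega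
    rw [cod, dec, if_neg h0, if_neg h1, if_neg h2, if_neg h3, h4, Nat.unpair_pair, ih]

theorem syn1_mem_ofNat (n : ℕ) : ∀ x ∈ Denumerable.ofNat (List ℕ) n, x ≤ n := by
  induction n using Nat.strong_induction_on with
  | _ n ih =>
    intro x hx
    cases n with
    | zero =>
      rw [Denumerable.list_ofNat_zero] at hx
      exact absurd hx (List.not_mem_nil)
    | succ v =>
      rw [Denumerable.list_ofNat_succ, List.mem_cons] at hx
      have h1 := Nat.unpair_left_le v
      have h2 := Nat.unpair_right_le v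
      rcases hx with hx | hx
      · rw [Denumerable.ofNat_nat] at hx
        omega
      · have := ih v.unpair.2 (by omega) x hx
        omega

theorem syn1_mem_le {x : ℕ} {l : List ℕ} (h : x ∈ l) : x ≤ Encodable.encode l := by
  refine syn1_mem_ofNat (Encodable.encode l) x ?_
  rw [Denumerable.ofNat_encode]
  exact h

/-- For `rel`: an element of a list is `≤` its code. -/
theorem fv_le (φ : Fml) : ∀ v ∈ fv φ, v ≤ cod φ := by
  induction φ with
  | rel i v =>
    intro x hx
    have h1 := syn1_mem_le (List.mem_toFinset.1 hx)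
    have h2 := Nat.right_le_pair i (Encodable.encode v)
    rw [cod]
    omega
  | eq i j =>
    intro x hx
    have h1 := Nat.right_le_pair i j
    have h2 := Nat.left_le_pair i j
    have h3 : x = i ∨ x = j := by simpa [fv] using hx
    rw [cod]
    omega
  | neg φ ih =>
    intro x hx
    have := ih x hx
    rw [cod]
    omega
  | and φ ψ ih1 ih2 =>
    intro x hx
    have h1 := Nat.right_le_pair (cod φ) (cod ψ)
    have h2 := Nat.left_le_pair (cod φ) (cod ψ)
    rw [cod]
    rcases Finset.mem_union.1 hx with hx | hx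
    · have := ih1 x hx
      omega
    · have := ih2 x hx
      omega
  | ex v φ ih =>
    intro x hx
    have h1 := Nat.right_le_pair v (cod φ)
    have := ih x (Finset.mem_of_mem_erase hx)
    rw [cod]
    omega

theorem sat_congr (A : Str) (φ : Fml) {s s' : ℕ → ℕ} (h : ∀ v ∈ fv φ, s v = s' v) :
    Sat A φ s ↔ Sat A φ s' := by
  induction φ generalizing s s' with
  | rel i v =>
    have h1 : v.map s = v.map s' :=
      List.map_congr_left fun x hx => h x (List.mem_toFinset.2 hx)
    change A.R i (v.map s) ↔ A.R i (v.map s')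
    rw [h1]
  | eq i j =>
    change s i = s j ↔ s' i = s' j
    rw [h i (by simp [fv]), h j (by simp [fv])]
  | neg φ ih =>
    change ¬ Sat A φ s ↔ ¬ Sat A φ s'
    rw [ih h]
  | and φ ψ ih1 ih2 =>
    change Sat A φ s ∧ Sat A ψ s ↔ Sat A φ s' ∧ Sat A ψ s'
    rw [ih1 fun v hv => h v (Finset.mem_union_left _ hv),
      ih2 fun v hv => h v (Finset.mem_union_right _ hv)]
  | ex v φ ih =>
    change (∃ a, Sat A φ (Function.update s v a)) ↔ ∃ a, Sat A φ (Function.update s' v a)
    refine exists_congr fun a => ih fun x hx => ?_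
    by_cases hxv : x = v
    · subst hxv
      simp
    · rw [Function.update_of_ne hxv, Function.update_of_ne hxv]
      exact h x (Finset.mem_erase.2 ⟨hxv, hx⟩)

theorem sat_iso {A B : Str} (e : ℕ ≃ ℕ) (h : ∀ i v, A.R i v ↔ B.R i (v.map e))
    (φ : Fml) (s : ℕ → ℕ) : Sat A φ s ↔ Sat B φ (e ∘ s) := by
  induction φ generalizing s with
  | rel i v =>
    change A.R i (v.map s) ↔ B.R i (v.map (e ∘ s))
    rw [h, List.map_map]
  | eq i j =>
    change s i = s j ↔ e (s i) = e (s j)
    exact e.injective.eq_iff.symm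
  | neg φ ih =>
    change ¬ Sat A φ s ↔ ¬ Sat B φ (e ∘ s)
    rw [ih]
  | and φ ψ ih1 ih2 =>
    change Sat A φ s ∧ Sat A ψ s ↔ Sat B φ (e ∘ s) ∧ Sat B ψ (e ∘ s)
    rw [ih1, ih2]
  | ex v φ ih =>
    change (∃ a, Sat A φ (Function.update s v a)) ↔ ∃ a, Sat B φ (Function.update (e ∘ s) v a)
    constructor
    · rintro ⟨a, ha⟩
      refine ⟨e a, ?_⟩
      rw [ih, Function.comp_update] at ha
      exact ha
    · rintro ⟨a, ha⟩
      refine ⟨e.symm a, ?_⟩
      rw [ih, Function.comp_update, Equiv.apply_symm_apply]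
      exact ha

theorem syn1_asg_map (e : ℕ → ℕ) {a : List ℕ} {u : ℕ} (hu : u < a.length) :
    asg (a.map e) u = e (asg a u) := by
  have hu' : u < (a.map e).length := by
    rw [List.length_map]
    exact hu
  unfold asg
  rw [List.getD_eq_getElem _ _ hu', List.getD_eq_getElem _ _ hu, List.getElem_map]

theorem tp_iso {A B : Str} (e : ℕ ≃ ℕ) (h : ∀ i v, A.R i v ↔ B.R i (v.map e)) (a : List ℕ) :
    tp A a = tp B (a.map e) := by
  ext φ
  constructor
  · rintro ⟨h1, h2⟩
    refine ⟨fun v hv => by rw [List.length_map]; exact h1 v hv, ?_⟩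
    rw [sat_iso e h] at h2
    exact (sat_congr B φ fun v hv => (syn1_asg_map e (h1 v hv)).symm).1 h2
  · rintro ⟨h1, h2⟩
    have h1' : ∀ v ∈ fv φ, v < a.length := by
      intro v hv
      have := h1 v hv
      rwa [List.length_map] at this
    refine ⟨h1', ?_⟩
    rw [sat_iso e h]
    exact (sat_congr B φ fun v hv => (syn1_asg_map e (h1' v hv)).symm).2 h2

theorem ee_iso {A B : Str} (h : IsoStr A B) : EE A B := by
  obtain ⟨e, he⟩ := h
  exact tp_iso e he []

theorem iso_symm {A B : Str} (h : IsoStr A B) : IsoStr B A := by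
  obtain ⟨e, he⟩ := h
  refine ⟨e.symm, fun i v => ?_⟩
  rw [he, List.map_map]
  simp

theorem iso_trans {A B C : Str} (h : IsoStr A B) (h' : IsoStr B C) : IsoStr A C := by
  obtain ⟨e, he⟩ := h
  obtain ⟨e', he'⟩ := h'
  refine ⟨e.trans e', fun i v => ?_⟩
  rw [he, he', List.map_map]
  rfl

theorem syn1_eq_mem {A : Str} {a : List ℕ} {u : ℕ} : Fml.eq u u ∈ tp A a ↔ u < a.length := by
  constructor
  · rintro ⟨h, _⟩
    exact h u (by simp [fv])
  · intro h
    refine ⟨fun v hv => ?_, rfl⟩
    have : v = u := by simpa [fv] using hv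
    rw [this]
    exact h

/-- Types of tuples of different lengths are different (look at the formulas `x_u = x_u`). -/
theorem tp_length {A B : Str} {a b : List ℕ} (h : tp A a = tp B b) : a.length = b.length := by
  have h1 : ∀ u, u < a.length ↔ u < b.length := by
    intro u
    rw [← syn1_eq_mem (A := A), ← syn1_eq_mem (A := B), h]
  have h2 := h1 a.length
  have h3 := h1 b.length
  omega

/-- A sentence holds under all assignments or under none. -/
theorem sat_sentence {A B : Str} (h : EE A B) {φ : Fml} (hφ : fv φ = ∅) (s s' : ℕ → ℕ) :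
    Sat A φ s ↔ Sat B φ s' := by
  have h1 : ∀ (C : Str) (r : ℕ → ℕ), Sat C φ r ↔ φ ∈ tp C [] := by
    intro C r
    constructor
    · intro hs
      refine ⟨fun v hv => ?_, ?_⟩
      · rw [hφ] at hv
        exact absurd hv (Finset.notMem_empty v)
      · refine (sat_congr C φ fun v hv => ?_).1 hs
        rw [hφ] at hv
        exact absurd hv (Finset.notMem_empty v)
    · rintro ⟨_, hs⟩
      refine (sat_congr C φ fun v hv => ?_).1 hs
      rw [hφ] at hv
      exact absurd hv (Finset.notMem_empty v)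
  rw [h1 A s, h1 B s', h]

/-- Negation: a formula with the right free variables belongs to the type or its negation does. -/
theorem neg_mem_tp {A : Str} {a : List ℕ} {φ : Fml} (h : ∀ v ∈ fv φ, v < a.length) :
    φ.neg ∈ tp A a ↔ φ ∉ tp A a := by
  constructor
  · rintro ⟨_, h2⟩ ⟨_, h3⟩
    exact h2 h3
  · intro h1
    exact ⟨h, fun h2 => h1 ⟨h, h2⟩⟩

end Pool.Agent.H65.ME
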