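import Pool.Agent.H65.ME.Syn1

/-!
# SYN2: semantics and free variables of the operations
-/

namespace Pool.Agent.H65.ME

theorem syn2_getD_le (a : List ℕ) (u : ℕ) : a.getD u 0 ≤ a.sum := by
  by_cases hu : u < a.length
  · rw [List.getD_eq_getElem _ _ hu]
    exact List.single_le_sum (by simp) _ (List.getElem_mem hu)
  · rw [List.getD_eq_default _ _ (not_lt.1 hu)]
    exact Nat.zero_le _

theorem sat_exL (A : Str) (L : List ℕ) (φ : Fml) (s : ℕ → ℕ) :
    Sat A (exL L φ) s ↔ ∃ s' : ℕ → ℕ, (∀ v, v ∉ L → s' v = s v) ∧ Sat A φ s' := by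
  induction L generalizing s with
  | nil =>
    constructor
    · intro h
      exact ⟨s, fun _ _ => rfl, h⟩
    · rintro ⟨s', h1, h2⟩
      have : s' = s := funext fun v => h1 v (by simp)
      rwa [this] at h2
  | cons w L ih =>
    show (∃ a, Sat A (exL L φ) (Function.update s w a)) ↔ _
    constructor
    · rintro ⟨a, ha⟩
      obtain ⟨s', h1, h2⟩ := (ih _).1 ha
      refine ⟨s', ?_, h2⟩
      intro v hv
      rw [List.mem_cons, not_or] at hv
      rw [h1 v hv.2, Function.update_of_ne hv.1]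
    · rintro ⟨s', h1, h2⟩
      refine ⟨s' w, (ih _).2 ⟨s', ?_, h2⟩⟩
      intro v hv
      by_cases hvw : v = w
      · subst hvw
        rw [Function.update_self]
      · rw [Function.update_of_ne hvw]
        exact h1 v (by rw [List.mem_cons, not_or]; exact ⟨hvw, hv⟩)

theorem sat_andL (A : Str) (L : List Fml) (φ : Fml) (s : ℕ → ℕ) :
    Sat A (andL L φ) s ↔ (∀ ψ ∈ L, Sat A ψ s) ∧ Sat A φ s := by
  induction L with
  | nil =>
    show Sat A φ s ↔ _
    constructor
    · intro h
      exact ⟨fun ψ hψ => absurd hψ (by simp), h⟩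
    · exact fun h => h.2
  | cons ψ L ih =>
    show (Sat A ψ s ∧ Sat A (andL L φ) s) ↔ _
    rw [ih]
    constructor
    · rintro ⟨h1, h2, h3⟩
      refine ⟨?_, h3⟩
      intro χ hχ
      rcases List.mem_cons.1 hχ with rfl | hχ
      · exact h1
      · exact h2 χ hχ
    · rintro ⟨h1, h2⟩
      exact ⟨h1 ψ (List.mem_cons_self ..), fun χ hχ => h1 χ (List.mem_cons_of_mem _ hχ), h2⟩

theorem mem_fv_exL {L : List ℕ} {φ : Fml} {v : ℕ} :
    v ∈ fv (exL L φ) ↔ v ∈ fv φ ∧ v ∉ L := by
  induction L with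
  | nil =>
    show v ∈ fv φ ↔ _
    simp
  | cons w L ih =>
    show v ∈ (fv (exL L φ)).erase w ↔ _
    rw [Finset.mem_erase, ih, List.mem_cons, not_or]
    tauto

theorem mem_fv_andL {L : List Fml} {φ : Fml} {v : ℕ} :
    v ∈ fv (andL L φ) ↔ (∃ ψ ∈ L, v ∈ fv ψ) ∨ v ∈ fv φ := by
  induction L with
  | nil =>
    show v ∈ fv φ ↔ _
    simp
  | cons ψ L ih =>
    show v ∈ fv ψ ∪ fv (andL L φ) ↔ _
    rw [Finset.mem_union, ih]
    constructor
    · rintro (h | ⟨χ, h1, h2⟩ | h)
      · exact Or.inl ⟨ψ, List.mem_cons_self .., h⟩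
      · exact Or.inl ⟨χ, List.mem_cons_of_mem _ h1, h2⟩
      · exact Or.inr h
    · rintro (⟨χ, h1, h2⟩ | h)
      · rcases List.mem_cons.1 h1 with rfl | h1
        · exact Or.inl h2
        · exact Or.inr (Or.inl ⟨χ, h1, h2⟩)
      · exact Or.inr (Or.inr h)

theorem sat_exO (A : Str) (S : List ℕ) (φ : Fml) (s : ℕ → ℕ) :
    Sat A (exO S φ) s ↔ ∃ s' : ℕ → ℕ, (∀ v ∈ S, s' v = s v) ∧ Sat A φ s' := by
  unfold exO
  rw [sat_exL]
  constructor
  · rintro ⟨s', h1, h2⟩
    refine ⟨s', ?_, h2⟩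
    intro v hv
    apply h1
    intro hmem
    have := List.of_mem_filter hmem
    simp only [decide_eq_true_eq] at this
    exact this hv
  · rintro ⟨s', h1, h2⟩
    classical
    refine ⟨fun v => if v ∈ (List.range (cod φ + 1)).filter (fun v => decide (v ∉ S))
      then s' v else s v, ?_, ?_⟩
    · intro v hv
      exact if_neg hv
    · refine (sat_congr A φ ?_).1 h2
      intro v hv
      have hle := fv_le φ v hv
      by_cases hS : v ∈ S
      · split_ifs with h3
        · rfl
        · exact h1 v hS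
      · rw [if_pos]
        rw [List.mem_filter]
        refine ⟨List.mem_range.2 (by omega), ?_⟩
        simpa using hS

theorem fv_exO {S : List ℕ} {φ : Fml} {v : ℕ} (h : v ∈ fv (exO S φ)) : v ∈ S ∧ v ∈ fv φ := by
  unfold exO at h
  rw [mem_fv_exL] at h
  refine ⟨?_, h.1⟩
  by_contra hS
  apply h.2
  rw [List.mem_filter]
  have hle := fv_le φ v h.1
  refine ⟨List.mem_range.2 (by omega), ?_⟩
  simpa using hS

theorem sat_tr' (A : Str) (a : List ℕ) (φ : Fml) (s : ℕ → ℕ) :
    Sat A (tr a φ) s ↔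
      ∃ s' : ℕ → ℕ, (∀ u < a.length, s' u = s (a.getD u 0)) ∧ Sat A φ s' := by
  have hget : ∀ u, a.getD u 0 ≤ a.sum := syn2_getD_le a
  unfold tr
  rw [sat_exL]
  simp only [sat_andL, sat_exL]
  constructor
  · rintro ⟨s1, h1, h2, s2, h3, h4, h5⟩
    refine ⟨s2, ?_, h5⟩
    intro u hu
    have e1 : s2 u = s2 (cod φ + 1 + a.length + a.sum + u) :=
      h4 _ (List.mem_map.2 ⟨u, List.mem_range.2 hu, rfl⟩)
    have e2 : s2 (cod φ + 1 + a.length + a.sum + u) = s1 (cod φ + 1 + a.length + a.sum + u) :=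
      h3 _ (by rw [List.mem_range]; omega)
    have e3 : s1 (cod φ + 1 + a.length + a.sum + u) = s1 (a.getD u 0) :=
      h2 _ (List.mem_map.2 ⟨u, List.mem_range.2 hu, rfl⟩)
    have e4 : s1 (a.getD u 0) = s (a.getD u 0) := by
      apply h1
      rw [List.mem_map]
      rintro ⟨w, _, hw⟩
      have := hget u
      omega
    rw [e1, e2, e3, e4]
  · rintro ⟨s', h1, h2⟩
    classical
    set N := cod φ + 1 + a.length + a.sum with hN
    set s1 : ℕ → ℕ := fun v => if N ≤ v ∧ v < N + a.length then s (a.getD (v - N) 0) else s v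
      with hs1
    have hs1a : ∀ u < a.length, s1 (N + u) = s (a.getD u 0) := by
      intro u hu
      rw [hs1]
      simp only
      rw [if_pos ⟨by omega, by omega⟩, Nat.add_sub_cancel_left]
    have hs1b : ∀ v < N, s1 v = s v := by
      intro v hv
      rw [hs1]
      simp only
      rw [if_neg (by omega)]
    set s2 : ℕ → ℕ := fun v => if v < cod φ + 1 + a.length then s' v else s1 v with hs2
    have hs2a : ∀ v < cod φ + 1 + a.length, s2 v = s' v := fun v hv => if_pos hv
    have hs2b : ∀ v, ¬ v < cod φ + 1 + a.length → s2 v = s1 v := fun v hv => if_neg hv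
    refine ⟨s1, ?_, ?_, s2, ?_, ?_, ?_⟩
    · intro v hv
      rw [hs1]
      simp only
      rw [if_neg]
      rintro ⟨h3, h4⟩
      apply hv
      rw [List.mem_map]
      exact ⟨v - N, List.mem_range.2 (by omega), by omega⟩
    · intro ψ hψ
      obtain ⟨u, hu, rfl⟩ := List.mem_map.1 hψ
      rw [List.mem_range] at hu
      show s1 (N + u) = s1 (a.getD u 0)
      have := hget u
      rw [hs1a u hu, hs1b _ (by omega)]
    · intro v hv
      rw [List.mem_range] at hv
      exact hs2b v hv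
    · intro ψ hψ
      obtain ⟨u, hu, rfl⟩ := List.mem_map.1 hψ
      rw [List.mem_range] at hu
      show s2 u = s2 (N + u)
      rw [hs2a u (by omega), hs2b _ (by omega), hs1a u hu, h1 u hu]
    · refine (sat_congr A φ ?_).1 h2
      intro v hv
      have := fv_le φ v hv
      rw [hs2a v (by omega)]

theorem sat_tr (A : Str) {a : List ℕ} {φ : Fml} (h : ∀ v ∈ fv φ, v < a.length) (s : ℕ → ℕ) :
    Sat A (tr a φ) s ↔ Sat A φ (fun u => s (a.getD u 0)) := by
  rw [sat_tr']
  constructor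
  · rintro ⟨s', h1, h2⟩
    exact (sat_congr A φ (fun v hv => h1 v (h v hv))).1 h2
  · intro h2
    exact ⟨fun u => s (a.getD u 0), fun _ _ => rfl, h2⟩

theorem fv_tr {a : List ℕ} {φ : Fml} {v : ℕ} (h : v ∈ fv (tr a φ)) : v ∈ a := by
  have hget : ∀ u, a.getD u 0 ≤ a.sum := syn2_getD_le a
  unfold tr at h
  rw [mem_fv_exL, mem_fv_andL, mem_fv_exL, mem_fv_andL] at h
  obtain ⟨h1, h2⟩ := h
  rw [List.mem_map] at h2
  rcases h1 with ⟨ψ, hψ, hv⟩ | ⟨⟨ψ, hψ, hv⟩ | hv, hr⟩
  · obtain ⟨u, hu, rfl⟩ := List.mem_map.1 hψ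
    simp only [fv, Finset.mem_insert, Finset.mem_singleton] at hv
    rcases hv with hv | hv
    · exact absurd ⟨u, hu, hv.symm⟩ h2
    · rw [List.mem_range] at hu
      rw [hv, List.getD_eq_getElem _ _ hu]
      exact List.getElem_mem hu
  · obtain ⟨u, hu, rfl⟩ := List.mem_map.1 hψ
    simp only [fv, Finset.mem_insert, Finset.mem_singleton] at hv
    rcases hv with hv | hv
    · rw [List.mem_range] at hu hr
      omega
    · exact absurd ⟨u, hu, hv.symm⟩ h2
  · have := fv_le φ v hv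
    rw [List.mem_range] at hr
    omega

theorem sat_pull (A : Str) (d : List ℕ) (φ : Fml) (s : ℕ → ℕ) :
    Sat A (pull d φ) s ↔
      ∃ s' : ℕ → ℕ, (∀ i < d.length, s' (d.getD i 0) = s i) ∧ Sat A φ s' := by
  have hget : ∀ u, d.getD u 0 ≤ d.sum := syn2_getD_le d
  unfold pull
  rw [sat_exL]
  simp only [sat_andL, sat_exL]
  constructor
  · rintro ⟨s1, h1, h2, s2, h3, h4, h5⟩
    refine ⟨s2, ?_, h5⟩
    intro u hu
    have e1 : s2 (d.getD u 0) = s2 (cod φ + 1 + d.sum + d.length + u) :=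
      h4 _ (List.mem_map.2 ⟨u, List.mem_range.2 hu, rfl⟩)
    have e2 : s2 (cod φ + 1 + d.sum + d.length + u) = s1 (cod φ + 1 + d.sum + d.length + u) :=
      h3 _ (by rw [List.mem_range]; omega)
    have e3 : s1 (cod φ + 1 + d.sum + d.length + u) = s1 u :=
      h2 _ (List.mem_map.2 ⟨u, List.mem_range.2 hu, rfl⟩)
    have e4 : s1 u = s u := by
      apply h1
      rw [List.mem_map]
      rintro ⟨w, _, hw⟩
      omega
    rw [e1, e2, e3, e4]
  · rintro ⟨s', h1, h2⟩
    classical
    set N := cod φ + 1 + d.sum + d.length with hN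
    set s1 : ℕ → ℕ := fun v => if N ≤ v ∧ v < N + d.length then s (v - N) else s v
      with hs1
    have hs1a : ∀ u < d.length, s1 (N + u) = s u := by
      intro u hu
      rw [hs1]
      simp only
      rw [if_pos ⟨by omega, by omega⟩, Nat.add_sub_cancel_left]
    have hs1b : ∀ v < N, s1 v = s v := by
      intro v hv
      rw [hs1]
      simp only
      rw [if_neg (by omega)]
    set s2 : ℕ → ℕ := fun v => if v < N then s' v else s1 v with hs2
    have hs2a : ∀ v < N, s2 v = s' v := fun v hv => if_pos hv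
    have hs2b : ∀ v, ¬ v < N → s2 v = s1 v := fun v hv => if_neg hv
    refine ⟨s1, ?_, ?_, s2, ?_, ?_, ?_⟩
    · intro v hv
      rw [hs1]
      simp only
      rw [if_neg]
      rintro ⟨h3, h4⟩
      apply hv
      rw [List.mem_map]
      exact ⟨v - N, List.mem_range.2 (by omega), by omega⟩
    · intro ψ hψ
      obtain ⟨u, hu, rfl⟩ := List.mem_map.1 hψ
      rw [List.mem_range] at hu
      show s1 (N + u) = s1 u
      rw [hs1a u hu, hs1b _ (by omega)]
    · intro v hv
      rw [List.mem_range] at hv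
      exact hs2b v hv
    · intro ψ hψ
      obtain ⟨u, hu, rfl⟩ := List.mem_map.1 hψ
      rw [List.mem_range] at hu
      show s2 (d.getD u 0) = s2 (N + u)
      have := hget u
      rw [hs2a _ (by omega), hs2b _ (by omega), hs1a u hu, h1 u hu]
    · refine (sat_congr A φ ?_).1 h2
      intro v hv
      have := fv_le φ v hv
      rw [hs2a v (by omega)]

theorem fv_pull {d : List ℕ} {φ : Fml} {v : ℕ} (h : v ∈ fv (pull d φ)) : v < d.length := by
  have hget : ∀ u, d.getD u 0 ≤ d.sum := syn2_getD_le d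
  unfold pull at h
  rw [mem_fv_exL, mem_fv_andL, mem_fv_exL, mem_fv_andL] at h
  obtain ⟨h1, h2⟩ := h
  rw [List.mem_map] at h2
  rcases h1 with ⟨ψ, hψ, hv⟩ | ⟨⟨ψ, hψ, hv⟩ | hv, hr⟩
  · obtain ⟨u, hu, rfl⟩ := List.mem_map.1 hψ
    simp only [fv, Finset.mem_insert, Finset.mem_singleton] at hv
    rcases hv with hv | hv
    · exact absurd ⟨u, hu, hv.symm⟩ h2
    · rw [List.mem_range] at hu
      omega
  · obtain ⟨u, hu, rfl⟩ := List.mem_map.1 hψ
    simp only [fv, Finset.mem_insert, Finset.mem_singleton] at hv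
    rcases hv with hv | hv
    · have := hget u
      rw [List.mem_range] at hr
      omega
    · exact absurd ⟨u, hu, hv.symm⟩ h2
  · have := fv_le φ v hv
    rw [List.mem_range] at hr
    omega

theorem sat_wit (A : Str) (v : ℕ) (ψ : Fml) (i : ℕ) (s : ℕ → ℕ) :
    Sat A (wit (.ex v ψ) i) s ↔ Sat A ψ (Function.update s v (s i)) := by
  show Sat A (if v = i then ψ else .ex v (.and (.eq v i) ψ)) s ↔ _
  by_cases hvi : v = i
  · rw [if_pos hvi]
    subst hvi
    rw [Function.update_eq_self]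
  · rw [if_neg hvi]
    show (∃ a, (Function.update s v a v = Function.update s v a i) ∧
      Sat A ψ (Function.update s v a)) ↔ _
    have hiv : i ≠ v := fun h => hvi h.symm
    simp only [Function.update_self, Function.update_of_ne hiv]
    constructor
    · rintro ⟨a, rfl, h⟩
      exact h
    · intro h
      exact ⟨s i, rfl, h⟩

theorem fv_wit {φ : Fml} {i v : ℕ} (h : v ∈ fv (wit φ i)) : v ∈ fv φ ∨ v = i ∨ v = 0 := by
  cases φ with
  | rel j w =>
    simp only [wit, fv, Finset.mem_insert, Finset.mem_singleton, or_self] at h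
    exact Or.inr (Or.inr h)
  | eq j j' =>
    simp only [wit, fv, Finset.mem_insert, Finset.mem_singleton, or_self] at h
    exact Or.inr (Or.inr h)
  | neg φ =>
    simp only [wit, fv, Finset.mem_insert, Finset.mem_singleton, or_self] at h
    exact Or.inr (Or.inr h)
  | and φ ψ =>
    simp only [wit, fv, Finset.mem_insert, Finset.mem_singleton, or_self] at h
    exact Or.inr (Or.inr h)
  | ex w ψ =>
    change v ∈ fv (if w = i then ψ else .ex w (.and (.eq w i) ψ)) at h
    by_cases hwi : w = i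
    · rw [if_pos hwi] at h
      by_cases hvw : v = w
      · exact Or.inr (Or.inl (hvw.trans hwi))
      · exact Or.inl (Finset.mem_erase.2 ⟨hvw, h⟩)
    · rw [if_neg hwi] at h
      simp only [fv, Finset.mem_erase, Finset.mem_union, Finset.mem_insert,
        Finset.mem_singleton] at h
      obtain ⟨h1, (h2 | h2) | h2⟩ := h
      · exact absurd h2 h1
      · exact Or.inr (Or.inl h2)
      · exact Or.inl (Finset.mem_erase.2 ⟨h1, h2⟩)

theorem sat_newv (A : Str) (m : ℕ) (φ : Fml) (s : ℕ → ℕ) :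
    Sat A (andL (newv m) φ) s ↔ (∀ i < m, s m ≠ s i) ∧ Sat A φ s := by
  rw [sat_andL]
  constructor
  · rintro ⟨h1, h2⟩
    refine ⟨?_, h2⟩
    intro i hi
    have := h1 (.neg (.eq m i)) (List.mem_map.2 ⟨i, List.mem_range.2 hi, rfl⟩)
    exact this
  · rintro ⟨h1, h2⟩
    refine ⟨?_, h2⟩
    intro ψ hψ
    obtain ⟨i, hi, rfl⟩ := List.mem_map.1 hψ
    exact h1 i (List.mem_range.1 hi)

theorem sat_stepA_zero (A : Str) (m : ℕ) (φ θ : Fml) (s : ℕ → ℕ) :
    Sat A (stepA m φ 0 θ) s ↔ (∀ i < m, s m ≠ s i) ∧ Sat A θ s ∧ ¬ Sat A φ s := by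
  unfold stepA
  rw [sat_newv]
  exact Iff.rfl

theorem sat_stepA_succ (A : Str) (m : ℕ) (φ : Fml) (i : ℕ) (θ : Fml) (s : ℕ → ℕ) :
    Sat A (stepA m φ (i + 1) θ) s ↔
      (∀ i < m, s m ≠ s i) ∧ Sat A θ s ∧ Sat A φ s ∧ Sat A (wit φ i) s := by
  unfold stepA
  rw [sat_newv]
  exact Iff.rfl

theorem fv_stepA {m : ℕ} {φ : Fml} {w : ℕ} {θ : Fml} (hm : 1 ≤ m) (hw : w ≤ m + 1)
    (hφ : ∀ v ∈ fv φ, v < m) (hθ : ∀ v ∈ fv θ, v < m) :
    ∀ v ∈ fv (stepA m φ w θ), v < m + 1 := by
  intro v hv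
  unfold stepA at hv
  rw [mem_fv_andL] at hv
  rcases hv with ⟨ψ, hψ, hv⟩ | hv
  · obtain ⟨i, hi, rfl⟩ := List.mem_map.1 hψ
    rw [List.mem_range] at hi
    simp only [fv, Finset.mem_insert, Finset.mem_singleton] at hv
    omega
  · cases w with
    | zero =>
      simp only [fv, Finset.mem_union] at hv
      rcases hv with hv | hv
      · exact (hθ v hv).trans (Nat.lt_succ_self m)
      · exact (hφ v hv).trans (Nat.lt_succ_self m)
    | succ i =>
      simp only [fv, Finset.mem_union] at hv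
      rcases hv with hv | hv | hv
      · exact (hθ v hv).trans (Nat.lt_succ_self m)
      · exact (hφ v hv).trans (Nat.lt_succ_self m)
      · rcases fv_wit hv with hv | hv | hv
        · exact (hφ v hv).trans (Nat.lt_succ_self m)
        · omega
        · omega

end Pool.Agent.H65.ME
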