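import Pool.Agent.H65.ME.Cmp

/-!
# VAL: there is always an admissible step
-/

namespace Pool.Agent.H65.ME

theorem val_mem_ofNat (n : ℕ) : ∀ x ∈ Denumerable.ofNat (List ℕ) n, x ≤ n := by
  induction n using Nat.strong_induction_on with
  | _ n ih =>
    intro x hx
    cases n with
    | zero =>
      rw [Denumerable.list_ofNat_zero] at hx
      exact absurd hx (List.not_mem_nil)
    | succ v =>
      rw [Denumerable.list_ofNat_succ, List.mem_cons] at hx
      have h1 := Nat.unpair_left_le v
      have h2 := Nat.unpair_right_le v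
      rcases hx with hx | hx
      · rw [Denumerable.ofNat_nat] at hx
        omega
      · have := ih v.unpair.2 (by omega) x hx
        omega

theorem mem_dl_le {i x : ℕ} (h : x ∈ dl i) : x ≤ i :=
  (val_mem_ofNat _ x h).trans (Nat.unpair_right_le i)

/-- The requirement `i` is forced positively: every admissible assignment satisfying `θ` maps
the tuple `dl i` to a tuple of type `s_j`. -/
def Pos (M : Str) (Q : ℕ → Fml → Prop) (k : ℕ) (θ : Fml) (i : ℕ) : Prop :=
  ∀ r, Adm k r → Sat M θ r → ∀ ψ, Q (i.unpair.1 + 1) ψ →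
    Sat M ψ (fun u => r ((dl i).getD u 0))

theorem val_asg_range {k v : ℕ} (hv : v < k) : asg (List.range k) v = v := by
  simp [asg, List.getD_eq_getElem?_getD, hv]

theorem val_q {M : Str} {Q : ℕ → Fml → Prop} {k l J : ℕ} (hp : Par M Q k l J) (X : Fml) :
    Q 0 (exO (List.range k) X) ↔ ∃ r, Adm k r ∧ Sat M X r := by
  rw [hp.q]
  constructor
  · rintro ⟨_, h⟩
    rw [sat_exO] at h
    obtain ⟨s', h1, h2⟩ := h
    refine ⟨s', fun i hi => ?_, h2⟩
    rw [h1 i (List.mem_range.2 hi), val_asg_range hi]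
  · rintro ⟨r, h1, h2⟩
    refine ⟨fun v hv => ?_, ?_⟩
    · rw [List.length_range]
      exact List.mem_range.1 (fv_exO hv).1
    · rw [sat_exO]
      refine ⟨r, fun v hv => ?_, h2⟩
      have hv' := List.mem_range.1 hv
      rw [val_asg_range hv', h1 v hv']

theorem val_qneg {M : Str} {Q : ℕ → Fml → Prop} {k l J : ℕ} (hp : Par M Q k l J) (X : Fml) :
    Q 0 (.neg (exO (List.range k) X)) ↔ ¬ ∃ r, Adm k r ∧ Sat M X r := by
  rw [← val_q hp X, hp.q, hp.q]
  refine neg_mem_tp ?_
  intro v hv
  rw [List.length_range]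
  exact List.mem_range.1 (fv_exO hv).1

/-- If `Pos` holds, the type `s_j` is the type of the tuple. -/
theorem val_pos_iff {M : Str} {Q : ℕ → Fml → Prop} {k l J : ℕ} (hp : Par M Q k l J)
    {θ : Fml} {i : ℕ} (hi : act l J i) (hpos : Pos M Q k θ i) {r : ℕ → ℕ} (h1 : Adm k r)
    (h2 : Sat M θ r) {ψ : Fml} (hψ : ∀ v ∈ fv ψ, v < l) :
    Q (i.unpair.1 + 1) ψ ↔ Sat M ψ (fun u => r ((dl i).getD u 0)) := by
  refine ⟨hpos r h1 h2 ψ, fun h => ?_⟩
  by_contra hc
  obtain ⟨B, b, _, hb, hB⟩ := hp.s i.unpair.1 hi.1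
  rw [hB ψ] at hc
  rw [← neg_mem_tp (by rw [hb]; exact hψ), ← hB] at hc
  exact hpos r h1 h2 _ hc h

/-- A complete type contained in the type of a tuple of the same length is equal to it: by `Pos`
the type `s_j` is the type in `M` of `(dl i).map r`. If the first disjunct of `prot` fails there
is an admissible `r` with `exO _ θ` true and `exO _ θ'` false at `r`; this gives
`pull (dl i) (..) ∈ s_j`, and `hs'` gives `pull (dl i) θ' ∈ s_j`. -/
theorem prot_of_pos {M : Str} {Q : ℕ → Fml → Prop} {k l J : ℕ} (hp : Par M Q k l J)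
    {θ θ' : Fml} {i : ℕ} (hi : act l J i) (hpos : Pos M Q k θ i)
    (himp : ∀ r, Sat M θ' r → Sat M θ r) (hs' : ∃ r, Adm k r ∧ Sat M θ' r) :
    prot Q k θ θ' i := by
  by_cases h : ∃ r, Adm k r ∧ Sat M
      (.and (exO (List.range k ++ dl i) θ) (.neg (exO (List.range k ++ dl i) θ'))) r
  · right
    obtain ⟨r, hr1, hr2⟩ := h
    obtain ⟨r0, h01, h02⟩ := hs'
    have hfv : ∀ φ : Fml, ∀ v ∈ fv (pull (dl i) φ), v < l := by
      intro φ v hv
      rw [← hi.2]
      exact fv_pull hv
    constructor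
    · rw [val_pos_iff hp hi hpos h01 (himp r0 h02) (hfv θ'), sat_pull]
      exact ⟨r0, fun u hu => rfl, h02⟩
    · have hr3 := hr2.1
      rw [sat_exO] at hr3
      obtain ⟨r1, h11, h12⟩ := hr3
      have hadm : Adm k r1 := by
        intro v hv
        rw [h11 v (List.mem_append_left _ (List.mem_range.2 hv)), hr1 v hv]
      rw [val_pos_iff hp hi hpos hadm h12 (hfv _), sat_pull]
      refine ⟨r, fun u hu => ?_, hr2⟩
      have hmem : (dl i).getD u 0 ∈ dl i := by
        rw [List.getD_eq_getElem _ _ hu]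
        exact List.getElem_mem hu
      exact (h11 _ (List.mem_append_right _ hmem)).symm
  · left
    exact (val_qneg hp _).2 h

theorem val_stepA_imp {M : Str} {m : ℕ} {φ θ : Fml} {w : ℕ} {r : ℕ → ℕ}
    (h : Sat M (stepA m φ w θ) r) : (∀ i < m, r m ≠ r i) ∧ Sat M θ r := by
  cases w with
  | zero =>
    rw [sat_stepA_zero] at h
    exact ⟨h.1, h.2.1⟩
  | succ i =>
    rw [sat_stepA_succ] at h
    exact ⟨h.1, h.2.1⟩

theorem val_newθ_even {k : ℕ} {st : St} {u : ℕ} (hu : u % 2 = 0) :
    newθ k st u = stepA (k + st.2.2) (dec st.2.2) (u / 2) st.1 := if_pos hu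

theorem val_newθ_odd {k : ℕ} {st : St} {u : ℕ} (hu : ¬ u % 2 = 0) :
    newθ k st u = .and st.1 (.neg (tr (dl (u / 2).unpair.1) (dec (u / 2).unpair.2))) :=
  if_neg hu

theorem val_fv_dec {k : ℕ} (hk : 1 ≤ k) (n : ℕ) : ∀ v ∈ fv (dec n), v < k + n := by
  intro v hv
  have h := fv_le (dec n) v hv
  rw [cod_dec] at h
  omega

/-- If no kicking step is admissible, then `Pos` holds for every active requirement `i < n` that
is not kicked (strong induction on `i`: if `Pos` fails for `i` with the formula `ψ`, the step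
`2 * pair i (cod ψ) + 1` is admissible by `prot_of_pos`); then the decision step given by
`stepA_ex` is admissible, again by `prot_of_pos`. -/
theorem valid_ex {M : Str} {Q : ℕ → Fml → Prop} {k l J : ℕ} (hp : Par M Q k l J) {st : St}
    (hi : Inv M k st) : ∃ u, Valid Q k l J st u := by
  by_contra hno
  have key : ∀ i, i < st.2.2 → act l J i → i ∉ st.2.1 → Pos M Q k st.1 i := by
    intro i
    induction i using Nat.strong_induction_on with
    | _ i ih =>
      intro h1 h2 h3 r hr1 hr2 ψ hψ
      by_contra hc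
      apply hno
      have hu1 : (2 * Nat.pair i (cod ψ) + 1) % 2 = 1 := by omega
      have hu2 : ¬ (2 * Nat.pair i (cod ψ) + 1) % 2 = 0 := by omega
      have hu3 : (2 * Nat.pair i (cod ψ) + 1) / 2 = Nat.pair i (cod ψ) := by omega
      have hnew : newθ k st (2 * Nat.pair i (cod ψ) + 1) = .and st.1 (.neg (tr (dl i) ψ)) := by
        rw [val_newθ_odd hu2, hu3, Nat.unpair_pair, dec_cod]
      have hfvψ : ∀ v ∈ fv ψ, v < (dl i).length := by
        obtain ⟨B, b, _, hb, hB⟩ := hp.s i.unpair.1 h2.1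
        rw [h2.2, ← hb]
        exact ((hB ψ).1 hψ).1
      have hsat : ∃ r, Adm k r ∧ Sat M (newθ k st (2 * Nat.pair i (cod ψ) + 1)) r := by
        refine ⟨r, hr1, ?_⟩
        rw [hnew]
        refine ⟨hr2, ?_⟩
        change ¬ Sat M (tr (dl i) ψ) r
        rw [sat_tr M hfvψ]
        exact hc
      refine ⟨2 * Nat.pair i (cod ψ) + 1, fun h => absurd h hu2, fun _ => ?_,
        (val_q hp _).2 hsat, ?_⟩
      · rw [hu3, Nat.unpair_pair, dec_cod]
        exact ⟨h1, h2, h3, hψ⟩
      · intro i' hi' hact hni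
        have hpl : plev st (2 * Nat.pair i (cod ψ) + 1) = i := by
          unfold plev
          rw [if_neg hu2, hu3, Nat.unpair_pair]
        rw [hpl] at hi'
        refine prot_of_pos hp hact (ih i' hi' (hi'.trans h1) hact hni) ?_ hsat
        intro r' hr'
        rw [hnew] at hr'
        exact hr'.1
  apply hno
  obtain ⟨r, hr1, hr2⟩ := hi.sat
  have hm : 1 ≤ k + st.2.2 := by
    have := hp.k_pos
    omega
  obtain ⟨w, hw, r', hr'1, hr'2⟩ := stepA_ex M hm (val_fv_dec hp.k_pos st.2.2) hi.fvs hr2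
  have hu1 : (2 * w) % 2 = 0 := by omega
  have hu2 : ¬ (2 * w) % 2 = 1 := by omega
  have hu3 : (2 * w) / 2 = w := by omega
  have hnew : newθ k st (2 * w) = stepA (k + st.2.2) (dec st.2.2) w st.1 := by
    rw [val_newθ_even hu1, hu3]
  have hsat : ∃ r, Adm k r ∧ Sat M (newθ k st (2 * w)) r := by
    refine ⟨r', fun i hi' => ?_, ?_⟩
    · rw [hr'1 i (by omega), hr1 i hi']
    · rw [hnew]
      exact hr'2
  refine ⟨2 * w, fun _ => ?_, fun h => absurd h hu2, (val_q hp _).2 hsat, ?_⟩
  · rw [hu3]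
    exact hw
  · intro i' hi' hact hni
    have hpl : plev st (2 * w) = st.2.2 := by
      unfold plev
      rw [if_pos hu1]
    rw [hpl] at hi'
    refine prot_of_pos hp hact (key i' hi' hact hni) ?_ hsat
    intro r' hr'
    rw [hnew] at hr'
    exact (val_stepA_imp hr').2

theorem inv_st0 {M : Str} {k : ℕ} (hk : 1 ≤ k) : Inv M k st0 where
  fvs := by
    intro v hv
    have h : v = 0 := by simpa [st0, fv] using hv
    subst h
    show 0 < k + 0
    omega
  sat := ⟨id, fun i _ => rfl, rfl⟩
  dist := by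
    intro r hr _ i hi j hj hij
    have hi' : i < k := hi
    have hj' : j < k := hj
    rw [hr i hi', hr j hj']
    exact hij

theorem inv_nxt {M : Str} {Q : ℕ → Fml → Prop} {k l J : ℕ} (hp : Par M Q k l J) {st : St}
    (hi : Inv M k st) {u : ℕ} (hv : Valid Q k l J st u) : Inv M k (nxt k st u) := by
  obtain ⟨hv1, hv2, hv3, hv4⟩ := hv
  have hsat := (val_q hp _).1 hv3
  have hm : 1 ≤ k + st.2.2 := by
    have := hp.k_pos
    omega
  by_cases hu : u % 2 = 0
  · have hn : nxt k st u = (newθ k st u, st.2.1, st.2.2 + 1) := if_pos hu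
    rw [hn]
    refine ⟨?_, hsat, ?_⟩
    · intro v hv
      change v ∈ fv (newθ k st u) at hv
      rw [val_newθ_even hu] at hv
      have := fv_stepA hm (hv1 hu) (val_fv_dec hp.k_pos st.2.2) hi.fvs v hv
      change v < k + (st.2.2 + 1)
      omega
    · intro r hr hs i hi' j hj' hij
      change Sat M (newθ k st u) r at hs
      change i < k + (st.2.2 + 1) at hi'
      change j < k + (st.2.2 + 1) at hj'
      rw [val_newθ_even hu] at hs
      obtain ⟨h1, h2⟩ := val_stepA_imp hs
      rcases Nat.lt_or_ge i (k + st.2.2) with hlt | hge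
      · rcases Nat.lt_or_ge j (k + st.2.2) with hlt' | hge'
        · exact hi.dist r hr h2 i hlt j hlt' hij
        · have hj : j = k + st.2.2 := by omega
          rw [hj]
          exact (h1 i hlt).symm
      · have hi2 : i = k + st.2.2 := by omega
        have hj : j < k + st.2.2 := by omega
        rw [hi2]
        exact h1 j hj
  · have hu' : u % 2 = 1 := by omega
    obtain ⟨h1, h2, h3, h4⟩ := hv2 hu'
    have hn : nxt k st u = (newθ k st u, (u / 2).unpair.1 :: st.2.1, st.2.2) := if_neg hu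
    rw [hn]
    refine ⟨?_, hsat, ?_⟩
    · intro v hv
      change v ∈ fv (newθ k st u) at hv
      rw [val_newθ_odd hu] at hv
      change v < k + st.2.2
      simp only [fv, Finset.mem_union] at hv
      rcases hv with hv | hv
      · exact hi.fvs v hv
      · have := mem_dl_le (fv_tr hv)
        omega
    · intro r hr hs i hi' j hj' hij
      change Sat M (newθ k st u) r at hs
      rw [val_newθ_odd hu] at hs
      exact hi.dist r hr hs.1 i hi' j hj' hij

end Pool.Agent.H65.ME
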